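import Mathlib

/-!
# Symmetric matrices with zero patterns and their Schubert strata

`XP P S M N`: the matrix `M` is symmetric with zeros outside of the pattern `P`, its block outside of
`S` is invertible with inverse `N`, the corank of `M` is `|S|`, and the basis of the kernel of `M`
which is the identity on `S` is lower triangular.
-/

set_option autoImplicit false
set_option linter.unusedSectionVars false

open Matrix

namespace Pool.Agent.KB

section vec

variable {A : Type} [CommRing A] {n : ℕ}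

lemma vv_mulVec (a b c : Fin n → A) : vecMulVec a b *ᵥ c = (b ⬝ᵥ c) • a := by
  funext i
  simp only [mulVec, dotProduct, vecMulVec_apply, Pi.smul_apply, smul_eq_mul, Finset.sum_mul]
  exact Finset.sum_congr rfl fun j _ => by ring

lemma mulVec_symm {M : Matrix (Fin n) (Fin n) A} (hM : ∀ i j, M i j = M j i) (a b : Fin n → A) :
    (M *ᵥ a) ⬝ᵥ b = a ⬝ᵥ (M *ᵥ b) := by
  have h : Mᵀ = M := by ext i j; exact hM j i
  rw [dotProduct_mulVec, ← mulVec_transpose, h]

lemma vecMul_symm {M : Matrix (Fin n) (Fin n) A} (hM : ∀ i j, M i j = M j i) (a : Fin n → A) :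
    a ᵥ* M = M *ᵥ a := by
  have h : Mᵀ = M := by ext i j; exact hM j i
  rw [← mulVec_transpose, h]

lemma vecMul_vv (a b c : Fin n → A) : c ᵥ* vecMulVec a b = (c ⬝ᵥ a) • b := by
  funext i
  simp only [vecMul, dotProduct, vecMulVec_apply, Pi.smul_apply, smul_eq_mul, Finset.sum_mul]
  exact Finset.sum_congr rfl fun j _ => by ring

lemma vecMul_nm {M N : Matrix (Fin n) (Fin n) A} (hM : ∀ i j, M i j = M j i)
    (hN : ∀ i j, N i j = N j i) (v : Fin n → A) : v ᵥ* (N * M) = M *ᵥ (N *ᵥ v) := by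
  rw [← vecMul_vecMul, vecMul_symm hN, vecMul_symm hM]

lemma mul_symm {M N : Matrix (Fin n) (Fin n) A} (hM : ∀ i j, M i j = M j i)
    (hN : ∀ i j, N i j = N j i) (i j : Fin n) : (M * N) i j = (N * M) j i := by
  rw [mul_apply, mul_apply]
  exact Finset.sum_congr rfl fun k _ => by rw [hM i k, hN k j, mul_comm]

end vec

/-- the stratum `S` of the symmetric matrices with pattern `P` -/
structure XP {A : Type} [CommRing A] {n : ℕ} (P : Fin n → Fin n → Prop) (S : Set (Fin n))
    (M N : Matrix (Fin n) (Fin n) A) : Prop where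
  symM : ∀ i j, M i j = M j i
  symN : ∀ i j, N i j = N j i
  pat : ∀ i j, ¬ P i j → M i j = 0
  sup : ∀ i j, i ∈ S → N i j = 0
  inv : ∀ i j, j ∉ S → (N * M) i j = (1 : Matrix (Fin n) (Fin n) A) i j
  ker : M * (N * M) = M
  low : ∀ i j, i < j → (N * M) i j = 0

section

variable {A : Type} [CommRing A] {n : ℕ} {P : Fin n → Fin n → Prop} {S : Set (Fin n)}
  {M N : Matrix (Fin n) (Fin n) A}

lemma XP.sup' (h : XP P S M N) (i j : Fin n) (hj : j ∈ S) : N i j = 0 := by
  rw [h.symN]; exact h.sup j i hj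

lemma XP.nm_mulVec (h : XP P S M N) {b : Fin n → A} (hb : ∀ k ∈ S, b k = 0) :
    N *ᵥ (M *ᵥ b) = b := by
  rw [mulVec_mulVec]
  funext i
  have h1 : ((N * M) *ᵥ b) i = ((1 : Matrix (Fin n) (Fin n) A) *ᵥ b) i := by
    simp only [mulVec, dotProduct]
    refine Finset.sum_congr rfl fun k _ => ?_
    by_cases hk : k ∈ S
    · rw [hb k hk, mul_zero, mul_zero]
    · rw [h.inv i k hk]
  rw [h1, one_mulVec]

lemma XP.n_mulVec_congr (h : XP P S M N) {b c : Fin n → A} (hbc : ∀ k, k ∉ S → b k = c k) :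
    N *ᵥ b = N *ᵥ c := by
  funext i
  simp only [mulVec, dotProduct]
  refine Finset.sum_congr rfl fun k _ => ?_
  by_cases hk : k ∈ S
  · rw [h.sup' i k hk, zero_mul, zero_mul]
  · rw [hbc k hk]

lemma XP.n_mulVec_zero (h : XP P S M N) (b : Fin n → A) {k : Fin n} (hk : k ∈ S) :
    (N *ᵥ b) k = 0 := by
  simp only [mulVec, dotProduct]
  exact Finset.sum_eq_zero fun j _ => by rw [h.sup k j hk, zero_mul]

lemma XP.mn_mulVec (h : XP P S M N) (b : Fin n → A) (i : Fin n) :
    (M *ᵥ (N *ᵥ b)) i = ∑ j, (N * M) j i * b j := by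
  rw [mulVec_mulVec]
  simp only [mulVec, dotProduct]
  exact Finset.sum_congr rfl fun j _ => by rw [mul_symm h.symM h.symN]

lemma XP.mn_mulVec_out (h : XP P S M N) (b : Fin n → A) {i : Fin n} (hi : i ∉ S) :
    (M *ᵥ (N *ᵥ b)) i = b i := by
  rw [h.mn_mulVec]
  have h1 : ∀ j, (N * M) j i * b j = (1 : Matrix (Fin n) (Fin n) A) j i * b j := fun j => by
    rw [h.inv j i hi]
  rw [Finset.sum_congr rfl fun j _ => h1 j]
  simp [Matrix.one_apply]

/-- the entries of `M N b` above those of `b` -/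
lemma XP.mn_mulVec_above (h : XP P S M N) {a : Fin n} {b : Fin n → A} (hb : ∀ i, a < i → b i = 0)
    {i : Fin n} (hi : a < i) : (M *ᵥ (N *ᵥ b)) i = 0 := by
  rw [h.mn_mulVec]
  refine Finset.sum_eq_zero fun j _ => ?_
  rcases lt_or_ge j i with hji | hji
  · rw [h.low j i hji, zero_mul]
  · rw [hb j (lt_of_lt_of_le hi hji), mul_zero]

/-- the partial inverse is unique -/
lemma XP.unique (h : XP P S M N) {P' : Fin n → Fin n → Prop} {N' : Matrix (Fin n) (Fin n) A}
    (h' : XP P' S M N') : N = N' := by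
  ext i j
  have h1 : (fun k => N' k j) = N *ᵥ (M *ᵥ (fun k => N' k j)) :=
    (h.nm_mulVec fun k hk => h'.sup k j hk).symm
  have h2 : (M *ᵥ (fun k => N' k j)) = fun k => (M * N') k j := by
    funext k
    rw [mul_apply]
    rfl
  have h3 : N *ᵥ (fun k => (M * N') k j) = N *ᵥ (fun k => (1 : Matrix (Fin n) (Fin n) A) k j) := by
    refine h.n_mulVec_congr fun k hk => ?_
    rw [mul_symm h'.symM h'.symN, h'.inv j k hk, Matrix.one_apply, Matrix.one_apply]
    simp only [eq_comm]
  have h4 : (N *ᵥ (fun k => (1 : Matrix (Fin n) (Fin n) A) k j)) i = N i j := by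
    simp only [mulVec, dotProduct, Matrix.one_apply]
    simp
  have h5 := congrFun h1 i
  rw [h2, h3, h4] at h5
  exact h5.symm

end

/-! ### Bordered matrices -/

section bd

variable {A : Type} [CommRing A] {n : ℕ}

/-- a matrix with a first row and a first column -/
def bk (α : A) (β γ : Fin n → A) (D : Matrix (Fin n) (Fin n) A) :
    Matrix (Fin (n + 1)) (Fin (n + 1)) A :=
  Matrix.of fun i j => Fin.cases (Fin.cases α β j) (fun i' => Fin.cases (γ i') (fun j' => D i' j') j) i

@[simp] lemma bk_zero_zero (α : A) (β γ : Fin n → A) (D : Matrix (Fin n) (Fin n) A) :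
    bk α β γ D 0 0 = α := rfl
@[simp] lemma bk_zero_succ (α : A) (β γ : Fin n → A) (D : Matrix (Fin n) (Fin n) A) (j : Fin n) :
    bk α β γ D 0 j.succ = β j := rfl
@[simp] lemma bk_succ_zero (α : A) (β γ : Fin n → A) (D : Matrix (Fin n) (Fin n) A) (i : Fin n) :
    bk α β γ D i.succ 0 = γ i := rfl
@[simp] lemma bk_succ_succ (α : A) (β γ : Fin n → A) (D : Matrix (Fin n) (Fin n) A)
    (i j : Fin n) : bk α β γ D i.succ j.succ = D i j := rfl

lemma bk_mul (α α' : A) (β γ β' γ' : Fin n → A) (D D' : Matrix (Fin n) (Fin n) A) :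
    bk α β γ D * bk α' β' γ' D' =
      bk (α * α' + β ⬝ᵥ γ') (α • β' + β ᵥ* D') (α' • γ + D *ᵥ γ') (vecMulVec γ β' + D * D') := by
  ext i j
  rw [mul_apply, Fin.sum_univ_succ]
  refine Fin.cases ?_ (fun i => ?_) i <;> refine Fin.cases ?_ (fun j => ?_) j
  · simp [dotProduct]
  · simp [vecMul, dotProduct]
  · simp [mulVec, dotProduct, mul_comm]
  · simp [vecMulVec_apply, mul_apply]

lemma bk_inj {α α' : A} {β γ β' γ' : Fin n → A} {D D' : Matrix (Fin n) (Fin n) A}
    (h : bk α β γ D = bk α' β' γ' D') : α = α' ∧ β = β' ∧ γ = γ' ∧ D = D' := by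
  refine ⟨?_, ?_, ?_, ?_⟩
  · exact congrFun (congrFun h 0) 0
  · funext j; exact congrFun (congrFun h 0) j.succ
  · funext i; exact congrFun (congrFun h i.succ) 0
  · ext i j; exact congrFun (congrFun h i.succ) j.succ

/-- the pattern with a new first vertex joined to `0, ..., a` -/
def bP (a : Fin n) (P : Fin n → Fin n → Prop) (i j : Fin (n + 1)) : Prop :=
  Fin.cases (Fin.cases True (fun j' => j' ≤ a) j)
    (fun i' => Fin.cases (i' ≤ a) (fun j' => P i' j') j) i

@[simp] lemma bP_zero_zero (a : Fin n) (P : Fin n → Fin n → Prop) : bP a P 0 0 = True := rfl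
@[simp] lemma bP_zero_succ (a : Fin n) (P : Fin n → Fin n → Prop) (j : Fin n) :
    bP a P 0 j.succ = (j ≤ a) := rfl
@[simp] lemma bP_succ_zero (a : Fin n) (P : Fin n → Fin n → Prop) (i : Fin n) :
    bP a P i.succ 0 = (i ≤ a) := rfl
@[simp] lemma bP_succ_succ (a : Fin n) (P : Fin n → Fin n → Prop) (i j : Fin n) :
    bP a P i.succ j.succ = P i j := rfl

/-- the conditions on a bordered matrix -/
structure TP (a : Fin n) (P : Fin n → Fin n → Prop) (S : Set (Fin n)) (t : A) (v : Fin n → A)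
    (M : Matrix (Fin n) (Fin n) A) (ν : A) (z : Fin n → A) (N : Matrix (Fin n) (Fin n) A) :
    Prop where
  symM : ∀ i j, M i j = M j i
  symN : ∀ i j, N i j = N j i
  pat : ∀ i j, ¬ P i j → M i j = 0
  va : ∀ i, a < i → v i = 0
  supz : ∀ i ∈ S, z i = 0
  sup : ∀ i j, i ∈ S → N i j = 0
  h00 : ν * t + z ⬝ᵥ v = 1
  hi0 : t • z + N *ᵥ v = 0
  h0j : ν • v + M *ᵥ z = 0
  inv : ∀ i j, j ∉ S → (vecMulVec z v + N * M) i j = (1 : Matrix (Fin n) (Fin n) A) i j
  low : ∀ i j, i < j → (vecMulVec z v + N * M) i j = 0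
  vR : (z ⬝ᵥ v) • v + M *ᵥ (N *ᵥ v) = v
  MR : vecMulVec (M *ᵥ z) v + M * (N * M) = M

variable {a : Fin n} {P : Fin n → Fin n → Prop} {S : Set (Fin n)} {t ν : A} {v z : Fin n → A}
  {M N : Matrix (Fin n) (Fin n) A}

lemma one_bk : (1 : Matrix (Fin (n + 1)) (Fin (n + 1)) A) = bk 1 0 0 1 := by
  ext i j
  refine Fin.cases ?_ (fun i => ?_) i <;> refine Fin.cases ?_ (fun j => ?_) j
  · simp
  · rw [Matrix.one_apply_ne (Fin.succ_ne_zero j).symm]; rfl
  · rw [Matrix.one_apply_ne (Fin.succ_ne_zero i)]; rfl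
  · simp only [Matrix.one_apply, bk_succ_succ, Fin.succ_inj]

lemma TP.of_xp (h : XP (bP a P) (Fin.succ '' S) (bk t v v M) (bk ν z z N)) :
    TP a P S t v M ν z N := by
  have hM : ∀ i j, M i j = M j i := fun i j => h.symM i.succ j.succ
  have hN : ∀ i j, N i j = N j i := fun i j => h.symN i.succ j.succ
  have h0 : (0 : Fin (n + 1)) ∉ Fin.succ '' S := by
    rintro ⟨j, _, hj⟩
    exact Fin.succ_ne_zero j hj
  have hs : ∀ j : Fin n, j.succ ∈ Fin.succ '' S ↔ j ∈ S :=
    fun j => (Fin.succ_injective n).mem_set_image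
  have hinv := h.inv
  have hlow := h.low
  have hker := h.ker
  rw [bk_mul] at hinv hlow hker
  have h00 : ν * t + z ⬝ᵥ v = 1 := by
    have := hinv 0 0 h0
    simpa using this
  have hi0 : t • z + N *ᵥ v = 0 := by
    funext i
    have := hinv i.succ 0 h0
    rw [Matrix.one_apply_ne (Fin.succ_ne_zero i)] at this
    exact this
  have h0j : ν • v + z ᵥ* M = 0 := by
    funext j
    exact hlow 0 j.succ (Fin.succ_pos j)
  rw [h00, hi0, h0j, bk_mul] at hker
  obtain ⟨_, h1, _, h2⟩ := bk_inj hker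
  refine ⟨hM, hN, fun i j => h.pat i.succ j.succ, fun i hi => ?_, fun i hi => ?_, fun i j hi => ?_,
    h00, hi0, ?_, fun i j hj => ?_, fun i j hij => ?_, ?_, ?_⟩
  · exact h.pat i.succ 0 (by simpa using hi)
  · exact h.sup i.succ 0 ((hs i).mpr hi)
  · exact h.sup i.succ j.succ ((hs i).mpr hi)
  · rw [← h0j, vecMul_symm hM]
  · have := hinv i.succ j.succ (fun hh => hj ((hs j).mp hh))
    rw [one_bk] at this
    exact this
  · exact hlow i.succ j.succ (Fin.succ_lt_succ_iff.mpr hij)
  · rwa [smul_zero, zero_add, vecMul_add, vecMul_vv, vecMul_nm hM hN, dotProduct_comm v z] at h1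
  · rwa [vecMulVec_zero, zero_add, mul_add, mul_vecMulVec] at h2

lemma TP.to_xp (h : TP a P S t v M ν z N) :
    XP (bP a P) (Fin.succ '' S) (bk t v v M) (bk ν z z N) := by
  have h0 : (0 : Fin (n + 1)) ∉ Fin.succ '' S := by
    rintro ⟨j, _, hj⟩
    exact Fin.succ_ne_zero j hj
  have hs : ∀ j : Fin n, j.succ ∈ Fin.succ '' S ↔ j ∈ S :=
    fun j => (Fin.succ_injective n).mem_set_image
  have hmul : bk ν z z N * bk t v v M = bk 1 0 0 (vecMulVec z v + N * M) := by
    rw [bk_mul, h.h00, h.hi0, vecMul_symm h.symM, h.h0j]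
  refine ⟨?_, ?_, ?_, ?_, ?_, ?_, ?_⟩
  · intro i j
    refine Fin.cases ?_ (fun i => ?_) i <;> refine Fin.cases ?_ (fun j => ?_) j
    · rfl
    · rfl
    · rfl
    · exact h.symM i j
  · intro i j
    refine Fin.cases ?_ (fun i => ?_) i <;> refine Fin.cases ?_ (fun j => ?_) j
    · rfl
    · rfl
    · rfl
    · exact h.symN i j
  · intro i j
    refine Fin.cases ?_ (fun i => ?_) i <;> refine Fin.cases ?_ (fun j => ?_) j
    · intro hh; exact absurd trivial hh
    · intro hh; exact h.va j (not_le.mp hh)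
    · intro hh; exact h.va i (not_le.mp hh)
    · exact h.pat i j
  · intro i j
    refine Fin.cases ?_ (fun i => ?_) i
    · intro hh; exact absurd hh h0
    · intro hh
      have hi := (hs i).mp hh
      refine Fin.cases ?_ (fun j => ?_) j
      · exact h.supz i hi
      · exact h.sup i j hi
  · intro i j
    rw [hmul, one_bk]
    refine Fin.cases ?_ (fun i => ?_) i <;> refine Fin.cases ?_ (fun j => ?_) j
    · intro _; rfl
    · intro _; rfl
    · intro _; rfl
    · intro hj; exact h.inv i j (fun hh => hj ((hs j).mpr hh))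
  · rw [hmul, bk_mul]
    have e1 : (t • (0 : Fin n → A) + v ᵥ* (vecMulVec z v + N * M)) = v := by
      rw [smul_zero, zero_add, vecMul_add, vecMul_vv, vecMul_nm h.symM h.symN,
        dotProduct_comm v z]
      exact h.vR
    have e2 : vecMulVec v (0 : Fin n → A) + M * (vecMulVec z v + N * M) = M := by
      rw [vecMulVec_zero, zero_add, mul_add, mul_vecMulVec]
      exact h.MR
    rw [e1, e2]
    simp
  · intro i j
    rw [hmul]
    refine Fin.cases ?_ (fun i => ?_) i <;> refine Fin.cases ?_ (fun j => ?_) j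
    · intro hh; exact absurd hh (lt_irrefl _)
    · intro _; rfl
    · intro hh; exact absurd hh (Fin.not_lt_zero _)
    · intro hh; exact h.low i j (Fin.succ_lt_succ_iff.mp hh)

end bd

end Pool.Agent.KB
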