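import Pool.Agent.KB.Alg

/-!
# The pieces of the strata of a bordered matrix
-/

set_option autoImplicit false
set_option linter.unusedSectionVars false

open Matrix

namespace Pool.Agent.KB

variable {A : Type} [CommRing A] {n : ℕ} {a : Fin n} {P : Fin n → Fin n → Prop} {S : Set (Fin n)}
  {t ν : A} {v z : Fin n → A} {M N : Matrix (Fin n) (Fin n) A}

/-! ### The piece where the corner of the inverse is a unit -/

/-- the partial inverse of the block -/
noncomputable def N1 (ν : A) (z : Fin n → A) (N : Matrix (Fin n) (Fin n) A) :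
    Matrix (Fin n) (Fin n) A := N - Ring.inverse ν • vecMulVec z z

lemma TP.zM (h : TP a P S t v M ν z N) : z ᵥ* M = - (ν • v) := by
  rw [vecMul_symm h.symM]
  exact eq_neg_of_add_eq_zero_right h.h0j

lemma TP.n1_mul (h : TP a P S t v M ν z N) (hν : IsUnit ν) :
    N1 ν z N * M = vecMulVec z v + N * M := by
  unfold N1
  rw [sub_mul, smul_mul_assoc, vecMulVec_mul, h.zM, vecMulVec_neg, vecMulVec_smul, smul_neg,
    smul_smul, Ring.inverse_mul_cancel ν hν, one_smul, sub_neg_eq_add, add_comm]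

lemma TP.i1 (h : TP a P S t v M ν z N) (hν : IsUnit ν) : XP P S M (N1 ν z N) := by
  refine ⟨h.symM, fun i j => ?_, h.pat, fun i j hi => ?_, fun i j hj => ?_, ?_, fun i j hij => ?_⟩
  · unfold N1
    simp only [Matrix.sub_apply, Matrix.smul_apply, vecMulVec_apply, h.symN i j, mul_comm]
  · unfold N1
    simp only [Matrix.sub_apply, Matrix.smul_apply, vecMulVec_apply, h.supz i hi, h.sup i j hi, zero_mul,
      smul_zero, sub_zero]
  · rw [h.n1_mul hν]; exact h.inv i j hj
  · have h1 : M * (N1 ν z N * M) - (vecMulVec (M *ᵥ z) v + M * (N * M)) = 0 := by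
      rw [h.n1_mul hν, mul_add, mul_vecMulVec, sub_self]
    rw [h.MR] at h1
    exact sub_eq_zero.mp h1
  · rw [h.n1_mul hν]; exact h.low i j hij

open scoped Classical in
/-- the free parameters of the piece -/
noncomputable def y1 (S : Set (Fin n)) (v : Fin n → A) : Fin n → A := fun i => if i ∈ S then 0 else v i

lemma TP.u1 (h : TP a P S t v M ν z N) (hν : IsUnit ν) :
    N1 ν z N *ᵥ y1 S v = - (Ring.inverse ν • z) := by
  rw [(h.i1 hν).n_mulVec_congr (b := y1 S v) (c := v) (fun k hk => if_neg hk)]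
  unfold N1
  have h1 : N *ᵥ v = - (t • z) := eq_neg_of_add_eq_zero_right h.hi0
  rw [sub_mulVec, smul_mulVec, vv_mulVec, h1]
  have h2 : z ⬝ᵥ v = 1 - ν * t := eq_sub_of_add_eq' h.h00
  rw [h2]
  funext i
  simp only [Pi.sub_apply, Pi.neg_apply, Pi.smul_apply, smul_eq_mul]
  linear_combination (t * z i) * Ring.inverse_mul_cancel ν hν

lemma TP.v1 (h : TP a P S t v M ν z N) (hν : IsUnit ν) :
    M *ᵥ (N1 ν z N *ᵥ y1 S v) = v := by
  rw [h.u1 hν, mulVec_neg, mulVec_smul, eq_neg_of_add_eq_zero_right h.h0j]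
  funext i
  simp only [Pi.neg_apply, Pi.smul_apply, smul_eq_mul]
  linear_combination (v i) * Ring.inverse_mul_cancel ν hν

lemma TP.z1 (h : TP a P S t v M ν z N) (hν : IsUnit ν) :
    - (ν • (N1 ν z N *ᵥ y1 S v)) = z := by
  rw [h.u1 hν]
  funext i
  simp only [Pi.neg_apply, Pi.smul_apply, smul_eq_mul]
  linear_combination (z i) * Ring.inverse_mul_cancel ν hν

lemma TP.n1 (h : TP a P S t v M ν z N) (hν : IsUnit ν) :
    N1 ν z N + ν • vecMulVec (N1 ν z N *ᵥ y1 S v) (N1 ν z N *ᵥ y1 S v) = N := by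
  rw [h.u1 hν]
  unfold N1
  ext i j
  simp only [Matrix.add_apply, Matrix.sub_apply, Matrix.smul_apply, vecMulVec_apply, Pi.neg_apply, Pi.smul_apply,
    smul_eq_mul]
  linear_combination (Ring.inverse ν * z i * z j) * Ring.inverse_mul_cancel ν hν

lemma TP.t1 (h : TP a P S t v M ν z N) (hν : IsUnit ν) :
    Ring.inverse ν + y1 S v ⬝ᵥ (N1 ν z N *ᵥ y1 S v) = t := by
  rw [h.u1 hν]
  have h1 : y1 S v ⬝ᵥ z = z ⬝ᵥ v := by
    rw [dotProduct_comm]
    simp only [dotProduct, y1]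
    refine Finset.sum_congr rfl fun i _ => ?_
    split_ifs with hi
    · rw [h.supz i hi, zero_mul, zero_mul]
    · rfl
  rw [dotProduct_neg, dotProduct_smul, h1, eq_sub_of_add_eq' h.h00, smul_eq_mul]
  linear_combination t * Ring.inverse_mul_cancel ν hν

/-- from the parameters to the bordered matrix -/
theorem XP.i1 {N₁ : Matrix (Fin n) (Fin n) A} {y : Fin n → A} (h : XP P S M N₁)
    (hν : IsUnit ν) (ha : ∀ i, a < i → y i = 0) :
    TP a P S (Ring.inverse ν + y ⬝ᵥ (N₁ *ᵥ y)) (M *ᵥ (N₁ *ᵥ y)) M ν (- (ν • (N₁ *ᵥ y)))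
      (N₁ + ν • vecMulVec (N₁ *ᵥ y) (N₁ *ᵥ y)) := by
  set u := N₁ *ᵥ y with hu
  have huS : ∀ i ∈ S, u i = 0 := fun i hi => h.n_mulVec_zero y hi
  have hNv : N₁ *ᵥ (M *ᵥ u) = u := h.nm_mulVec huS
  have hvu : u ⬝ᵥ (M *ᵥ u) = y ⬝ᵥ u := by
    rw [dotProduct_comm]
    simp only [dotProduct]
    refine Finset.sum_congr rfl fun i _ => ?_
    by_cases hi : i ∈ S
    · rw [huS i hi, mul_zero, mul_zero]
    · rw [hu, h.mn_mulVec_out y hi]
  have huM : u ᵥ* M = M *ᵥ u := vecMul_symm h.symM u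
  have hNM : (N₁ + ν • vecMulVec u u) * M = N₁ * M + ν • vecMulVec u (M *ᵥ u) := by
    rw [add_mul, smul_mul_assoc, vecMulVec_mul, huM]
  have hR : vecMulVec (-(ν • u)) (M *ᵥ u) + (N₁ + ν • vecMulVec u u) * M = N₁ * M := by
    rw [hNM]
    ext i j
    simp only [Matrix.add_apply, Matrix.smul_apply, vecMulVec_apply, Pi.neg_apply, Pi.smul_apply, smul_eq_mul]
    ring
  have hNv' : (N₁ + ν • vecMulVec u u) *ᵥ (M *ᵥ u) = u + (ν * (y ⬝ᵥ u)) • u := by
    rw [add_mulVec, smul_mulVec, vv_mulVec, hNv, hvu, smul_smul]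
  refine ⟨h.symM, fun i j => ?_, h.pat, fun i hi => ?_, fun i hi => ?_, fun i j hi => ?_,
    ?_, ?_, ?_, fun i j hj => ?_, fun i j hij => ?_, ?_, ?_⟩
  · simp only [Matrix.add_apply, Matrix.smul_apply, vecMulVec_apply, h.symN i j, mul_comm]
  · exact h.mn_mulVec_above ha hi
  · simp only [Pi.neg_apply, Pi.smul_apply, huS i hi, smul_zero, neg_zero]
  · simp only [Matrix.add_apply, Matrix.smul_apply, vecMulVec_apply, huS i hi, h.sup i j hi, zero_mul,
      smul_zero, add_zero]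
  · rw [neg_dotProduct, smul_dotProduct, hvu, smul_eq_mul]
    linear_combination Ring.mul_inverse_cancel ν hν
  · rw [hNv']
    funext i
    simp only [Pi.add_apply, Pi.neg_apply, Pi.smul_apply, smul_eq_mul, Pi.zero_apply]
    linear_combination (- u i) * Ring.mul_inverse_cancel ν hν
  · rw [mulVec_neg, mulVec_smul, add_neg_cancel]
  · rw [hR]; exact h.inv i j hj
  · rw [hR]; exact h.low i j hij
  · rw [hNv', neg_dotProduct, smul_dotProduct, hvu, mulVec_add, mulVec_smul, smul_eq_mul]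
    funext i
    simp only [Pi.add_apply, Pi.smul_apply, smul_eq_mul]
    ring
  · have : vecMulVec (M *ᵥ -(ν • u)) (M *ᵥ u) + M * ((N₁ + ν • vecMulVec u u) * M) =
        M * (vecMulVec (-(ν • u)) (M *ᵥ u) + (N₁ + ν • vecMulVec u u) * M) := by
      rw [mul_add, mul_vecMulVec]
    rw [this, hR]
    exact h.ker

lemma XP.n1_back {N₁ : Matrix (Fin n) (Fin n) A} {u : Fin n → A} (hν : IsUnit ν) :
    N1 ν (- (ν • u)) (N₁ + ν • vecMulVec u u) = N₁ := by
  unfold N1
  ext i j
  simp only [Matrix.add_apply, Matrix.sub_apply, Matrix.smul_apply, vecMulVec_apply, Pi.neg_apply, Pi.smul_apply,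
    smul_eq_mul]
  linear_combination (- ν * u i * u j) * Ring.inverse_mul_cancel ν hν

lemma XP.y1_back {N₁ : Matrix (Fin n) (Fin n) A} {y : Fin n → A} (h : XP P S M N₁)
    (hS : ∀ i ∈ S, y i = 0) : y1 S (M *ᵥ (N₁ *ᵥ y)) = y := by
  funext i
  unfold y1
  split_ifs with hi
  · exact (hS i hi).symm
  · exact h.mn_mulVec_out y hi

end Pool.Agent.KB
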