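import Pool.Agent.KB.Alg2

/-!
# The pieces of the strata of a bordered matrix, the second kind
-/

set_option autoImplicit false
set_option linter.unusedSectionVars false

open Matrix

namespace Pool.Agent.KB

variable {A : Type} [CommRing A] {n : ℕ} {a s : Fin n} {P : Fin n → Fin n → Prop}
  {S : Set (Fin n)} {t : A} {v z : Fin n → A} {M N : Matrix (Fin n) (Fin n) A}

/-- the partial inverse for the stratum `insert s S` -/
noncomputable def N2 (s : Fin n) (z : Fin n → A) (N : Matrix (Fin n) (Fin n) A) :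
    Matrix (Fin n) (Fin n) A :=
  N - Ring.inverse (z s) • (vecMulVec (fun i => N i s) z + vecMulVec z (fun i => N i s)) +
    (Ring.inverse (z s) * Ring.inverse (z s) * N s s) • vecMulVec z z

/-- the matrix of the conditions -/
def RR (v z : Fin n → A) (M N : Matrix (Fin n) (Fin n) A) : Matrix (Fin n) (Fin n) A :=
  vecMulVec z v + N * M

lemma TP.z0 (h : TP a P S t v M 0 z N) : M *ᵥ z = 0 := by
  have := h.h0j
  rwa [zero_smul, zero_add] at this

lemma TP.zv (h : TP a P S t v M 0 z N) : z ⬝ᵥ v = 1 := by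
  have := h.h00
  rwa [zero_mul, zero_add] at this

lemma TP.zM0 (h : TP a P S t v M 0 z N) : z ᵥ* M = 0 := by
  rw [vecMul_symm h.symM, h.z0]

lemma TP.n2_mul (h : TP a P S t v M 0 z N) (hz : IsUnit (z s)) :
    N2 s z N * M = RR v z M N - Ring.inverse (z s) • vecMulVec z (fun j => RR v z M N s j) := by
  unfold N2
  rw [add_mul, sub_mul, smul_mul_assoc, smul_mul_assoc, add_mul, vecMulVec_mul, vecMulVec_mul,
    vecMulVec_mul, h.zM0, vecMulVec_zero, vecMulVec_zero, smul_zero, add_zero, zero_add]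
  ext i j
  have h1 : ((fun i => N i s) ᵥ* M) j = (N * M) s j := by
    rw [mul_apply]
    simp only [vecMul, dotProduct]
    exact Finset.sum_congr rfl fun k _ => by rw [h.symN k s]
  simp only [RR, Matrix.sub_apply, Matrix.add_apply, Matrix.smul_apply, vecMulVec_apply,
    smul_eq_mul, h1]
  linear_combination (z i * v j) * Ring.inverse_mul_cancel (z s) hz

lemma TP.rss (h : TP a P S t v M 0 z N) {i j : Fin n} (hj : j ∉ S) :
    RR v z M N i j = (1 : Matrix (Fin n) (Fin n) A) i j := h.inv i j hj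

theorem TP.i2 (h : TP a P S t v M 0 z N) (hz : IsUnit (z s)) (hs : s ∉ S)
    (hlow : ∀ i, i < s → z i = 0) : XP P (insert s S) M (N2 s z N) := by
  refine ⟨h.symM, fun i j => ?_, h.pat, fun i j hi => ?_, fun i j hj => ?_, ?_, fun i j hij => ?_⟩
  · unfold N2
    simp only [Matrix.sub_apply, Matrix.add_apply, Matrix.smul_apply, vecMulVec_apply, smul_eq_mul,
      h.symN i j]
    ring
  · unfold N2
    simp only [Matrix.sub_apply, Matrix.add_apply, Matrix.smul_apply, vecMulVec_apply, smul_eq_mul]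
    rcases hi with rfl | hi
    · rw [h.symN j i]
      linear_combination (-(N i j) - Ring.inverse (z i) * N i i * z j) *
        Ring.inverse_mul_cancel (z i) hz + (Ring.inverse (z i) * N i i * z j) *
        Ring.inverse_mul_cancel (z i) hz + (Ring.inverse (z i) * N i i * z j) *
        Ring.inverse_mul_cancel (z i) hz
    · rw [h.supz i hi, h.sup i j hi, h.sup i s hi]
      ring
  · rw [h.n2_mul hz]
    have hj1 : j ∉ S := fun hh => hj (Set.mem_insert_of_mem _ hh)
    have hj2 : s ≠ j := fun hh => hj (hh ▸ Set.mem_insert _ _)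
    simp only [Matrix.sub_apply, Matrix.smul_apply, vecMulVec_apply, smul_eq_mul]
    rw [h.rss hj1, h.rss hj1, Matrix.one_apply_ne hj2, mul_zero, mul_zero, sub_zero]
  · rw [h.n2_mul hz, mul_sub, mul_smul_comm, mul_vecMulVec, h.z0]
    have h1 : M * RR v z M N = M := by
      unfold RR
      rw [mul_add, mul_vecMulVec]
      exact h.MR
    rw [h1]
    ext i j
    simp
  · rw [h.n2_mul hz]
    simp only [Matrix.sub_apply, Matrix.smul_apply, vecMulVec_apply, smul_eq_mul]
    have h1 : RR v z M N i j = 0 := h.low i j hij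
    rw [h1]
    rcases lt_or_ge i s with his | his
    · rw [hlow i his]; ring
    · have h2 : RR v z M N s j = 0 := h.low s j (lt_of_le_of_lt his hij)
      rw [h2]; ring

open scoped Classical in
/-- the free parameters of the piece -/
noncomputable def y2 (s : Fin n) (S : Set (Fin n)) (v z : Fin n → A)
    (M N : Matrix (Fin n) (Fin n) A) : Fin n → A :=
  fun i => if i ∈ insert s S then Ring.inverse (z s) * RR v z M N s i else v i

lemma TP.y2_s (h : TP a P S t v M 0 z N) (hs : s ∉ S) : y2 s S v z M N s = Ring.inverse (z s) := by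
  unfold y2
  rw [if_pos (Set.mem_insert _ _), h.rss hs, Matrix.one_apply_eq, mul_one]

lemma TP.y2_above (h : TP a P S t v M 0 z N) (hsa : s ≤ a) {i : Fin n} (hi : a < i) :
    y2 s S v z M N i = 0 := by
  unfold y2
  split_ifs
  · have : RR v z M N s i = 0 := h.low s i (lt_of_le_of_lt hsa hi)
    rw [this, mul_zero]
  · exact h.va i hi

lemma TP.y2_S (h : TP a P S t v M 0 z N) {i : Fin n} (hi : i ∈ S) (his : s < i) :
    y2 s S v z M N i = 0 := by
  unfold y2
  rw [if_pos (Set.mem_insert_of_mem _ hi)]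
  have : RR v z M N s i = 0 := h.low s i his
  rw [this, mul_zero]

open scoped Classical in
/-- the border vector -/
noncomputable def v2 (s : Fin n) (S : Set (Fin n)) (y : Fin n → A)
    (M N : Matrix (Fin n) (Fin n) A) : Fin n → A :=
  (fun i => if i ∈ insert s S then y i else 0) + M *ᵥ (N *ᵥ y)

lemma TP.v2_back (h : TP a P S t v M 0 z N) (hz : IsUnit (z s)) (hs : s ∉ S)
    (hlow : ∀ i, i < s → z i = 0) :
    v2 s S (y2 s S v z M N) M (N2 s z N) = v := by
  have hX := h.i2 hz hs hlow
  have h1 : N2 s z N *ᵥ y2 s S v z M N = N2 s z N *ᵥ v :=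
    hX.n_mulVec_congr fun k hk => if_neg hk
  have h2 : M *ᵥ (N2 s z N *ᵥ v) = v - Ring.inverse (z s) • (fun j => RR v z M N s j) := by
    have h3 : M *ᵥ (N2 s z N *ᵥ v) = v ᵥ* (N2 s z N * M) := (vecMul_nm hX.symM hX.symN v).symm
    rw [h3, h.n2_mul hz, vecMul_sub, vecMul_smul, vecMul_vv, dotProduct_comm, h.zv, one_smul]
    congr 1
    unfold RR
    rw [vecMul_add, vecMul_vv, vecMul_nm h.symM h.symN, dotProduct_comm]
    exact h.vR
  unfold v2
  rw [h1, h2]
  funext i
  simp only [Pi.add_apply, Pi.sub_apply, Pi.smul_apply, smul_eq_mul]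
  split_ifs with hi
  · unfold y2
    rw [if_pos hi]; ring
  · have hi1 : i ∉ S := fun hh => hi (Set.mem_insert_of_mem _ hh)
    have hi2 : s ≠ i := fun hh => hi (hh ▸ Set.mem_insert _ _)
    rw [h.rss hi1, Matrix.one_apply_ne hi2]; ring

/-- the vector of the inverse -/
noncomputable def z2 (s : Fin n) (y : Fin n → A) (M N : Matrix (Fin n) (Fin n) A) : Fin n → A :=
  fun i => Ring.inverse (y s) * ((1 : Matrix (Fin n) (Fin n) A) i s - (N * M) i s)

lemma TP.z2_back (h : TP a P S t v M 0 z N) (hz : IsUnit (z s)) (hs : s ∉ S) :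
    z2 s (y2 s S v z M N) M (N2 s z N) = z := by
  funext i
  unfold z2
  rw [h.y2_s hs, h.n2_mul hz]
  simp only [Matrix.sub_apply, Matrix.smul_apply, vecMulVec_apply, smul_eq_mul]
  rw [h.rss hs, h.rss hs, Matrix.one_apply_eq]
  have h1 : Ring.inverse (Ring.inverse (z s)) * Ring.inverse (z s) = 1 :=
    Ring.inverse_mul_cancel _ hz.ringInverse
  linear_combination (z i) * h1

/-- the block of the inverse -/
noncomputable def M2 (s : Fin n) (t : A) (y : Fin n → A) (M N : Matrix (Fin n) (Fin n) A) :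
    Matrix (Fin n) (Fin n) A :=
  N - vecMulVec (N *ᵥ y) (z2 s y M N) - vecMulVec (z2 s y M N) (N *ᵥ y) +
    (y ⬝ᵥ (N *ᵥ y) - t) • vecMulVec (z2 s y M N) (z2 s y M N)

section

variable {y : Fin n → A} (h : XP P (insert s S) M N) (hy : IsUnit (y s))

include h

lemma XP.z2_in (hi : ∀ i ∈ S, i ≠ s) : ∀ i ∈ S, z2 s y M N i = 0 := by
  intro i hiS
  unfold z2
  have h1 : (N * M) i s = 0 := by
    rw [mul_apply]
    exact Finset.sum_eq_zero fun k _ => by rw [h.sup i k (Set.mem_insert_of_mem _ hiS), zero_mul]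
  rw [h1, Matrix.one_apply_ne (hi i hiS), sub_zero, mul_zero]

lemma XP.z2_s : z2 s y M N s = Ring.inverse (y s) := by
  unfold z2
  have h1 : (N * M) s s = 0 := by
    rw [mul_apply]
    exact Finset.sum_eq_zero fun k _ => by rw [h.sup s k (Set.mem_insert _ _), zero_mul]
  rw [h1, Matrix.one_apply_eq, sub_zero, mul_one]

lemma XP.z2_low {i : Fin n} (hi : i < s) : z2 s y M N i = 0 := by
  unfold z2
  rw [h.low i s hi, Matrix.one_apply_ne hi.ne, sub_zero, mul_zero]

lemma XP.mz2 : M *ᵥ z2 s y M N = 0 := by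
  have h1 : z2 s y M N = Ring.inverse (y s) •
      ((fun i => (1 : Matrix (Fin n) (Fin n) A) i s) - (fun i => (N * M) i s)) := by
    funext i; rfl
  rw [h1, mulVec_smul, mulVec_sub]
  have h2 : (M *ᵥ fun i => (1 : Matrix (Fin n) (Fin n) A) i s) = fun i => (M * (1 : Matrix (Fin n) (Fin n) A)) i s := by
    funext i; rw [mul_apply]; rfl
  have h3 : (M *ᵥ fun i => (N * M) i s) = fun i => (M * (N * M)) i s := by
    funext i; rw [mul_apply]; rfl
  rw [h2, h3, h.ker, mul_one, sub_self, smul_zero]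

lemma XP.v2_out {i : Fin n} (hi : i ∉ insert s S) : v2 s S y M N i = y i := by
  unfold v2
  rw [Pi.add_apply, if_neg hi, h.mn_mulVec_out y hi, zero_add]

lemma XP.n_v2 : N *ᵥ v2 s S y M N = N *ᵥ y := by
  have h1 := h.n_mulVec_congr (b := v2 s S y M N) (c := y) fun k hk => h.v2_out hk
  exact h1

lemma XP.u_v2 : (N *ᵥ y) ⬝ᵥ v2 s S y M N = y ⬝ᵥ (N *ᵥ y) := by
  rw [mulVec_symm h.symN, h.n_v2]

include hy in
lemma XP.z2_v2 (hs : s ∉ S) : z2 s y M N ⬝ᵥ v2 s S y M N = 1 := by
  classical
  unfold v2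
  rw [dotProduct_add, ← mulVec_symm h.symM, h.mz2, zero_dotProduct, add_zero]
  simp only [dotProduct]
  rw [Finset.sum_eq_single s]
  · rw [if_pos (Set.mem_insert _ _), h.z2_s, Ring.inverse_mul_cancel _ hy]
  · intro i _ his
    split_ifs with hi
    · rcases hi with rfl | hi
      · exact absurd rfl his
      · rw [h.z2_in (fun j hj hjs => hs (hjs ▸ hj)) i hi, zero_mul]
    · rw [mul_zero]
  · intro hh; exact absurd (Finset.mem_univ s) hh

lemma XP.m2_mul (t : A) : M2 s t y M N * M = N * M - vecMulVec (z2 s y M N) (M *ᵥ (N *ᵥ y)) := by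
  have hz : z2 s y M N ᵥ* M = 0 := by rw [vecMul_symm h.symM, h.mz2]
  unfold M2
  rw [add_mul, sub_mul, sub_mul, smul_mul_assoc, vecMulVec_mul, vecMulVec_mul, vecMulVec_mul, hz,
    vecMulVec_zero, vecMulVec_zero, smul_zero, add_zero, sub_zero, vecMul_symm h.symM]

open scoped Classical in
lemma XP.rr2 (t : A) : vecMulVec (z2 s y M N) (v2 s S y M N) + M2 s t y M N * M =
    N * M + vecMulVec (z2 s y M N) (fun i => if i ∈ insert s S then y i else 0) := by
  rw [h.m2_mul t]
  unfold v2
  rw [vecMulVec_add]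
  abel

include hy in
/-- from the parameters to the bordered matrix -/
theorem XP.i2 (hs : s ∉ S) (ha : ∀ i, a < i → y i = 0) (hyS : ∀ i ∈ S, s < i → y i = 0) (t : A) :
    TP a P S t (v2 s S y M N) M 0 (z2 s y M N) (M2 s t y M N) := by
  classical
  have hzv := h.z2_v2 hy hs
  have hz0 := h.mz2 (y := y)
  have hzS := h.z2_in (y := y) (fun j hj hjs => hs (hjs ▸ hj))
  have hNv : M2 s t y M N *ᵥ v2 s S y M N = - (t • z2 s y M N) := by
    unfold M2
    rw [add_mulVec, sub_mulVec, sub_mulVec, smul_mulVec, vv_mulVec, vv_mulVec, vv_mulVec, hzv,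
      h.u_v2, h.n_v2]
    funext i
    simp only [Pi.add_apply, Pi.sub_apply, Pi.neg_apply, Pi.smul_apply, smul_eq_mul]
    ring
  refine ⟨h.symM, fun i j => ?_, h.pat, fun i hi => ?_, hzS, fun i j hi => ?_,
    ?_, ?_, ?_, fun i j hj => ?_, fun i j hij => ?_, ?_, ?_⟩
  · unfold M2
    simp only [Matrix.sub_apply, Matrix.add_apply, Matrix.smul_apply, vecMulVec_apply,
      smul_eq_mul, h.symN i j]
    ring
  · unfold v2
    rw [Pi.add_apply, h.mn_mulVec_above ha hi, add_zero]
    split_ifs
    · exact ha i hi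
    · rfl
  · unfold M2
    simp only [Matrix.sub_apply, Matrix.add_apply, Matrix.smul_apply, vecMulVec_apply,
      smul_eq_mul, hzS i hi, h.sup i j (Set.mem_insert_of_mem _ hi),
      h.n_mulVec_zero y (Set.mem_insert_of_mem _ hi)]
    ring
  · rw [zero_mul, zero_add, hzv]
  · rw [hNv, add_neg_cancel]
  · rw [zero_smul, zero_add, hz0]
  · rw [h.rr2 t, Matrix.add_apply, vecMulVec_apply]
    by_cases hjs : j = s
    · subst hjs
      rw [if_pos (Set.mem_insert _ _)]
      unfold z2
      linear_combination ((1 : Matrix (Fin n) (Fin n) A) i j - (N * M) i j) *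
        Ring.inverse_mul_cancel _ hy
    · have hj' : j ∉ insert s S := by
        rintro (hh | hh)
        · exact hjs hh
        · exact hj hh
      rw [if_neg hj', mul_zero, add_zero, h.inv i j hj']
  · rw [h.rr2 t, Matrix.add_apply, vecMulVec_apply, h.low i j hij, zero_add]
    split_ifs with hj
    · rcases lt_or_ge i s with his | his
      · rw [h.z2_low his, zero_mul]
      · have hsj : s < j := lt_of_le_of_lt his hij
        rcases hj with hj | hj
        · exact absurd hj hsj.ne'
        · rw [hyS j hj hsj, mul_zero]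
    · rw [mul_zero]
  · rw [hNv, hzv, one_smul, mulVec_neg, mulVec_smul, hz0, smul_zero, neg_zero, add_zero]
  · rw [hz0, h.m2_mul t, mul_sub, mul_vecMulVec, hz0, h.ker]
    ext i j
    simp

include hy in
lemma XP.y2_back (t : A) :
    y2 s S (v2 s S y M N) (z2 s y M N) M (M2 s t y M N) = y := by
  classical
  funext i
  unfold y2
  split_ifs with hi
  · unfold RR
    rw [h.rr2 t, h.z2_s, Matrix.add_apply, vecMulVec_apply, if_pos hi, h.z2_s]
    have h1 : (N * M) s i = 0 := by
      rw [mul_apply]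
      exact Finset.sum_eq_zero fun k _ => by rw [h.sup s k (Set.mem_insert _ _), zero_mul]
    rw [h1, zero_add]
    linear_combination (y i) * Ring.inverse_mul_cancel _ hy.ringInverse
  · exact h.v2_out hi

end

end Pool.Agent.KB
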