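import Pool.Agent.KB.Main

/-!
# Contractions

For polynomials `a` and `b` on a system `E`: if the systems `b = 0`, `x a + b = 0` and
`x₁ x₂ a + (x₁ + x₂) b = 0` are in the class, then so is `a = 0`.
-/

set_option autoImplicit false
set_option linter.unusedSectionVars false

open MvPolynomial
open Pool.Agent.Helper81.CP Pool.Agent.Helper81.HG

namespace Pool.Agent.KB

variable {G : ∀ (R : Type) [CommRing R], Prop} {σ : Type} [Finite σ]

/-- `x a + b` -/
noncomputable def fS (a b : MvPolynomial σ ℤ) : MvPolynomial (Option σ) ℤ :=
  X none * rename some a + rename some b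

/-- `x₁ x₂ a + (x₁ + x₂) b` -/
noncomputable def fD (a b : MvPolynomial σ ℤ) : MvPolynomial (Option (Option σ)) ℤ :=
  X none * X (some none) * rename (fun i => some (some i)) a +
    (X none + X (some none)) * rename (fun i => some (some i)) b

lemma ev_fS {A : Type} [CommRing A] (a b : MvPolynomial σ ℤ) (x : Option σ → A) :
    ev x (fS a b) = x none * ev (fun i => x (some i)) a + ev (fun i => x (some i)) b := by
  simp [fS]

lemma ev_fD {A : Type} [CommRing A] (a b : MvPolynomial σ ℤ) (x : Option (Option σ) → A) :
    ev x (fD a b) = x none * x (some none) * ev (fun i => x (some (some i))) a +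
      (x none + x (some none)) * ev (fun i => x (some (some i))) b := by
  simp [fD]

lemma pt_ll {E : Set (MvPolynomial σ ℤ)} {A : Type} [CommRing A] {x : Option (Option σ) → A} :
    Pt (lft (lft E)) x ↔ Pt E (fun i => x (some (some i))) := by
  rw [Pt.lft_iff, Pt.lft_iff]

/-- the part of `x a + b = 0` where `x` is invertible -/
lemma go_fS (hG : RG G) {E : Set (MvPolynomial σ ℤ)} {a b : MvPolynomial σ ℤ}
    (h0 : GS G (insert b E)) (h1 : GS G (insert (fS a b) (lft E))) :
    GO G (insert (fS a b) (lft E)) (X none) := by
  have h2 : GS G (insert (X none) (insert (fS a b) (lft E))) := by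
    refine (hG.gs_iso (E := insert (X none) (insert (fS a b) (lft E))) (E' := insert b E)
      (fun A _ x => fun i => x (some i)) (fun A _ y => fun o => o.elim 0 y)
      ?_ ?_ ?_ ?_ ?_ ?_).mpr h0
    · intro A B _ _ φ x _ j; rfl
    · intro A B _ _ φ y _ o
      rcases o with _ | i
      · exact map_zero φ
      · rfl
    · intro A _ x hx
      rw [Pt.insert_iff, Pt.insert_iff, ev_X, ev_fS, Pt.lft_iff] at hx
      rw [Pt.insert_iff]
      obtain ⟨h1, h2, h3⟩ := hx
      rw [h1, zero_mul, zero_add] at h2
      exact ⟨h2, h3⟩
    · intro A _ y hy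
      rw [Pt.insert_iff] at hy
      rw [Pt.insert_iff, Pt.insert_iff, ev_X, ev_fS, Pt.lft_iff]
      refine ⟨rfl, ?_, hy.2⟩
      show (0 : A) * _ + ev y b = 0
      rw [zero_mul, zero_add, hy.1]
    · intro A _ x hx
      rw [Pt.insert_iff, ev_X] at hx
      funext o
      rcases o with _ | i
      · exact hx.1.symm
      · rfl
    · intro A _ y _; rfl
  have h3 := hG.gl_opn (E := insert (fS a b) (lft E)) (p := 1) (X none)
    ((hG.gl_one _).mpr h1) ((hG.gl_one _).mpr h2)
  rwa [one_mul] at h3

/-- the product with the affine line without two points -/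
lemma go_fS_line (hG : RG G) {E : Set (MvPolynomial σ ℤ)} {a b : MvPolynomial σ ℤ}
    (h : GO G (insert (fS a b) (lft E)) (X none)) :
    GO G (lft (insert (fS a b) (lft E))) (X (some none) * X none * (1 - X none)) := by
  set F := insert (fS a b) (lft E) with hF
  have h1 : GO G (lft F) (X (some none)) := by
    have := (hG.gl_line F (X none)).mpr h
    rwa [rename_X] at this
  have hfree : ∀ (A : Type) [CommRing A] (x y : Option (Option σ) → A),
      (∀ i, i ≠ none → y i = x i) → Lc (lft F) (X (some none)) x →
      Lc (lft F) (X (some none)) y := by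
    intro A _ x y hxy hx
    refine ⟨?_, ?_⟩
    · have h2 := hx.1
      rw [Pt.lft_iff] at h2 ⊢
      have : (fun i => y (some i)) = fun i => x (some i) := funext fun i => hxy _ (by simp)
      rwa [this]
    · have h2 := hx.2
      rw [ev_X] at h2 ⊢
      rwa [hxy (some none) (by simp)]
  have h2 : GO G (lft F) (X (some none) * X none) :=
    hG.gl_opn (X none) h1 ((hG.gl_free none hfree).mp h1)
  refine hG.gl_opn (1 - X none) h2 ?_
  refine (hG.gl_iso (E := insert (1 - X none) (lft F)) (p := X (some none) * X none)
    (E' := F) (p' := X none) (fun A _ x => fun i => x (some i))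
    (fun A _ y => fun o => o.elim 1 y) ?_ ?_ ?_ ?_ ?_ ?_).mpr h
  · intro A B _ _ φ x _ j; rfl
  · intro A B _ _ φ y _ o
    rcases o with _ | i
    · exact map_one φ
    · rfl
  · intro A _ x hx
    obtain ⟨hx1, hx2⟩ := hx
    rw [Pt.insert_iff, Pt.lft_iff] at hx1
    refine ⟨hx1.2, ?_⟩
    rw [map_mul, ev_X, ev_X] at hx2
    rw [ev_X]
    exact isUnit_of_mul_isUnit_left hx2
  · intro A _ y hy
    obtain ⟨hy1, hy2⟩ := hy
    rw [ev_X] at hy2
    refine ⟨?_, ?_⟩
    · rw [Pt.insert_iff, Pt.lft_iff, map_sub, map_one, ev_X]
      exact ⟨sub_self _, hy1⟩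
    · rw [map_mul, ev_X, ev_X]
      show IsUnit (y none * 1)
      rwa [mul_one]
  · intro A _ x hx
    have h3 := hx.1
    rw [Pt.insert_iff, map_sub, map_one, ev_X] at h3
    funext o
    rcases o with _ | i
    · exact sub_eq_zero.mp h3.1
    · rfl
  · intro A _ y _; rfl

/-- the part where `x₁`, `x₂` and `x₁ + x₂` are invertible -/
lemma go_fD_gen (hG : RG G) {E : Set (MvPolynomial σ ℤ)} {a b : MvPolynomial σ ℤ}
    (h : GO G (lft (insert (fS a b) (lft E))) (X (some none) * X none * (1 - X none))) :
    GO G (insert (fD a b) (lft (lft E)))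
      (X none * X (some none) * (X none + X (some none))) := by
  refine (hG.gl_iso (E := insert (fD a b) (lft (lft E)))
    (p := X none * X (some none) * (X none + X (some none)))
    (E' := lft (insert (fS a b) (lft E))) (p' := X (some none) * X none * (1 - X none))
    (fun A _ x => fun o => o.elim (x (some none) * Ring.inverse (x none + x (some none)))
      (fun o' => o'.elim (x none * x (some none) * Ring.inverse (x none + x (some none)))
        (fun i => x (some (some i)))))
    (fun A _ y => fun o => o.elim (y (some none) * Ring.inverse (y none))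
      (fun o' => o'.elim (y (some none) * Ring.inverse (1 - y none))
        (fun i => y (some (some i)))))
    ?_ ?_ ?_ ?_ ?_ ?_).mpr h
  · intro A B _ _ φ x hx o
    have h1 := hx.2
    simp only [map_mul, map_add, ev_X] at h1
    have h2 : IsUnit (x none + x (some none)) := isUnit_of_mul_isUnit_right h1
    rcases o with _ | _ | i
    · show φ (_ * _) = _ * _
      rw [map_mul, map_inv_of_unit φ h2, map_add]
    · show φ (_ * _ * _) = _ * _ * _
      rw [map_mul, map_mul, map_inv_of_unit φ h2, map_add]
    · rfl
  · intro A B _ _ φ y hy o
    have h1 := hy.2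
    simp only [map_mul, map_sub, map_one, ev_X] at h1
    have h2 : IsUnit (1 - y none) := isUnit_of_mul_isUnit_right h1
    have h3 : IsUnit (y none) := isUnit_of_mul_isUnit_right (isUnit_of_mul_isUnit_left h1)
    rcases o with _ | _ | i
    · show φ (_ * _) = _ * _
      rw [map_mul, map_inv_of_unit φ h3]
    · show φ (_ * _) = _ * _
      rw [map_mul, map_inv_of_unit φ h2, map_sub, map_one]
    · rfl
  · intro A _ x hx
    obtain ⟨hx1, hx2⟩ := hx
    rw [Pt.insert_iff, ev_fD, pt_ll] at hx1
    obtain ⟨hx3, hx4⟩ := hx1
    simp only [map_mul, map_add, ev_X] at hx2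
    have hs : IsUnit (x none + x (some none)) := isUnit_of_mul_isUnit_right hx2
    have hx5 : IsUnit (x none * x (some none)) := isUnit_of_mul_isUnit_left hx2
    have hu1 : IsUnit (x none) := isUnit_of_mul_isUnit_left hx5
    have hu2 : IsUnit (x (some none)) := isUnit_of_mul_isUnit_right hx5
    have hi := Ring.mul_inverse_cancel _ hs
    have hiu : IsUnit (Ring.inverse (x none + x (some none))) := hs.ringInverse
    set t := Ring.inverse (x none + x (some none)) with ht
    refine ⟨?_, ?_⟩
    · rw [Pt.lft_iff, Pt.insert_iff, ev_fS, Pt.lft_iff]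
      refine ⟨?_, hx4⟩
      show x none * x (some none) * t * ev (fun i => x (some (some i))) a +
        ev (fun i => x (some (some i))) b = 0
      linear_combination t * hx3 - ev (fun i => x (some (some i))) b * hi
    · simp only [map_mul, map_sub, map_one, ev_X]
      show IsUnit ((x none * x (some none) * t) * (x (some none) * t) *
        (1 - x (some none) * t))
      have h6 : 1 - x (some none) * t = x none * t := by linear_combination -hi
      rw [h6]
      exact ((hx5.mul hiu).mul (hu2.mul hiu)).mul (hu1.mul hiu)
  · intro A _ y hy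
    obtain ⟨hy1, hy2⟩ := hy
    rw [Pt.lft_iff, Pt.insert_iff, ev_fS, Pt.lft_iff] at hy1
    obtain ⟨hy3, hy4⟩ := hy1
    simp only [map_mul, map_sub, map_one, ev_X] at hy2
    have hv : IsUnit (1 - y none) := isUnit_of_mul_isUnit_right hy2
    have hy5 : IsUnit (y (some none) * y none) := isUnit_of_mul_isUnit_left hy2
    have hu : IsUnit (y none) := isUnit_of_mul_isUnit_right hy5
    have hx : IsUnit (y (some none)) := isUnit_of_mul_isUnit_left hy5
    have e1 := Ring.mul_inverse_cancel _ hu
    have e2 := Ring.mul_inverse_cancel _ hv
    have hru : IsUnit (Ring.inverse (y none)) := hu.ringInverse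
    have hrv : IsUnit (Ring.inverse (1 - y none)) := hv.ringInverse
    set r := Ring.inverse (y none) with hr
    set s := Ring.inverse (1 - y none) with hs
    have h6 : y (some none) * r + y (some none) * s = y (some none) * (r * s) := by
      linear_combination (-y (some none) * s) * e1 + (-y (some none) * r) * e2
    refine ⟨?_, ?_⟩
    · rw [Pt.insert_iff, ev_fD, pt_ll]
      refine ⟨?_, hy4⟩
      show y (some none) * r * (y (some none) * s) * ev (fun i => y (some (some i))) a +
        (y (some none) * r + y (some none) * s) * ev (fun i => y (some (some i))) b = 0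
      rw [h6]
      have hy3' : y (some none) * ev (fun i => y (some (some i))) a +
        ev (fun i => y (some (some i))) b = 0 := hy3
      linear_combination (y (some none) * r * s) * hy3'
    · simp only [map_mul, map_add, ev_X]
      show IsUnit ((y (some none) * r) * (y (some none) * s) *
        (y (some none) * r + y (some none) * s))
      rw [h6]
      exact ((hx.mul hru).mul (hx.mul hrv)).mul (hx.mul (hru.mul hrv))
  · intro A _ x hx
    have h1 := hx.2
    simp only [map_mul, map_add, ev_X] at h1
    have hs : IsUnit (x none + x (some none)) := isUnit_of_mul_isUnit_right h1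
    have hx5 : IsUnit (x none * x (some none)) := isUnit_of_mul_isUnit_left h1
    have hu1 : IsUnit (x none) := isUnit_of_mul_isUnit_left hx5
    have hu2 : IsUnit (x (some none)) := isUnit_of_mul_isUnit_right hx5
    have hi := Ring.mul_inverse_cancel _ hs
    have hiu : IsUnit (Ring.inverse (x none + x (some none))) := hs.ringInverse
    funext o
    rcases o with _ | _ | i
    · show x none * x (some none) * Ring.inverse (x none + x (some none)) *
        Ring.inverse (x (some none) * Ring.inverse (x none + x (some none))) = x none
      have e := Ring.mul_inverse_cancel _ (hu2.mul hiu)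
      linear_combination x none * e
    · show x none * x (some none) * Ring.inverse (x none + x (some none)) *
        Ring.inverse (1 - x (some none) * Ring.inverse (x none + x (some none))) = x (some none)
      have h6 : 1 - x (some none) * Ring.inverse (x none + x (some none)) =
        x none * Ring.inverse (x none + x (some none)) := by linear_combination -hi
      rw [h6]
      have e := Ring.mul_inverse_cancel _ (hu1.mul hiu)
      linear_combination x (some none) * e
    · rfl
  · intro A _ y hy
    have hy2 := hy.2
    simp only [map_mul, map_sub, map_one, ev_X] at hy2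
    have hv : IsUnit (1 - y none) := isUnit_of_mul_isUnit_right hy2
    have hy5 : IsUnit (y (some none) * y none) := isUnit_of_mul_isUnit_left hy2
    have hu : IsUnit (y none) := isUnit_of_mul_isUnit_right hy5
    have hx : IsUnit (y (some none)) := isUnit_of_mul_isUnit_left hy5
    have e1 := Ring.mul_inverse_cancel _ hu
    have e2 := Ring.mul_inverse_cancel _ hv
    have hru : IsUnit (Ring.inverse (y none)) := hu.ringInverse
    have hrv : IsUnit (Ring.inverse (1 - y none)) := hv.ringInverse
    set r := Ring.inverse (y none) with hr
    set s := Ring.inverse (1 - y none) with hs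
    have h6 : y (some none) * r + y (some none) * s = y (some none) * (r * s) := by
      linear_combination (-y (some none) * s) * e1 + (-y (some none) * r) * e2
    have e3 := Ring.mul_inverse_cancel _ (hx.mul (hru.mul hrv))
    funext o
    rcases o with _ | _ | i
    · show y (some none) * s * Ring.inverse (y (some none) * r + y (some none) * s) = y none
      rw [h6]
      set w := Ring.inverse (y (some none) * (r * s)) with hw
      linear_combination (-y (some none) * s * w) * e1 + y none * e3
    · show y (some none) * r * (y (some none) * s) *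
        Ring.inverse (y (some none) * r + y (some none) * s) = y (some none)
      rw [h6]
      set w := Ring.inverse (y (some none) * (r * s)) with hw
      linear_combination y (some none) * e3
    · rfl

/-- **The contraction.** -/
theorem contract (hG : RG G) {E : Set (MvPolynomial σ ℤ)} {a b : MvPolynomial σ ℤ}
    (hE : GS G E) (h0 : GS G (insert b E)) (h1 : GS G (insert (fS a b) (lft E)))
    (h2 : GS G (insert (fD a b) (lft (lft E)))) : GS G (insert a E) := by
  set F := insert (fD a b) (lft (lft E)) with hF
  have pF : ∀ (A : Type) [CommRing A] (x : Option (Option σ) → A), Pt F x ↔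
      x none * x (some none) * ev (fun i => x (some (some i))) a +
        (x none + x (some none)) * ev (fun i => x (some (some i))) b = 0 ∧
      Pt E (fun i => x (some (some i))) := by
    intro A _ x
    rw [hF, Pt.insert_iff, ev_fD, pt_ll]
  -- the part `x₁ = 0`
  have s1 : GO G (insert (X none) F) 1 := by
    refine hG.gl_glue (X (some none)) ?_ ?_
    · refine (hG.gl_one _).mpr ?_
      refine (hG.gs_iso (E := insert (X (some none)) (insert (X none) F)) (E' := E)
        (fun A _ x => fun i => x (some (some i)))
        (fun A _ y => fun o => o.elim 0 (fun o' => o'.elim 0 y)) ?_ ?_ ?_ ?_ ?_ ?_).mpr hE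
      · intro A B _ _ φ x _ j; rfl
      · intro A B _ _ φ y _ o
        rcases o with _ | _ | i
        · exact map_zero φ
        · exact map_zero φ
        · rfl
      · intro A _ x hx
        rw [Pt.insert_iff, Pt.insert_iff, pF] at hx
        exact hx.2.2.2
      · intro A _ y hy
        rw [Pt.insert_iff, Pt.insert_iff, pF, ev_X, ev_X]
        refine ⟨rfl, rfl, ?_, hy⟩
        show (0 : A) * 0 * _ + (0 + 0) * _ = 0
        ring
      · intro A _ x hx
        rw [Pt.insert_iff, Pt.insert_iff, ev_X, ev_X] at hx
        funext o
        rcases o with _ | _ | i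
        · exact hx.2.1.symm
        · exact hx.1.symm
        · rfl
      · intro A _ y _; rfl
    · have hb : GO G (lft (insert b E)) (1 * X none) := by
        refine (hG.gl_gm none ?_).mpr ((hG.gl_one _).mpr ((hG.gs_line _).mpr h0))
        intro A _ x y hxy hx
        refine ⟨?_, by rw [map_one]; exact isUnit_one⟩
        have h2 := hx.1
        rw [Pt.lft_iff] at h2 ⊢
        have : (fun i => y (some i)) = fun i => x (some i) := funext fun i => hxy _ (by simp)
        rwa [this]
      refine (hG.gl_iso (E := insert (X none) F) (p := 1 * X (some none))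
        (E' := lft (insert b E)) (p' := 1 * X none)
        (fun A _ x => fun i => x (some i))
        (fun A _ y => fun o => o.elim 0 y) ?_ ?_ ?_ ?_ ?_ ?_).mpr hb
      · intro A B _ _ φ x _ j; rfl
      · intro A B _ _ φ y _ o
        rcases o with _ | i
        · exact map_zero φ
        · rfl
      · intro A _ x hx
        obtain ⟨hx1, hx2⟩ := hx
        rw [Pt.insert_iff, pF, ev_X] at hx1
        rw [one_mul, ev_X] at hx2
        obtain ⟨h3, h4, h5⟩ := hx1
        refine ⟨?_, by rw [one_mul, ev_X]; exact hx2⟩
        rw [Pt.lft_iff, Pt.insert_iff]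
        refine ⟨?_, h5⟩
        rw [h3] at h4
        have h6 : x (some none) * ev (fun i => x (some (some i))) b = 0 := by
          linear_combination h4
        exact (hx2.mul_right_eq_zero).mp h6
      · intro A _ y hy
        obtain ⟨hy1, hy2⟩ := hy
        rw [Pt.lft_iff, Pt.insert_iff] at hy1
        rw [one_mul, ev_X] at hy2
        refine ⟨?_, by rw [one_mul, ev_X]; exact hy2⟩
        rw [Pt.insert_iff, pF, ev_X]
        refine ⟨rfl, ?_, hy1.2⟩
        show (0 : A) * y none * _ + (0 + y none) * ev (fun i => y (some i)) b = 0
        rw [hy1.1]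
        ring
      · intro A _ x hx
        have hx1 := hx.1
        rw [Pt.insert_iff, ev_X] at hx1
        funext o
        rcases o with _ | i
        · exact hx1.1.symm
        · rfl
      · intro A _ y _; rfl
  have s2 : GO G F (X none) := by
    have := hG.gl_opn (E := F) (p := 1) (X none) ((hG.gl_one _).mpr h2) s1
    rwa [one_mul] at this
  -- the part `x₂ = 0`
  have s3 : GO G (insert (X (some none)) F) (X none) := by
    have hb : GO G (lft (insert b E)) (1 * X none) := by
      refine (hG.gl_gm none ?_).mpr ((hG.gl_one _).mpr ((hG.gs_line _).mpr h0))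
      intro A _ x y hxy hx
      refine ⟨?_, by rw [map_one]; exact isUnit_one⟩
      have h2 := hx.1
      rw [Pt.lft_iff] at h2 ⊢
      have : (fun i => y (some i)) = fun i => x (some i) := funext fun i => hxy _ (by simp)
      rwa [this]
    refine (hG.gl_iso (E := insert (X (some none)) F) (p := X none)
      (E' := lft (insert b E)) (p' := 1 * X none)
      (fun A _ x => fun o => o.elim (x none) (fun i => x (some (some i))))
      (fun A _ y => fun o => o.elim (y none) (fun o' => o'.elim 0 (fun i => y (some i))))
      ?_ ?_ ?_ ?_ ?_ ?_).mpr hb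
    · intro A B _ _ φ x _ j
      rcases j with _ | i <;> rfl
    · intro A B _ _ φ y _ o
      rcases o with _ | _ | i
      · rfl
      · exact map_zero φ
      · rfl
    · intro A _ x hx
      obtain ⟨hx1, hx2⟩ := hx
      rw [Pt.insert_iff, pF, ev_X] at hx1
      rw [ev_X] at hx2
      obtain ⟨h3, h4, h5⟩ := hx1
      refine ⟨?_, by rw [one_mul, ev_X]; exact hx2⟩
      rw [Pt.lft_iff, Pt.insert_iff]
      refine ⟨?_, h5⟩
      rw [h3] at h4
      have h6 : x none * ev (fun i => x (some (some i))) b = 0 := by
        linear_combination h4
      exact (hx2.mul_right_eq_zero).mp h6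
    · intro A _ y hy
      obtain ⟨hy1, hy2⟩ := hy
      rw [Pt.lft_iff, Pt.insert_iff] at hy1
      rw [one_mul, ev_X] at hy2
      refine ⟨?_, by rw [ev_X]; exact hy2⟩
      rw [Pt.insert_iff, pF, ev_X]
      refine ⟨rfl, ?_, hy1.2⟩
      show y none * 0 * _ + (y none + 0) * ev (fun i => y (some i)) b = 0
      rw [hy1.1]
      ring
    · intro A _ x hx
      have hx1 := hx.1
      rw [Pt.insert_iff, ev_X] at hx1
      funext o
      rcases o with _ | _ | i
      · rfl
      · exact hx1.1.symm
      · rfl
    · intro A _ y _
      funext o
      rcases o with _ | i <;> rfl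
  have s4 : GO G F (X none * X (some none)) := hG.gl_opn (X (some none)) s2 s3
  have s5 : GO G F (X none * X (some none) * (X none + X (some none))) :=
    go_fD_gen hG (go_fS_line hG (go_fS hG h0 h1))
  have s6 : GO G (insert (X none + X (some none)) F) (X none * X (some none)) :=
    hG.gl_closed _ s4 s5
  -- descent along the multiplicative group
  refine hG.gs_gm ?_
  refine (hG.gl_iso (E := insert (X none + X (some none)) F) (p := X none * X (some none))
    (E' := lft (insert a E)) (p' := X none)
    (fun A _ x => fun o => o.elim (x none) (fun i => x (some (some i))))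
    (fun A _ y => fun o => o.elim (y none) (fun o' => o'.elim (-y none) (fun i => y (some i))))
    ?_ ?_ ?_ ?_ ?_ ?_).mp s6
  · intro A B _ _ φ x _ j
    rcases j with _ | i <;> rfl
  · intro A B _ _ φ y _ o
    rcases o with _ | _ | i
    · rfl
    · exact map_neg φ _
    · rfl
  · intro A _ x hx
    obtain ⟨hx1, hx2⟩ := hx
    rw [Pt.insert_iff, pF, map_add, ev_X, ev_X] at hx1
    rw [map_mul, ev_X, ev_X] at hx2
    obtain ⟨h3, h4, h5⟩ := hx1
    refine ⟨?_, by rw [ev_X]; exact isUnit_of_mul_isUnit_left hx2⟩
    rw [Pt.lft_iff, Pt.insert_iff]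
    refine ⟨?_, h5⟩
    rw [h3, zero_mul, add_zero] at h4
    exact (hx2.mul_right_eq_zero).mp h4
  · intro A _ y hy
    obtain ⟨hy1, hy2⟩ := hy
    rw [Pt.lft_iff, Pt.insert_iff] at hy1
    rw [ev_X] at hy2
    refine ⟨?_, ?_⟩
    · rw [Pt.insert_iff, pF, map_add, ev_X, ev_X]
      refine ⟨?_, ?_, hy1.2⟩
      · show y none + -y none = 0
        ring
      · show y none * -y none * ev (fun i => y (some i)) a +
          (y none + -y none) * ev (fun i => y (some i)) b = 0
        rw [hy1.1]
        ring
    · rw [map_mul, ev_X, ev_X]
      exact hy2.mul hy2.neg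
  · intro A _ x hx
    have hx1 := hx.1
    rw [Pt.insert_iff, map_add, ev_X, ev_X] at hx1
    funext o
    rcases o with _ | _ | i
    · rfl
    · show -x none = x (some none)
      linear_combination -hx1.1
    · rfl
  · intro A _ y _
    funext o
    rcases o with _ | i <;> rfl

end Pool.Agent.KB
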