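import Pool.Agent.KB.Step

/-!
# Graphs of maximum degree three control all graphs
-/

set_option autoImplicit false
set_option linter.unusedSectionVars false

open MvPolynomial
open Pool.Agent.Helper81.CP Pool.Agent.Helper81.HG
open Pool.Agent.Helper50.KR (kirchhoff)

namespace Pool.Agent.KB

variable {G : ∀ (R : Type) [CommRing R], Prop}

/-- the degree -/
noncomputable def dg {V : Type} (H : SimpleGraph V) (v : V) : ℕ := (H.neighborSet v).ncard

section

variable {V : Type} [Fintype V] {H : SimpleGraph V} {v a b : V}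

open Classical in
lemma dg_spl_some (hva : v ≠ a) (hvb : v ≠ b) (ha : H.Adj v a) (hb : H.Adj v b) (ε : Prop)
    {u : V} (hu : u ≠ v) : dg (spl H v a b ε) (some u) ≤ dg H u := by
  let θ : V → Option V := fun w => if w = v ∧ (u = a ∨ u = b) then none else some w
  have h : (spl H v a b ε).neighborSet (some u) ⊆ θ '' H.neighborSet u := by
    rintro (_ | w) hw
    · have hw' : u = a ∨ u = b ∨ (ε ∧ u = v) := hw
      have hab : u = a ∨ u = b := by
        rcases hw' with h | h | h
        · exact Or.inl h
        · exact Or.inr h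
        · exact absurd h.2 hu
      refine ⟨v, ?_, if_pos ⟨rfl, hab⟩⟩
      show H.Adj u v
      rcases hab with rfl | rfl
      · exact ha.symm
      · exact hb.symm
    · have hw' : H.Adj u w ∧ ¬ (u = v ∧ (w = a ∨ w = b)) ∧ ¬ (w = v ∧ (u = a ∨ u = b)) := hw
      exact ⟨w, hw'.1, if_neg hw'.2.2⟩
  exact (Set.ncard_le_ncard h (Set.toFinite _)).trans (Set.ncard_image_le (Set.toFinite _))

open Classical in
lemma dg_spl_v (hab : a ≠ b) (ha : H.Adj v a) (hb : H.Adj v b)
    (ε : Prop) : dg (spl H v a b ε) (some v) + 1 ≤ dg H v := by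
  let θ : V → Option V := fun w => if w = a then none else some w
  have h : (spl H v a b ε).neighborSet (some v) ⊆ θ '' (H.neighborSet v \ {b}) := by
    rintro (_ | w) hw
    · exact ⟨a, ⟨ha, hab⟩, if_pos rfl⟩
    · have hw' : H.Adj v w ∧ ¬ (v = v ∧ (w = a ∨ w = b)) ∧ ¬ (w = v ∧ (v = a ∨ v = b)) := hw
      have h1 : ¬ (w = a ∨ w = b) := fun h => hw'.2.1 ⟨rfl, h⟩
      rw [not_or] at h1
      exact ⟨w, ⟨hw'.1, h1.2⟩, if_neg h1.1⟩
  have h1 : dg (spl H v a b ε) (some v) ≤ (H.neighborSet v \ {b}).ncard :=
    (Set.ncard_le_ncard h (Set.toFinite _)).trans (Set.ncard_image_le (Set.toFinite _))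
  have h2 : (H.neighborSet v \ {b}).ncard + 1 = dg H v :=
    Set.ncard_sdiff_singleton_add_one hb (Set.toFinite _)
  omega

lemma ncard_three {W : Type} (x y z : W) : ({x, y, z} : Set W).ncard ≤ 3 := by
  have h1 := Set.ncard_insert_le x ({y, z} : Set W)
  have h2 := Set.ncard_insert_le y ({z} : Set W)
  rw [Set.ncard_singleton] at h2
  omega

lemma dg_spl_none (ε : Prop) : dg (spl H v a b ε) none ≤ 3 := by
  have h : (spl H v a b ε).neighborSet none ⊆ {some a, some b, some v} := by
    rintro (_ | w) hw
    · exact absurd hw (fun h => h)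
    · have hw' : w = a ∨ w = b ∨ (ε ∧ w = v) := hw
      rcases hw' with rfl | rfl | ⟨_, rfl⟩ <;> simp
  exact (Set.ncard_le_ncard h (Set.toFinite _)).trans (ncard_three _ _ _)

lemma dg_add_none : dg (addv (spl H v a b False) none (some v)) none ≤ 3 := by
  have h : (addv (spl H v a b False) none (some v)).neighborSet none ⊆
      {some none, some (some v), some (some v)} := by
    rintro (_ | w) hw
    · exact absurd hw (fun h => h)
    · have hw' : w = none ∨ w = some v := hw
      rcases hw' with rfl | rfl <;> simp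
  exact (Set.ncard_le_ncard h (Set.toFinite _)).trans (ncard_three _ _ _)

lemma dg_add_n : dg (addv (spl H v a b False) none (some v)) (some none) ≤ 3 := by
  have h : (addv (spl H v a b False) none (some v)).neighborSet (some none) ⊆
      {none, some (some a), some (some b)} := by
    rintro (_ | w) hw
    · simp
    · have hw' : (spl H v a b False).Adj none w := hw
      rcases w with _ | w
      · exact absurd hw' (fun h => h)
      · have hw'' : w = a ∨ w = b ∨ (False ∧ w = v) := hw'
        rcases hw'' with rfl | rfl | ⟨h, _⟩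
        · simp
        · simp
        · exact absurd h (fun h => h)
  exact (Set.ncard_le_ncard h (Set.toFinite _)).trans (ncard_three _ _ _)

open Classical in
lemma dg_add_some (hva : v ≠ a) (hvb : v ≠ b) (ha : H.Adj v a) (hb : H.Adj v b)
    {u : V} (hu : u ≠ v) :
    dg (addv (spl H v a b False) none (some v)) (some (some u)) ≤ dg H u := by
  have h : (addv (spl H v a b False) none (some v)).neighborSet (some (some u)) ⊆
      some '' (spl H v a b False).neighborSet (some u) := by
    rintro (_ | w) hw
    · have hw' : some u = none ∨ some u = some v := hw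
      rcases hw' with h | h
      · cases h
      · exact absurd (Option.some.inj h) hu
    · exact ⟨w, hw, rfl⟩
  exact ((Set.ncard_le_ncard h (Set.toFinite _)).trans
    (Set.ncard_image_le (Set.toFinite _))).trans (dg_spl_some hva hvb ha hb False hu)

open Classical in
lemma dg_add_v (hva : v ≠ a) (hvb : v ≠ b) (hab : a ≠ b) (ha : H.Adj v a) (hb : H.Adj v b) :
    dg (addv (spl H v a b False) none (some v)) (some (some v)) + 1 ≤ dg H v := by
  let θ : V → Option (Option V) := fun w => if w = a then none else some (some w)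
  have h : (addv (spl H v a b False) none (some v)).neighborSet (some (some v)) ⊆
      θ '' (H.neighborSet v \ {b}) := by
    rintro (_ | _ | w) hw
    · exact ⟨a, ⟨ha, hab⟩, if_pos rfl⟩
    · have hw' : v = a ∨ v = b ∨ (False ∧ v = v) := hw
      rcases hw' with h | h | h
      · exact absurd h hva
      · exact absurd h hvb
      · exact absurd h.1 (fun h => h)
    · have hw' : H.Adj v w ∧ ¬ (v = v ∧ (w = a ∨ w = b)) ∧ ¬ (w = v ∧ (v = a ∨ v = b)) := hw
      have h1 : ¬ (w = a ∨ w = b) := fun h => hw'.2.1 ⟨rfl, h⟩
      rw [not_or] at h1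
      exact ⟨w, ⟨hw'.1, h1.2⟩, if_neg h1.1⟩
  have h1 : dg (addv (spl H v a b False) none (some v)) (some (some v)) ≤
      (H.neighborSet v \ {b}).ncard :=
    (Set.ncard_le_ncard h (Set.toFinite _)).trans (Set.ncard_image_le (Set.toFinite _))
  have h2 : (H.neighborSet v \ {b}).ncard + 1 = dg H v :=
    Set.ncard_sdiff_singleton_add_one hb (Set.toFinite _)
  omega

end

/-- the excess of the degrees over three -/
noncomputable def exs {V : Type} [Fintype V] (H : SimpleGraph V) : ℕ := ∑ v, (dg H v - 3)

lemma exs_lt {V : Type} [Fintype V] {H : SimpleGraph V} {v : V} (h : 4 ≤ dg H v) {f : V → ℕ}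
    (hf : ∀ u, u ≠ v → f u ≤ dg H u) (hv : f v + 1 ≤ dg H v) : ∑ u, (f u - 3) < exs H := by
  refine Finset.sum_lt_sum (fun u _ => ?_) ⟨v, Finset.mem_univ v, by omega⟩
  by_cases hu : u = v
  · subst hu; omega
  · have := hf u hu
    omega

/-- **Graphs of maximum degree three control all graphs.** -/
theorem gs_all_of_cubic (hG : RG G) (hpt : GS G (∅ : Set (MvPolynomial Empty ℤ)))
    (h3 : ∀ (V : Type) [Fintype V] (H : SimpleGraph V), (∀ v, dg H v ≤ 3) →
      GS G ({kirchhoff H} : Set (MvPolynomial H.edgeSet ℤ))) :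
    ∀ (n : ℕ) (V : Type) [Fintype V] (H : SimpleGraph V), exs H ≤ n →
      GS G ({kirchhoff H} : Set (MvPolynomial H.edgeSet ℤ)) := by
  classical
  intro n
  induction n with
  | zero =>
    intro V _ H hn
    refine h3 V H fun v => ?_
    have h1 : dg H v - 3 = 0 :=
      (Finset.sum_eq_zero_iff.mp (Nat.le_zero.mp hn)) v (Finset.mem_univ v)
    omega
  | succ n ih =>
    intro V _ H hn
    by_cases hc : ∀ v, dg H v ≤ 3
    · exact h3 V H hc
    · push Not at hc
      obtain ⟨v, hv⟩ := hc
      have h4 : 4 ≤ dg H v := hv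
      obtain ⟨a, ha, b, hb, hab⟩ : ∃ a ∈ H.neighborSet v, ∃ b ∈ H.neighborSet v, a ≠ b :=
        (Set.one_lt_ncard (Set.toFinite _)).mp (lt_of_lt_of_le (by norm_num) h4)
      have hva : v ≠ a := SimpleGraph.Adj.ne (G := H) ha
      have hvb : v ≠ b := SimpleGraph.Adj.ne (G := H) hb
      have hlt : ∀ ε : Prop, exs (spl H v a b ε) < exs H := by
        intro ε
        have h1 := dg_spl_none (H := H) (v := v) (a := a) (b := b) ε
        have h2 := exs_lt h4 (f := fun u => dg (spl H v a b ε) (some u))
          (fun u hu => dg_spl_some hva hvb ha hb ε hu) (dg_spl_v hab ha hb ε)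
        unfold exs at h2 ⊢
        rw [Fintype.sum_option]
        omega
      refine kir_step hG hpt (v := v) (a := a) (b := b) ha hb
        (ih _ _ (by have := hlt False; omega)) (ih _ _ (by have := hlt True; omega))
        (ih _ _ ?_)
      have h1 := dg_add_none (H := H) (v := v) (a := a) (b := b)
      have h1' := dg_add_n (H := H) (v := v) (a := a) (b := b)
      have h2 := exs_lt h4 (f := fun u => dg (addv (spl H v a b False) none (some v))
        (some (some u)))
        (fun u hu => dg_add_some hva hvb ha hb hu) (dg_add_v hva hvb hab ha hb)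
      unfold exs at h2 ⊢
      rw [Fintype.sum_option, Fintype.sum_option]
      unfold exs at hn
      omega

end Pool.Agent.KB
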