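import Pool.Agent.KB.Cubic

/-!
# Graphs of maximum degree three and large girth control all graphs
-/

set_option autoImplicit false
set_option linter.unusedSectionVars false

open MvPolynomial
open Pool.Agent.Helper81.CP Pool.Agent.Helper81.HG
open Pool.Agent.Helper50.KR (kirchhoff)

namespace Pool.Agent.KB

variable {G : ∀ (R : Type) [CommRing R], Prop}

/-! ### Weights and potentials -/

section

variable {V : Type}

/-- `φ` changes along the edges other than `s t` by at most the weight of the edge -/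
def Lip (Γ : SimpleGraph V) (w : V → V → ℕ) (s t : V) (φ : V → ℤ) : Prop :=
  ∀ x y, Γ.Adj x y → ¬ (x = s ∧ y = t) → ¬ (x = t ∧ y = s) → φ x - φ y ≤ w x y

/-- all cycles have weight at least `g`, in terms of potentials -/
def Cy (Γ : SimpleGraph V) (w : V → V → ℕ) (g : ℕ) : Prop :=
  ∀ s t, Γ.Adj s t → ∃ φ : V → ℤ, Lip Γ w s t φ ∧ (g : ℤ) - w s t ≤ φ t - φ s

lemma Cy.mono {Γ Γ' : SimpleGraph V} {w : V → V → ℕ} {g : ℕ} (h : Cy Γ w g)
    (hle : ∀ x y, Γ'.Adj x y → Γ.Adj x y) : Cy Γ' w g := by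
  intro s t hst
  obtain ⟨φ, h1, h2⟩ := h s t (hle s t hst)
  exact ⟨φ, fun x y hxy => h1 x y (hle x y hxy), h2⟩

/-- the extension of a potential to a new vertex on an edge -/
def exφ (φ : V → ℤ) (m : ℤ) : Option V → ℤ := fun i => i.elim m φ

lemma clamp (a b m n : ℤ) (hm : 0 ≤ m) (hn : 0 ≤ n) (h1 : a - b ≤ m + n) (h2 : b - a ≤ m + n) :
    ∃ c : ℤ, c - a ≤ m ∧ a - c ≤ m ∧ c - b ≤ n ∧ b - c ≤ n := by
  by_cases h3 : a - b ≤ n
  · by_cases h4 : b - a ≤ n
    · exact ⟨a, by omega, by omega, by omega, by omega⟩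
    · exact ⟨b - n, by omega, by omega, by omega, by omega⟩
  · exact ⟨b + n, by omega, by omega, by omega, by omega⟩

/-- a path of two edges instead of the edge `p q` -/
lemma cy_sub {Γ : SimpleGraph V} {w : V → V → ℕ} {g : ℕ} (hC : Cy Γ w g)
    (hw : ∀ x y, w x y = w y x) {p q : V} (hpq : Γ.Adj p q) {J : SimpleGraph (Option V)}
    {w' : Option V → Option V → ℕ} (hw' : ∀ x y, w' x y = w' y x)
    (h1 : ∀ u u', J.Adj (some u) (some u') →
      Γ.Adj u u' ∧ ¬ (u = p ∧ u' = q) ∧ ¬ (u = q ∧ u' = p))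
    (h2 : ∀ u, J.Adj none (some u) → u = p ∨ u = q)
    (h3 : ∀ u u', w' (some u) (some u') = w u u')
    (h4 : w p q ≤ w' none (some p) + w' none (some q)) : Cy J w' g := by
  have hne : p ≠ q := hpq.ne
  -- extension of a potential for another edge
  have key : ∀ (s t : V) (φ : V → ℤ), Lip Γ w s t φ → ¬ (s = p ∧ t = q) → ¬ (s = q ∧ t = p) →
      ∃ m : ℤ, Lip J w' (some s) (some t) (exφ φ m) := by
    intro s t φ hφ hn1 hn2
    have e1 := hφ p q hpq (fun h => hn1 ⟨h.1.symm, h.2.symm⟩) (fun h => hn2 ⟨h.2.symm, h.1.symm⟩)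
    have e2 := hφ q p hpq.symm (fun h => hn2 ⟨h.1.symm, h.2.symm⟩)
      (fun h => hn1 ⟨h.2.symm, h.1.symm⟩)
    rw [hw q p] at e2
    obtain ⟨m, c1, c2, c3, c4⟩ := clamp (φ p) (φ q) (w' none (some p)) (w' none (some q))
      (by positivity) (by positivity) (by omega) (by omega)
    refine ⟨m, ?_⟩
    rintro (_ | x) (_ | y) hxy hs1 hs2
    · exact absurd hxy (J.loopless.irrefl _)
    · show m - φ y ≤ w' none (some y)
      rcases h2 y hxy with rfl | rfl
      · exact c1
      · exact c3
    · show φ x - m ≤ w' (some x) none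
      rw [hw' (some x) none]
      rcases h2 x (SimpleGraph.Adj.symm hxy) with rfl | rfl
      · exact c2
      · exact c4
    · show φ x - φ y ≤ w' (some x) (some y)
      rw [h3]
      refine hφ x y (h1 x y hxy).1 (fun h => hs1 ?_) (fun h => hs2 ?_)
      · exact ⟨congrArg some h.1, congrArg some h.2⟩
      · exact ⟨congrArg some h.1, congrArg some h.2⟩
  -- the new edges
  have new : ∀ (p q : V), Γ.Adj p q → (∀ u u', J.Adj (some u) (some u') →
      Γ.Adj u u' ∧ ¬ (u = p ∧ u' = q) ∧ ¬ (u = q ∧ u' = p)) →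
      (∀ u, J.Adj none (some u) → u = p ∨ u = q) →
      w p q ≤ w' none (some p) + w' none (some q) →
      ∃ φ : Option V → ℤ, Lip J w' none (some p) φ ∧
        (g : ℤ) - w' none (some p) ≤ φ (some p) - φ none := by
    intro p q hpq h1 h2 h4
    obtain ⟨φ, hφ, hg⟩ := hC q p hpq.symm
    rw [hw q p] at hg
    refine ⟨exφ φ (φ q - w' none (some q)), ?_, ?_⟩
    · rintro (_ | x) (_ | y) hxy hs1 hs2
      · exact absurd hxy (J.loopless.irrefl _)
      · show φ q - w' none (some q) - φ y ≤ w' none (some y)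
        rcases h2 y hxy with rfl | rfl
        · exact absurd ⟨rfl, rfl⟩ hs1
        · omega
      · show φ x - (φ q - w' none (some q)) ≤ w' (some x) none
        rw [hw' (some x) none]
        rcases h2 x (SimpleGraph.Adj.symm hxy) with rfl | rfl
        · exact absurd ⟨rfl, rfl⟩ hs2
        · omega
      · show φ x - φ y ≤ w' (some x) (some y)
        rw [h3]
        obtain ⟨ha, hb, hc⟩ := h1 x y hxy
        exact hφ x y ha hc hb
    · show (g : ℤ) - w' none (some p) ≤ φ p - (φ q - w' none (some q))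
      omega
  -- the symmetric version
  have sy : ∀ (Γ : SimpleGraph (Option V)) (s t : Option V) (φ : Option V → ℤ), Lip J w' s t φ →
      (g : ℤ) - w' s t ≤ φ t - φ s → ∃ ψ : Option V → ℤ, Lip J w' t s ψ ∧
        (g : ℤ) - w' t s ≤ ψ s - ψ t := by
    intro _ s t φ hφ hg
    refine ⟨fun i => - φ i, fun x y hxy hs1 hs2 => ?_, ?_⟩
    · have := hφ y x (SimpleGraph.Adj.symm hxy) (fun h => hs1 ⟨h.2, h.1⟩) (fun h => hs2 ⟨h.2, h.1⟩)
      rw [hw' y x] at this
      show - φ x - - φ y ≤ w' x y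
      omega
    · rw [hw' t s]
      show (g : ℤ) - w' s t ≤ - φ s - - φ t
      omega
  have newall : ∀ t, J.Adj none (some t) → ∃ φ : Option V → ℤ, Lip J w' none (some t) φ ∧
        (g : ℤ) - w' none (some t) ≤ φ (some t) - φ none := by
    intro t ht
    rcases h2 t ht with rfl | rfl
    · exact new t q hpq h1 h2 h4
    · refine new t p hpq.symm (fun u u' h => ?_) (fun u h => (h2 u h).symm) ?_
      · obtain ⟨ha, hb, hc⟩ := h1 u u' h
        exact ⟨ha, hc, hb⟩
      · rw [hw t p]
        omega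
  rintro (_ | s) (_ | t) hst
  · exact absurd hst (J.loopless.irrefl _)
  · exact newall t hst
  · obtain ⟨φ, hφ, hg⟩ := newall s (SimpleGraph.Adj.symm hst)
    exact sy J _ _ φ hφ hg
  · obtain ⟨ha, hb, hc⟩ := h1 s t hst
    obtain ⟨φ, hφ, hg⟩ := hC s t ha
    obtain ⟨m, hm⟩ := key s t φ hφ hb hc
    refine ⟨exφ φ m, hm, ?_⟩
    rw [h3]
    exact hg

/-- large girth -/
lemma girth_of_cy {Γ : SimpleGraph V} {w : V → V → ℕ} {g : ℕ} (h : Cy Γ w g)
    (hw : ∀ x y, Γ.Adj x y → w x y ≤ 1) : (g : ℕ∞) ≤ Γ.egirth := by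
  rw [SimpleGraph.le_egirth]
  intro a c hc
  have hlen : g ≤ c.length := by
    cases c with
    | nil => exact absurd rfl hc.ne_nil
    | cons hadj p =>
      rename_i b
      rw [SimpleGraph.Walk.cons_isCycle_iff] at hc
      obtain ⟨φ, hφ, hg⟩ := h a b hadj
      have key : ∀ {x y : V} (q : Γ.Walk x y), s(a, b) ∉ q.edges → φ x - φ y ≤ q.length := by
        intro x y q
        induction q with
        | nil => intro _; simp
        | cons hxz q ih =>
          rename_i x z y
          intro hq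
          rw [SimpleGraph.Walk.edges_cons, List.mem_cons, not_or] at hq
          have h1 := ih hq.2
          have h2 := hφ x z hxz
            (fun hh => hq.1 (by rw [hh.1, hh.2]))
            (fun hh => hq.1 (by rw [hh.1, hh.2, Sym2.eq_swap]))
          have h3 := hw x z hxz
          rw [SimpleGraph.Walk.length_cons]
          push_cast
          omega
      have h1 := key p hc.2
      have h2 := hw a b hadj
      rw [SimpleGraph.Walk.length_cons]
      omega
  exact_mod_cast hlen

end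

end Pool.Agent.KB
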