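import Pool.Agent.KB.Girth

/-!
# Graphs of maximum degree three and large girth: the induction
-/

set_option autoImplicit false
set_option linter.unusedSectionVars false

open MvPolynomial
open Pool.Agent.Helper81.CP Pool.Agent.Helper81.HG
open Pool.Agent.Helper50.KR (kirchhoff IsSpanningTree)

namespace Pool.Agent.KB

variable {G : ∀ (R : Type) [CommRing R], Prop}

section

variable {V : Type} [Fintype V]

open Classical in
/-- the cost: how far the weights are from `1` -/
noncomputable def cst (Γ : SimpleGraph V) (w : V → V → ℕ) : ℕ :=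
  ∑ x, ∑ y, if Γ.Adj x y then w x y - 1 else 0

variable [DecidableEq V]

/-- the weights after splitting off the neighbour `a` of `v` -/
def wt1 (w : V → V → ℕ) (v a : V) : Option V → Option V → ℕ := fun i j =>
  match i, j with
  | none, none => 0
  | none, some u => if u = a then w v a - 1 else 1
  | some u, none => if u = a then w v a - 1 else 1
  | some u, some u' => w u u'

/-- the weights with one more vertex -/
def wt2 {W : Type} (w : W → W → ℕ) : Option W → Option W → ℕ := fun i j =>
  match i, j with
  | some u, some u' => w u u'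
  | _, _ => 1

lemma wt1_symm {w : V → V → ℕ} (hw : ∀ x y, w x y = w y x) (v a : V) (i j : Option V) :
    wt1 w v a i j = wt1 w v a j i := by
  rcases i with _ | u <;> rcases j with _ | u'
  · rfl
  · rfl
  · rfl
  · exact hw u u'

lemma wt2_symm {W : Type} {w : W → W → ℕ} (hw : ∀ x y, w x y = w y x) (i j : Option W) :
    wt2 w i j = wt2 w j i := by
  rcases i with _ | u <;> rcases j with _ | u'
  · rfl
  · rfl
  · rfl
  · exact hw u u'

open Classical in
lemma cst_spl {H : SimpleGraph V} {w : V → V → ℕ} (hw : ∀ x y, w x y = w y x) {v a : V}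
    (ha : H.Adj v a) (h2 : 2 ≤ w v a) (ε : Prop) :
    cst (spl H v a a ε) (wt1 w v a) < cst H w := by
  have hva : v ≠ a := ha.ne
  let F : Option V → Option V → ℕ := fun i j =>
    if (spl H v a a ε).Adj i j then wt1 w v a i j - 1 else 0
  have e1 : cst (spl H v a a ε) (wt1 w v a) = F none none + ∑ u, F none (some u) +
      (∑ u, F (some u) none + ∑ u, ∑ u', F (some u) (some u')) := by
    show ∑ i, ∑ j, F i j = _
    rw [Fintype.sum_option, Fintype.sum_option]
    congr 1
    rw [← Finset.sum_add_distrib]
    refine Finset.sum_congr rfl fun u _ => ?_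
    rw [Fintype.sum_option]
  have e2 : F none none = 0 := if_neg (fun h => h)
  have e3 : ∑ u, F none (some u) ≤ w v a - 2 := by
    have h3 : ∀ u, F none (some u) ≤ if u = a then w v a - 2 else 0 := by
      intro u
      show (if (spl H v a a ε).Adj none (some u) then (if u = a then w v a - 1 else 1) - 1 else 0)
        ≤ _
      split_ifs <;> omega
    refine (Finset.sum_le_sum fun u _ => h3 u).trans ?_
    simp
  have e4 : ∑ u, F (some u) none ≤ w v a - 2 := by
    have h3 : ∀ u, F (some u) none ≤ if u = a then w v a - 2 else 0 := by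
      intro u
      show (if (spl H v a a ε).Adj (some u) none then (if u = a then w v a - 1 else 1) - 1 else 0)
        ≤ _
      split_ifs <;> omega
    refine (Finset.sum_le_sum fun u _ => h3 u).trans ?_
    simp
  have e5 : (∑ u, ∑ u', F (some u) (some u')) + 2 * (w v a - 1) ≤ cst H w := by
    let D : V → V → ℕ := fun u u' => (if u = v then if u' = a then w v a - 1 else 0 else 0) +
      (if u = a then if u' = v then w v a - 1 else 0 else 0)
    have h3 : ∀ u u', F (some u) (some u') + D u u' ≤ if H.Adj u u' then w u u' - 1 else 0 := by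
      intro u u'
      have hF : F (some u) (some u') =
          if H.Adj u u' ∧ ¬ (u = v ∧ (u' = a ∨ u' = a)) ∧ ¬ (u' = v ∧ (u = a ∨ u = a)) then
          w u u' - 1 else 0 := by
        show (if (spl H v a a ε).Adj (some u) (some u') then w u u' - 1 else 0) = _
        exact if_congr Iff.rfl rfl rfl
      rw [hF]
      by_cases c1 : u = v ∧ u' = a
      · obtain ⟨rfl, rfl⟩ := c1
        have hD : D u u' = w u u' - 1 := by
          simp [D, hva]
        rw [hD, if_neg (fun h => h.2.1 ⟨rfl, Or.inl rfl⟩), if_pos ha, zero_add]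
      · by_cases c2 : u = a ∧ u' = v
        · obtain ⟨rfl, rfl⟩ := c2
          have hD : D u u' = w u' u - 1 := by
            simp [D, hva.symm]
          rw [hD, if_neg (fun h => h.2.2 ⟨rfl, Or.inl rfl⟩), if_pos ha.symm, zero_add, hw u u']
        · have hD : D u u' = 0 := by
            show (if u = v then if u' = a then w v a - 1 else 0 else 0) +
              (if u = a then if u' = v then w v a - 1 else 0 else 0) = 0
            have t1 : (if u = v then if u' = a then w v a - 1 else 0 else 0) = 0 := by
              split_ifs with q1 q2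
              · exact absurd ⟨q1, q2⟩ c1
              · rfl
              · rfl
            have t2 : (if u = a then if u' = v then w v a - 1 else 0 else 0) = 0 := by
              split_ifs with q1 q2
              · exact absurd ⟨q1, q2⟩ c2
              · rfl
              · rfl
            rw [t1, t2]
          rw [hD, add_zero]
          split_ifs with q1 q2
          · exact le_rfl
          · exact absurd q1.1 q2
          · exact Nat.zero_le _
          · exact le_rfl
    have h4 : ∑ u, ∑ u', D u u' = 2 * (w v a - 1) := by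
      simp only [D, Finset.sum_add_distrib]
      have t1 : ∑ u, ∑ u', (if u = v then if u' = a then w v a - 1 else 0 else 0) =
          w v a - 1 := by
        rw [Finset.sum_eq_single v (fun u _ hu => by simp [hu]) (fun h => absurd (Finset.mem_univ v) h)]
        simp
      have t2 : ∑ u, ∑ u', (if u = a then if u' = v then w v a - 1 else 0 else 0) =
          w v a - 1 := by
        rw [Finset.sum_eq_single a (fun u _ hu => by simp [hu]) (fun h => absurd (Finset.mem_univ a) h)]
        simp
      rw [t1, t2]
      ring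
    rw [← h4, ← Finset.sum_add_distrib]
    refine Finset.sum_le_sum fun u _ => ?_
    rw [← Finset.sum_add_distrib]
    exact Finset.sum_le_sum fun u' _ => h3 u u'
  rw [e1, e2]
  omega

open Classical in
lemma cst_addv {W : Type} [Fintype W] (Γ : SimpleGraph W) (w : W → W → ℕ) (p q : W) :
    cst (addv Γ p q) (wt2 w) = cst Γ w := by
  unfold cst
  rw [Fintype.sum_option]
  have h1 : (∑ y, if (addv Γ p q).Adj none y then wt2 w none y - 1 else 0) = 0 := by
    refine Finset.sum_eq_zero fun y _ => ?_
    rcases y with _ | y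
    · exact if_neg (fun h => h)
    · show (if (addv Γ p q).Adj none (some y) then 1 - 1 else 0) = 0
      split_ifs <;> rfl
  rw [h1, zero_add]
  refine Finset.sum_congr rfl fun x _ => ?_
  rw [Fintype.sum_option]
  have h2 : (if (addv Γ p q).Adj (some x) none then wt2 w (some x) none - 1 else 0) = 0 := by
    show (if (addv Γ p q).Adj (some x) none then 1 - 1 else 0) = 0
    split_ifs <;> rfl
  rw [h2, zero_add]
  rfl

open Classical in
lemma dg_spl_self {H : SimpleGraph V} {v a : V} (ha : H.Adj v a) (ε : Prop) :
    dg (spl H v a a ε) (some v) ≤ dg H v := by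
  let θ : V → Option V := fun w => if w = a then none else some w
  have h : (spl H v a a ε).neighborSet (some v) ⊆ θ '' H.neighborSet v := by
    rintro (_ | w) hw
    · exact ⟨a, ha, if_pos rfl⟩
    · have hw' : H.Adj v w ∧ ¬ (v = v ∧ (w = a ∨ w = a)) ∧ ¬ (w = v ∧ (v = a ∨ v = a)) := hw
      exact ⟨w, hw'.1, if_neg fun h => hw'.2.1 ⟨rfl, Or.inl h⟩⟩
  exact (Set.ncard_le_ncard h (Set.toFinite _)).trans (Set.ncard_image_le (Set.toFinite _))

open Classical in
lemma dg_add_self {H : SimpleGraph V} {v a : V} (ha : H.Adj v a) :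
    dg (addv (spl H v a a False) none (some v)) (some (some v)) ≤ dg H v := by
  have hva : v ≠ a := ha.ne
  let θ : V → Option (Option V) := fun w => if w = a then none else some (some w)
  have h : (addv (spl H v a a False) none (some v)).neighborSet (some (some v)) ⊆
      θ '' H.neighborSet v := by
    rintro (_ | _ | w) hw
    · exact ⟨a, ha, if_pos rfl⟩
    · have hw' : v = a ∨ v = a ∨ (False ∧ v = v) := hw
      rcases hw' with h | h | h
      · exact absurd h hva
      · exact absurd h hva
      · exact absurd h.1 (fun h => h)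
    · have hw' : H.Adj v w ∧ ¬ (v = v ∧ (w = a ∨ w = a)) ∧ ¬ (w = v ∧ (v = a ∨ v = a)) := hw
      exact ⟨w, hw'.1, if_neg fun h => hw'.2.1 ⟨rfl, Or.inl h⟩⟩
  exact (Set.ncard_le_ncard h (Set.toFinite _)).trans (Set.ncard_image_le (Set.toFinite _))

lemma cy_spl {H : SimpleGraph V} {w : V → V → ℕ} {g : ℕ} (hC : Cy H w g)
    (hw : ∀ x y, w x y = w y x) {v a : V} (ha : H.Adj v a) (h2 : 2 ≤ w v a) (ε : Prop) :
    Cy (spl H v a a ε) (wt1 w v a) g := by
  have hva : v ≠ a := ha.ne
  refine cy_sub hC hw (p := a) (q := v) ha.symm (wt1_symm hw v a) ?_ ?_ (fun _ _ => rfl) ?_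
  · intro u u' h
    have h' : H.Adj u u' ∧ ¬ (u = v ∧ (u' = a ∨ u' = a)) ∧ ¬ (u' = v ∧ (u = a ∨ u = a)) := h
    exact ⟨h'.1, fun hh => h'.2.2 ⟨hh.2, Or.inl hh.1⟩, fun hh => h'.2.1 ⟨hh.1, Or.inl hh.2⟩⟩
  · intro u h
    have h' : u = a ∨ u = a ∨ (ε ∧ u = v) := h
    tauto
  · show w a v ≤ (if a = a then w v a - 1 else 1) + (if v = a then w v a - 1 else 1)
    rw [if_pos rfl, if_neg hva, hw a v]
    omega

lemma cy_addv {H : SimpleGraph V} {w : V → V → ℕ} {g : ℕ} (hC : Cy H w g)
    (hw : ∀ x y, w x y = w y x) {v a : V} (ha : H.Adj v a) (h2 : 2 ≤ w v a) :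
    Cy (addv (spl H v a a False) none (some v)) (wt2 (wt1 w v a)) g := by
  have hva : v ≠ a := ha.ne
  have hC' := cy_spl hC hw ha h2 True
  refine cy_sub hC' (wt1_symm hw v a) (p := none) (q := some v) (Or.inr (Or.inr ⟨trivial, rfl⟩))
    (wt2_symm (wt1_symm hw v a)) ?_ (fun _ h => h) (fun _ _ => rfl) ?_
  · intro i j h
    have h0 : (spl H v a a False).Adj i j := h
    refine ⟨?_, ?_, ?_⟩
    · rcases i with _ | u <;> rcases j with _ | u'
      · exact h0
      · have h' : u' = a ∨ u' = a ∨ (False ∧ u' = v) := h0
        show u' = a ∨ u' = a ∨ (True ∧ u' = v)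
        tauto
      · have h' : u = a ∨ u = a ∨ (False ∧ u = v) := h0
        show u = a ∨ u = a ∨ (True ∧ u = v)
        tauto
      · exact h0
    · rintro ⟨rfl, rfl⟩
      have h' : v = a ∨ v = a ∨ (False ∧ v = v) := h0
      tauto
    · rintro ⟨rfl, rfl⟩
      have h' : v = a ∨ v = a ∨ (False ∧ v = v) := h0
      tauto
  · show (if v = a then w v a - 1 else 1) ≤ 1 + 1
    rw [if_neg hva]
    norm_num

end

/-- the Kirchhoff polynomial of a disconnected graph -/
lemma kirchhoff_eq_zero {V : Type} [Fintype V] {H : SimpleGraph V} (h : ¬ H.Connected) :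
    kirchhoff H = 0 := by
  classical
  unfold Pool.Agent.Helper50.KR.kirchhoff
  refine Finset.sum_eq_zero fun T _ => if_neg fun hT => h ?_
  have h1 : (SimpleGraph.fromEdgeSet (Subtype.val '' (T : Set H.edgeSet))).IsTree := hT
  refine h1.connected.mono ?_
  intro x y hxy
  rw [SimpleGraph.fromEdgeSet_adj] at hxy
  obtain ⟨⟨e, _, he⟩, _⟩ := hxy
  rw [← SimpleGraph.mem_edgeSet, ← he]
  exact e.2

/-- **Graphs of maximum degree three and large girth control the graphs of maximum degree
three.** -/
theorem gs_cubic_of_girth (hG : RG G) (hpt : GS G (∅ : Set (MvPolynomial Empty ℤ))) (g : ℕ)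
    (h3 : ∀ (V : Type) [Fintype V] (H : SimpleGraph V), H.Connected → (∀ v, dg H v ≤ 3) →
      (g : ℕ∞) ≤ H.egirth → GS G ({kirchhoff H} : Set (MvPolynomial H.edgeSet ℤ))) :
    ∀ (n : ℕ) (V : Type) [Fintype V] (H : SimpleGraph V) (w : V → V → ℕ),
      (∀ x y, w x y = w y x) → cst H w ≤ n → (∀ v, dg H v ≤ 3) → Cy H w g →
      GS G ({kirchhoff H} : Set (MvPolynomial H.edgeSet ℤ)) := by
  classical
  intro n
  induction n using Nat.strong_induction_on with
  | _ n ih =>
    intro V _ H w hw hn hd hC
    by_cases hc : ∀ x y, H.Adj x y → w x y ≤ 1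
    · by_cases hco : H.Connected
      · exact h3 V H hco hd (girth_of_cy hC hc)
      · rw [kirchhoff_eq_zero hco]
        refine (hG.gs_congr (E := {0}) (E' := ∅) fun A _ x => ?_).mpr (gs_affine hG hpt _)
        constructor
        · intro _ p hp
          exact absurd hp (Set.notMem_empty _)
        · intro _ p hp
          rw [Set.mem_singleton_iff.mp hp, map_zero]
    · push Not at hc
      obtain ⟨v, a, ha, h1⟩ := hc
      have hva : v ≠ a := ha.ne
      have hlt : ∀ ε : Prop, cst (spl H v a a ε) (wt1 w v a) < n := fun ε =>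
        lt_of_lt_of_le (cst_spl hw ha h1 ε) hn
      have hds : ∀ (ε : Prop) (i : Option V), dg (spl H v a a ε) i ≤ 3 := by
        intro ε i
        rcases i with _ | u
        · exact dg_spl_none ε
        · by_cases hu : u = v
          · rw [hu]
            exact (dg_spl_self ha ε).trans (hd v)
          · exact (dg_spl_some hva hva ha ha ε hu).trans (hd u)
      refine kir_step hG hpt (v := v) (a := a) (b := a) ha ha
        (ih _ (hlt False) _ _ _ (wt1_symm hw v a) le_rfl (hds False) (cy_spl hC hw ha h1 False))
        (ih _ (hlt True) _ _ _ (wt1_symm hw v a) le_rfl (hds True) (cy_spl hC hw ha h1 True))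
        (ih _ (hlt False) _ _ _ (wt2_symm (wt1_symm hw v a)) (cst_addv _ _ _ _).le ?_
          (cy_addv hC hw ha h1))
      rintro (_ | _ | u)
      · exact dg_add_none
      · exact dg_add_n
      · by_cases hu : u = v
        · rw [hu]
          exact (dg_add_self ha).trans (hd v)
        · exact (dg_add_some hva hva ha ha hu).trans (hd u)

/-- **Connected graphs of maximum degree three and large girth control all graphs.** -/
theorem gs_all_of_girth (hG : RG G) (hpt : GS G (∅ : Set (MvPolynomial Empty ℤ))) (g : ℕ)
    (h3 : ∀ (V : Type) [Fintype V] (H : SimpleGraph V), H.Connected → (∀ v, dg H v ≤ 3) →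
      (g : ℕ∞) ≤ H.egirth → GS G ({kirchhoff H} : Set (MvPolynomial H.edgeSet ℤ)))
    (V : Type) [Fintype V] (H : SimpleGraph V) :
    GS G ({kirchhoff H} : Set (MvPolynomial H.edgeSet ℤ)) := by
  refine gs_all_of_cubic hG hpt (fun V _ H hd => ?_) _ V H le_rfl
  refine gs_cubic_of_girth hG hpt g h3 _ V H (fun _ _ => g) (fun _ _ => rfl) le_rfl hd ?_
  intro s t _
  exact ⟨fun _ => 0, fun x y _ _ _ => by simp, by simp⟩

end Pool.Agent.KB
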