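import Pool.Agent.KB.Kir

/-!
# From the strata to configurations of vectors and covectors
-/

set_option autoImplicit false
set_option linter.unusedSectionVars false

open Matrix MvPolynomial
open Pool.Agent.Helper81.CP Pool.Agent.Helper81.HG

namespace Pool.Agent.KB

variable {G : ∀ (R : Type) [CommRing R], Prop}

/-- unit coordinates among free coordinates -/
lemma go_free_units (hG : RG G) {σ τ : Type} [Finite σ] [Finite τ] (E : Set (MvPolynomial σ ℤ))
    (T : Finset τ) :
    GO G (rename (Sum.inl : σ → σ ⊕ τ) '' E) (∏ b ∈ T, X (Sum.inr b)) ↔ GS G E := by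
  classical
  induction T using Finset.induction_on with
  | empty => rw [Finset.prod_empty, hG.gl_one, hG.gs_emb Sum.inl Sum.inl_injective]
  | insert b T hb ih =>
    rw [← ih, Finset.prod_insert hb, mul_comm]
    refine hG.gl_gm (Sum.inr b) ?_
    intro A _ x y hxy hx
    refine ⟨?_, ?_⟩
    · rw [pt_ren]
      have h1 := hx.1
      rw [pt_ren] at h1
      have h2 : (fun i => y (Sum.inl i)) = fun i => x (Sum.inl i) :=
        funext fun i => hxy (Sum.inl i) (by simp)
      rw [h2]
      exact h1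
    · have h1 := hx.2
      rw [map_prod] at h1 ⊢
      have h2 : ∀ c ∈ T, ev y (X (Sum.inr c)) = ev x (X (Sum.inr c)) := by
        intro c hc
        rw [ev_X, ev_X]
        exact hxy (Sum.inr c) fun hh => hb (Sum.inr_injective hh ▸ hc)
      rwa [Finset.prod_congr rfl h2]

/-- the systems of orthogonality relations between vectors and covectors -/
noncomputable def orE (d : ℕ) {A B : Type} (E : Set (A × B)) :
    Set (MvPolynomial ((A × Fin d) ⊕ (B × Fin d)) ℤ) :=
  {f | ∃ e ∈ E, f = ∑ i, X (Sum.inl (e.1, i)) * X (Sum.inr (e.2, i))}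

lemma pt_orE {d : ℕ} {A B : Type} {E : Set (A × B)} {K : Type} [CommRing K]
    (x : (A × Fin d) ⊕ (B × Fin d) → K) :
    Pt (orE d E) x ↔ ∀ a b, (a, b) ∈ E → ∑ i, x (Sum.inl (a, i)) * x (Sum.inr (b, i)) = 0 := by
  constructor
  · intro h a b hab
    have := h _ ⟨(a, b), hab, rfl⟩
    rw [map_sum] at this
    simpa only [map_mul, ev_X] using this
  · rintro h f ⟨⟨a, b⟩, hab, rfl⟩
    rw [map_sum]
    simpa only [map_mul, ev_X] using h a b hab

section mat

variable {K : Type} [CommRing K] {m d : ℕ}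

/-- the matrix of rank `d` with given Gram data -/
noncomputable def Mof (W : Fin m → Fin d → K) (q : Fin d → K) :
    Matrix (Fin (m + d)) (Fin (m + d)) K :=
  Matrix.of fun u w => Fin.addCases
    (fun k => Fin.addCases (fun k' => ∑ i, Ring.inverse (q i) * W k i * W k' i) (fun i => W k i) w)
    (fun i => Fin.addCases (fun k' => W k' i) (fun j => if i = j then q i else 0) w) u

/-- its partial inverse -/
noncomputable def Nof (q : Fin d → K) : Matrix (Fin (m + d)) (Fin (m + d)) K :=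
  Matrix.of fun u w => Fin.addCases (fun _ => 0)
    (fun i => Fin.addCases (fun _ => 0) (fun j => if i = j then Ring.inverse (q i) else 0) w) u

@[simp] lemma Mof_cc (W : Fin m → Fin d → K) (q : Fin d → K) (k k' : Fin m) :
    Mof W q (Fin.castAdd d k) (Fin.castAdd d k') = ∑ i, Ring.inverse (q i) * W k i * W k' i := by
  simp [Mof]
@[simp] lemma Mof_cn (W : Fin m → Fin d → K) (q : Fin d → K) (k : Fin m) (i : Fin d) :
    Mof W q (Fin.castAdd d k) (Fin.natAdd m i) = W k i := by
  simp [Mof]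
@[simp] lemma Mof_nc (W : Fin m → Fin d → K) (q : Fin d → K) (k : Fin m) (i : Fin d) :
    Mof W q (Fin.natAdd m i) (Fin.castAdd d k) = W k i := by
  simp [Mof]
@[simp] lemma Mof_nn (W : Fin m → Fin d → K) (q : Fin d → K) (i j : Fin d) :
    Mof W q (Fin.natAdd m i) (Fin.natAdd m j) = if i = j then q i else 0 := by
  simp [Mof]
@[simp] lemma Nof_c (q : Fin d → K) (k : Fin m) (w : Fin (m + d)) :
    Nof q (Fin.castAdd d k) w = 0 := by
  simp [Nof]
@[simp] lemma Nof_nc (q : Fin d → K) (k : Fin m) (i : Fin d) :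
    (Nof q : Matrix (Fin (m + d)) (Fin (m + d)) K) (Fin.natAdd m i) (Fin.castAdd d k) = 0 := by
  simp [Nof]
@[simp] lemma Nof_nn (q : Fin d → K) (i j : Fin d) :
    (Nof q : Matrix (Fin (m + d)) (Fin (m + d)) K) (Fin.natAdd m i) (Fin.natAdd m j) =
      if i = j then Ring.inverse (q i) else 0 := by
  simp [Nof]

lemma nm_c (W : Fin m → Fin d → K) (q : Fin d → K) (k : Fin m) (w : Fin (m + d)) :
    ((Nof q : Matrix (Fin (m + d)) (Fin (m + d)) K) * Mof W q) (Fin.castAdd d k) w = 0 := by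
  rw [mul_apply]
  exact Finset.sum_eq_zero fun j _ => by rw [Nof_c, zero_mul]

lemma nm_nc (W : Fin m → Fin d → K) (q : Fin d → K) (k : Fin m) (i : Fin d) :
    ((Nof q : Matrix (Fin (m + d)) (Fin (m + d)) K) * Mof W q) (Fin.natAdd m i) (Fin.castAdd d k) = Ring.inverse (q i) * W k i := by
  rw [mul_apply, Fin.sum_univ_add]
  simp

lemma nm_nn (W : Fin m → Fin d → K) {q : Fin d → K} (hq : ∀ i, IsUnit (q i)) (i j : Fin d) :
    ((Nof q : Matrix (Fin (m + d)) (Fin (m + d)) K) * Mof W q) (Fin.natAdd m i) (Fin.natAdd m j) = if i = j then 1 else 0 := by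
  rw [mul_apply, Fin.sum_univ_add]
  simp only [Nof_nc, zero_mul, Finset.sum_const_zero, zero_add, Nof_nn, Mof_nn, ite_mul]
  rw [Finset.sum_ite_eq Finset.univ i, if_pos (Finset.mem_univ i)]
  split_ifs
  · exact Ring.inverse_mul_cancel _ (hq i)
  · exact mul_zero _

/-- the last `d` indices are those of the invertible block -/
lemma xp_of (P : Fin (m + d) → Fin (m + d) → Prop) {W : Fin m → Fin d → K} {q : Fin d → K}
    (hq : ∀ i, IsUnit (q i)) (hP : ∀ u w, ¬ P u w → Mof W q u w = 0) :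
    XP P (Set.range (Fin.castAdd d)) (Mof W q) (Nof q) := by
  refine ⟨fun u w => ?_, fun u w => ?_, hP, ?_, fun u w => ?_, ?_, fun u w => ?_⟩
  · refine Fin.addCases (fun k => ?_) (fun i => ?_) u <;>
      refine Fin.addCases (fun k' => ?_) (fun j => ?_) w
    · rw [Mof_cc, Mof_cc]
      exact Finset.sum_congr rfl fun i _ => by ring
    · rw [Mof_cn, Mof_nc]
    · rw [Mof_cn, Mof_nc]
    · rw [Mof_nn, Mof_nn]
      by_cases h : i = j
      · rw [h]
      · rw [if_neg h, if_neg (Ne.symm h)]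
  · refine Fin.addCases (fun k => ?_) (fun i => ?_) u <;>
      refine Fin.addCases (fun k' => ?_) (fun j => ?_) w
    · rw [Nof_c, Nof_c]
    · rw [Nof_c, Nof_nc]
    · rw [Nof_c, Nof_nc]
    · rw [Nof_nn, Nof_nn]
      by_cases h : i = j
      · rw [h]
      · rw [if_neg h, if_neg (Ne.symm h)]
  · rintro _ w ⟨k, rfl⟩
    exact Nof_c q k w
  · refine Fin.addCases (fun k' => ?_) (fun j => ?_) w
    · intro hw; exact absurd ⟨k', rfl⟩ hw
    · intro _
      refine Fin.addCases (fun k => ?_) (fun i => ?_) u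
      · rw [nm_c, Matrix.one_apply_ne]
        intro hh
        have := congrArg Fin.val hh
        simp at this
        omega
      · rw [nm_nn W hq, Matrix.one_apply]
        simp only [Fin.natAdd_inj]
  · ext u w
    rw [mul_apply, Fin.sum_univ_add]
    simp only [nm_c, mul_zero, Finset.sum_const_zero, zero_add]
    refine Fin.addCases (fun k' => ?_) (fun j => ?_) w
    · simp only [nm_nc]
      refine Fin.addCases (fun k => ?_) (fun i => ?_) u
      · rw [Mof_cc]
        refine Finset.sum_congr rfl fun i _ => ?_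
        rw [Mof_cn]; ring
      · rw [Mof_nc]
        simp only [Mof_nn, ite_mul, zero_mul]
        rw [Finset.sum_ite_eq Finset.univ i, if_pos (Finset.mem_univ i), ← mul_assoc,
          Ring.mul_inverse_cancel _ (hq i), one_mul]
    · simp only [nm_nn W hq, mul_ite, mul_one, mul_zero]
      rw [Finset.sum_ite_eq' Finset.univ j, if_pos (Finset.mem_univ j)]
  · refine Fin.addCases (fun k => ?_) (fun i => ?_) u
    · intro _; exact nm_c W q k w
    · refine Fin.addCases (fun k' => ?_) (fun j => ?_) w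
      · intro hh
        rw [Fin.lt_def] at hh
        simp at hh
        omega
      · intro hh
        rw [nm_nn W hq, if_neg]
        rintro rfl
        exact absurd hh (lt_irrefl _)

variable {P : Fin (m + d) → Fin (m + d) → Prop} {M N : Matrix (Fin (m + d)) (Fin (m + d)) K}

lemma cN (h : XP P (Set.range (Fin.castAdd d)) M N)
    (hP : ∀ i j : Fin d, i ≠ j → ¬ P (Fin.natAdd m i) (Fin.natAdd m j)) (i j : Fin d) :
    N (Fin.natAdd m i) (Fin.natAdd m j) * M (Fin.natAdd m j) (Fin.natAdd m j) =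
      if i = j then 1 else 0 := by
  have h1 := h.inv (Fin.natAdd m i) (Fin.natAdd m j) (by
    rintro ⟨k, hk⟩
    have := congrArg Fin.val hk
    simp at this
    omega)
  rw [mul_apply, Fin.sum_univ_add] at h1
  have h2 : ∀ k : Fin m, N (Fin.natAdd m i) (Fin.castAdd d k) = 0 := fun k => h.sup' _ _ ⟨k, rfl⟩
  simp only [h2, zero_mul, Finset.sum_const_zero, zero_add] at h1
  rw [Finset.sum_eq_single j] at h1
  · rw [h1, Matrix.one_apply]
    simp only [Fin.natAdd_inj]
  · intro l _ hl
    rw [h.pat _ _ (hP l j hl), mul_zero]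
  · intro hh; exact absurd (Finset.mem_univ j) hh

lemma qUnit (h : XP P (Set.range (Fin.castAdd d)) M N)
    (hP : ∀ i j : Fin d, i ≠ j → ¬ P (Fin.natAdd m i) (Fin.natAdd m j)) (i : Fin d) :
    IsUnit (M (Fin.natAdd m i) (Fin.natAdd m i)) := by
  have h1 := cN h hP i i
  rw [if_pos rfl] at h1
  exact IsUnit.of_mul_eq_one_right _ h1

lemma N_eq (h : XP P (Set.range (Fin.castAdd d)) M N)
    (hP : ∀ i j : Fin d, i ≠ j → ¬ P (Fin.natAdd m i) (Fin.natAdd m j)) :
    N = Nof (fun i => M (Fin.natAdd m i) (Fin.natAdd m i)) := by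
  ext u w
  refine Fin.addCases (fun k => ?_) (fun i => ?_) u
  · rw [Nof_c, h.sup _ _ ⟨k, rfl⟩]
  · refine Fin.addCases (fun k' => ?_) (fun j => ?_) w
    · rw [Nof_nc, h.sup' _ _ ⟨k', rfl⟩]
    · rw [Nof_nn]
      have h1 := cN h hP i j
      have h2 := Ring.mul_inverse_cancel _ (qUnit h hP j)
      have h3 : N (Fin.natAdd m i) (Fin.natAdd m j) =
          (if i = j then 1 else 0) * Ring.inverse (M (Fin.natAdd m j) (Fin.natAdd m j)) := by
        rw [← h1, mul_assoc, h2, mul_one]
      rw [h3]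
      split_ifs with hij
      · rw [hij, one_mul]
      · rw [zero_mul]

lemma M_eq (h : XP P (Set.range (Fin.castAdd d)) M N)
    (hP : ∀ i j : Fin d, i ≠ j → ¬ P (Fin.natAdd m i) (Fin.natAdd m j)) :
    M = Mof (fun k i => M (Fin.natAdd m i) (Fin.castAdd d k))
      (fun i => M (Fin.natAdd m i) (Fin.natAdd m i)) := by
  have hN := N_eq h hP
  ext u w
  refine Fin.addCases (fun k => ?_) (fun i => ?_) u <;>
    refine Fin.addCases (fun k' => ?_) (fun j => ?_) w
  · rw [Mof_cc]
    have h1 := congrFun (congrFun h.ker (Fin.castAdd d k)) (Fin.castAdd d k')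
    rw [mul_apply, Fin.sum_univ_add] at h1
    have h2 : ∀ l : Fin m, (N * M) (Fin.castAdd d l) (Fin.castAdd d k') = 0 := by
      intro l
      rw [mul_apply]
      exact Finset.sum_eq_zero fun j _ => by rw [h.sup _ _ ⟨l, rfl⟩, zero_mul]
    have h3 : ∀ i : Fin d, (N * M) (Fin.natAdd m i) (Fin.castAdd d k') =
        Ring.inverse (M (Fin.natAdd m i) (Fin.natAdd m i)) *
          M (Fin.natAdd m i) (Fin.castAdd d k') := by
      intro i
      rw [mul_apply, Fin.sum_univ_add, hN]
      simp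
    simp only [h2, h3, mul_zero, Finset.sum_const_zero, zero_add] at h1
    rw [← h1]
    refine Finset.sum_congr rfl fun i _ => ?_
    rw [h.symM (Fin.castAdd d k) (Fin.natAdd m i)]
    ring
  · rw [Mof_cn, h.symM]
  · rw [Mof_nc]
  · rw [Mof_nn]
    split_ifs with hij
    · rw [hij]
    · exact h.pat _ _ (hP i j hij)

end mat

/-- the pattern of the orthogonality relations -/
def oP {m : ℕ} (d : ℕ) {A B : Type} (e : A ⊕ B ≃ Fin m) (E : Set (A × B))
    (u w : Fin (m + d)) : Prop :=
  ¬ ((∃ a b, (a, b) ∈ E ∧ ((u = Fin.castAdd d (e (Sum.inl a)) ∧ w = Fin.castAdd d (e (Sum.inr b))) ∨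
      (w = Fin.castAdd d (e (Sum.inl a)) ∧ u = Fin.castAdd d (e (Sum.inr b))))) ∨
    (∃ i j : Fin d, i ≠ j ∧ u = Fin.natAdd m i ∧ w = Fin.natAdd m j))

lemma oP_refl {m : ℕ} (d : ℕ) {A B : Type} (e : A ⊕ B ≃ Fin m) (E : Set (A × B))
    (u : Fin (m + d)) : oP d e E u u := by
  rintro (⟨a, b, _, h⟩ | ⟨i, j, hij, h1, h2⟩)
  · have : Fin.castAdd d (e (Sum.inl a)) = Fin.castAdd d (e (Sum.inr b)) := by
      rcases h with ⟨h1, h2⟩ | ⟨h1, h2⟩
      · rw [← h1, ← h2]
      · rw [← h1, ← h2]
    have := e.injective (Fin.castAdd_injective m d this)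
    exact absurd this (by simp)
  · have : Fin.natAdd m i = Fin.natAdd m j := h1.symm.trans h2
    exact hij ((Fin.natAdd_inj m).mp this)

/-- the vectors of a configuration -/
def Wof {m d : ℕ} {A B K : Type} [CommRing K] (e : A ⊕ B ≃ Fin m)
    (x : (A × Fin d) ⊕ (B × Fin d) → K) (q : Fin d → K) (k : Fin m) (i : Fin d) : K :=
  Sum.elim (fun a => x (Sum.inl (a, i))) (fun b => q i * x (Sum.inr (b, i))) (e.symm k)

lemma map_Wof {m d : ℕ} {A B K L : Type} [CommRing K] [CommRing L] (φ : K →+* L)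
    (e : A ⊕ B ≃ Fin m) (x : (A × Fin d) ⊕ (B × Fin d) → K) (q : Fin d → K) (k : Fin m)
    (i : Fin d) : φ (Wof e x q k i) = Wof e (fun j => φ (x j)) (fun j => φ (q j)) k i := by
  unfold Wof
  rcases e.symm k with a | b
  · rfl
  · exact map_mul φ _ _

theorem gs_or (hG : RG G) {d : ℕ}
    (hs : ∀ (n : ℕ) (P : Fin n → Fin n → Prop), (∀ i, P i i) → ∀ S : Set (Fin n), GS G (XE P S))
    {A B : Type} [Finite A] [Finite B] (E : Set (A × B)) : GS G (orE d E) := by
  classical
  obtain ⟨m, ⟨e⟩⟩ := Finite.exists_equiv_fin (A ⊕ B)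
  have hP : ∀ i j : Fin d, i ≠ j → ¬ oP d e E (Fin.natAdd m i) (Fin.natAdd m j) :=
    fun i j hij h => h (Or.inr ⟨i, j, hij, rfl, rfl⟩)
  have hX := hs (m + d) (oP d e E) (oP_refl d e E) (Set.range (Fin.castAdd d))
  rw [← hG.gl_one] at hX
  refine (go_free_units hG (orE d E) (Finset.univ : Finset (Fin d))).mp ?_
  have hqu : ∀ (K : Type) [CommRing K] (y : ((A × Fin d) ⊕ (B × Fin d)) ⊕ Fin d → K),
      Lc (rename (Sum.inl : (A × Fin d) ⊕ (B × Fin d) → _ ⊕ Fin d) '' orE d E)
        (∏ b ∈ (Finset.univ : Finset (Fin d)), X (Sum.inr b)) y → ∀ i, IsUnit (y (Sum.inr i)) := by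
    intro K _ y hy i
    have h1 := hy.2
    rw [map_prod] at h1
    simp only [ev_X] at h1
    exact isUnit_of_dvd_unit
      (Finset.dvd_prod_of_mem (fun b => y (Sum.inr b)) (Finset.mem_univ i)) h1
  refine (hG.gl_iso (E := XE (oP d e E) (Set.range (Fin.castAdd d))) (p := 1)
    (E' := rename (Sum.inl : (A × Fin d) ⊕ (B × Fin d) → _ ⊕ Fin d) '' orE d E)
    (p' := ∏ b ∈ (Finset.univ : Finset (Fin d)), X (Sum.inr b))
    (fun K _ x => Sum.elim (Sum.elim
      (fun p => mx x (Fin.natAdd m p.2) (Fin.castAdd d (e (Sum.inl p.1))))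
      (fun p => Ring.inverse (mx x (Fin.natAdd m p.2) (Fin.natAdd m p.2)) *
        mx x (Fin.natAdd m p.2) (Fin.castAdd d (e (Sum.inr p.1)))))
      (fun i => mx x (Fin.natAdd m i) (Fin.natAdd m i)))
    (fun K _ y => pk (Mof (Wof e (fun j => y (Sum.inl j)) (fun i => y (Sum.inr i)))
      (fun i => y (Sum.inr i))) (Nof (fun i => y (Sum.inr i))))
    ?_ ?_ ?_ ?_ ?_ ?_).mp hX
  · intro K L _ _ φ x hx j
    have hX := (pt_XE x).mp hx.1
    rcases j with (p | p) | i
    · rfl
    · show φ (_ * _) = _ * _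
      rw [map_mul, map_inv_of_unit φ (qUnit hX hP p.2)]
      rfl
    · rfl
  · intro K L _ _ φ y hy i
    have hq := hqu K y hy
    rcases i with ⟨u, w⟩ | ⟨u, w⟩
    · show φ (Mof _ _ u w) = Mof _ _ u w
      refine Fin.addCases (fun k => ?_) (fun i => ?_) u <;>
        refine Fin.addCases (fun k' => ?_) (fun j => ?_) w
      · rw [Mof_cc, Mof_cc, map_sum]
        refine Finset.sum_congr rfl fun i _ => ?_
        rw [map_mul, map_mul, map_inv_of_unit φ (hq i), map_Wof, map_Wof]
      · rw [Mof_cn, Mof_cn, map_Wof]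
      · rw [Mof_nc, Mof_nc, map_Wof]
      · rw [Mof_nn, Mof_nn]
        split_ifs
        · rfl
        · exact map_zero φ
    · show φ (Nof _ u w) = Nof _ u w
      refine Fin.addCases (fun k => ?_) (fun i => ?_) u <;>
        refine Fin.addCases (fun k' => ?_) (fun j => ?_) w
      · rw [Nof_c, Nof_c, map_zero]
      · rw [Nof_c, Nof_c, map_zero]
      · rw [Nof_nc, Nof_nc, map_zero]
      · rw [Nof_nn, Nof_nn]
        split_ifs
        · exact map_inv_of_unit φ (hq i)
        · exact map_zero φ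
  · intro K _ x hx
    have hX := (pt_XE x).mp hx.1
    refine ⟨?_, ?_⟩
    · rw [pt_ren, pt_orE]
      intro a b hab
      have h1 : mx x (Fin.castAdd d (e (Sum.inl a))) (Fin.castAdd d (e (Sum.inr b))) = 0 :=
        hX.pat _ _ fun h => h (Or.inl ⟨a, b, hab, Or.inl ⟨rfl, rfl⟩⟩)
      rw [M_eq hX hP, Mof_cc] at h1
      rw [← h1]
      refine Finset.sum_congr rfl fun i _ => ?_
      show mx x (Fin.natAdd m i) (Fin.castAdd d (e (Sum.inl a))) *
        (Ring.inverse (mx x (Fin.natAdd m i) (Fin.natAdd m i)) *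
        mx x (Fin.natAdd m i) (Fin.castAdd d (e (Sum.inr b)))) = _
      ring
    · rw [map_prod]
      simp only [ev_X]
      exact IsUnit.prod_iff.mpr fun i _ => qUnit hX hP i
  · intro K _ y hy
    have hq := hqu K y hy
    have h1 := hy.1
    rw [pt_ren, pt_orE] at h1
    refine ⟨?_, by rw [map_one]; exact isUnit_one⟩
    rw [pt_XE, mx_pk, nx_pk]
    refine xp_of _ hq ?_
    intro u w huw
    rcases not_not.mp huw with ⟨a, b, hab, ⟨rfl, rfl⟩ | ⟨rfl, rfl⟩⟩ | ⟨i, j, hij, rfl, rfl⟩
    · rw [Mof_cc, ← h1 a b hab]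
      refine Finset.sum_congr rfl fun i _ => ?_
      unfold Wof
      rw [e.symm_apply_apply, e.symm_apply_apply]
      simp only [Sum.elim_inl, Sum.elim_inr]
      linear_combination (y (Sum.inl (Sum.inl (a, i))) * y (Sum.inl (Sum.inr (b, i)))) *
        Ring.inverse_mul_cancel _ (hq i)
    · rw [Mof_cc, ← h1 a b hab]
      refine Finset.sum_congr rfl fun i _ => ?_
      unfold Wof
      rw [e.symm_apply_apply, e.symm_apply_apply]
      simp only [Sum.elim_inl, Sum.elim_inr]
      linear_combination (y (Sum.inl (Sum.inl (a, i))) * y (Sum.inl (Sum.inr (b, i)))) *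
        Ring.inverse_mul_cancel _ (hq i)
    · rw [Mof_nn, if_neg hij]
  · intro K _ x hx
    have hX := (pt_XE x).mp hx.1
    have hW : Wof e (Sum.elim
        (fun p => mx x (Fin.natAdd m p.2) (Fin.castAdd d (e (Sum.inl p.1))))
        (fun p => Ring.inverse (mx x (Fin.natAdd m p.2) (Fin.natAdd m p.2)) *
          mx x (Fin.natAdd m p.2) (Fin.castAdd d (e (Sum.inr p.1)))))
        (fun i => mx x (Fin.natAdd m i) (Fin.natAdd m i)) =
        fun k i => mx x (Fin.natAdd m i) (Fin.castAdd d k) := by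
      funext k i
      unfold Wof
      obtain ⟨c, rfl⟩ := e.surjective k
      rw [e.symm_apply_apply]
      rcases c with a | b
      · rfl
      · simp only [Sum.elim_inr]
        rw [← mul_assoc, Ring.mul_inverse_cancel _ (qUnit hX hP i), one_mul]
    refine Eq.trans ?_ (pk_eta x)
    show pk (Mof (Wof e (Sum.elim
        (fun p => mx x (Fin.natAdd m p.2) (Fin.castAdd d (e (Sum.inl p.1))))
        (fun p => Ring.inverse (mx x (Fin.natAdd m p.2) (Fin.natAdd m p.2)) *
          mx x (Fin.natAdd m p.2) (Fin.castAdd d (e (Sum.inr p.1)))))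
        (fun i => mx x (Fin.natAdd m i) (Fin.natAdd m i)))
      (fun i => mx x (Fin.natAdd m i) (Fin.natAdd m i)))
      (Nof (fun i => mx x (Fin.natAdd m i) (Fin.natAdd m i))) = pk (mx x) (nx x)
    rw [hW, ← M_eq hX hP, ← N_eq hX hP]
  · intro K _ y hy
    have hq := hqu K y hy
    funext j
    rcases j with (⟨a, i⟩ | ⟨b, i⟩) | i
    · show Mof (Wof e (fun j => y (Sum.inl j)) (fun i => y (Sum.inr i)))
        (fun i => y (Sum.inr i)) (Fin.natAdd m i) (Fin.castAdd d (e (Sum.inl a))) = _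
      rw [Mof_nc]
      unfold Wof
      rw [e.symm_apply_apply]
      rfl
    · show Ring.inverse (Mof (Wof e (fun j => y (Sum.inl j)) (fun i => y (Sum.inr i)))
          (fun i => y (Sum.inr i)) (Fin.natAdd m i) (Fin.natAdd m i)) *
        Mof (Wof e (fun j => y (Sum.inl j)) (fun i => y (Sum.inr i)))
          (fun i => y (Sum.inr i)) (Fin.natAdd m i) (Fin.castAdd d (e (Sum.inr b))) = _
      rw [Mof_nc, Mof_nn, if_pos rfl]
      unfold Wof
      rw [e.symm_apply_apply]
      simp only [Sum.elim_inr]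
      rw [← mul_assoc, Ring.inverse_mul_cancel _ (hq i), one_mul]
    · show Mof (Wof e (fun j => y (Sum.inl j)) (fun i => y (Sum.inr i)))
        (fun i => y (Sum.inr i)) (Fin.natAdd m i) (Fin.natAdd m i) = _
      rw [Mof_nn, if_pos rfl]

end Pool.Agent.KB
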