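import Pool.Agent.KB.Pieces2

/-!
# All strata are controlled by the open ones
-/

set_option autoImplicit false
set_option linter.unusedSectionVars false

open Matrix MvPolynomial
open Pool.Agent.Helper81.CP Pool.Agent.Helper81.HG

namespace Pool.Agent.KB

variable {G : ∀ (R : Type) [CommRing R], Prop} {n : ℕ}

lemma go_empty (hG : RG G) {σ : Type} {E : Set (MvPolynomial σ ℤ)} {p : MvPolynomial σ ℤ}
    (h : ∀ (A : Type) [CommRing A] (x : σ → A), Lc E p x → (1 : A) = 0) : GO G E p := by
  refine hG.triv _ ?_
  have h1 := (rep_rng (dop p E)).pt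
  rw [Pt.dop_iff_lc] at h1
  exact subsingleton_of_zero_eq_one (h _ _ h1.1).symm

lemma go_of_unit (hG : RG G) {σ : Type} [Finite σ] {E : Set (MvPolynomial σ ℤ)}
    {p : MvPolynomial σ ℤ}
    (h : ∀ (A : Type) [CommRing A] (x : σ → A), Pt E x → IsUnit (ev x p)) :
    GO G E p ↔ GS G E := by
  rw [← hG.gl_one]
  refine hG.gl_congr fun A _ x => ⟨fun hx => ⟨hx.1, by rw [map_one]; exact isUnit_one⟩,
    fun hx => ⟨hx.1, h A x hx.1⟩⟩

lemma bP_refl {a : Fin n} {P : Fin n → Fin n → Prop} (hP : ∀ i, P i i) (i : Fin (n + 1)) :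
    bP a P i i := by
  refine Fin.cases ?_ (fun i => ?_) i
  · exact trivial
  · exact hP i

theorem strata_step (hG : RG G) (P : Fin n → Fin n → Prop) (S : Set (Fin n))
    (h0 : GS G (XE P S)) (h1 : ∀ a, GS G (XE (bP a P) (Fin.succ '' S))) :
    ∀ (k : ℕ) (a : Fin n), a.val = k → a ∉ S → GS G (XE P (insert a S)) := by
  intro k
  induction k using Nat.strong_induction_on with
  | _ k ih =>
    intro a hak ha
    have hes : ∀ r, r ≤ a.val → GS G (ES a P S r) := by
      intro r
      induction r with
      | zero =>
        intro _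
        have h2 := hG.gs_closed (h1 a) (piece1 hG a P S h0)
        refine (hG.gs_congr fun A _ x => ?_).mp h2
        rw [Pt.insert_iff, ev_X, pt_ES]
        constructor
        · rintro ⟨h3, h4⟩
          exact ⟨h4, h3, fun i hi => absurd hi (Nat.not_lt_zero _)⟩
        · rintro ⟨h3, h4, _⟩
          exact ⟨h4, h3⟩
      | succ r ihr =>
        intro hr
        have h2 := ihr (by omega)
        let i : Fin n := ⟨r, lt_trans (Nat.lt_of_succ_le hr) a.2⟩
        have h3 : GO G (ES a P S r) (X (Sum.inr (i.succ, 0))) := by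
          by_cases hi : i ∈ S
          · refine go_empty hG fun A _ x hx => ?_
            have ht := tp_of_pt ((pt_ES x).mp hx.1).1
            have h4 := hx.2
            rw [ev_X] at h4
            have h5 : bb (nx x) i = 0 := ht.supz i hi
            have h6 : IsUnit (bb (nx x) i) := h4
            rw [h5] at h6
            exact (isUnit_zero_iff.mp h6).symm
          · refine (piece2 hG a i P S hi ?_).mpr (ih r (by omega) i rfl hi)
            rw [Fin.le_def]
            show r ≤ a.val
            omega
        have h4 := hG.gs_closed h2 h3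
        refine (hG.gs_congr fun A _ x => ?_).mp h4
        rw [Pt.insert_iff, ev_X, pt_ES, pt_ES]
        constructor
        · rintro ⟨h5, h6, h7, h8⟩
          refine ⟨h6, h7, fun j hj => ?_⟩
          rcases Nat.lt_succ_iff_lt_or_eq.mp hj with hj | hj
          · exact h8 j hj
          · have : j = i := Fin.ext hj
            rw [this]
            exact h5
        · rintro ⟨h6, h7, h8⟩
          exact ⟨h8 i (Nat.lt_succ_self r), h6, h7, fun j hj => h8 j (Nat.lt_succ_of_lt hj)⟩
    have h2 := hes a.val le_rfl
    rw [← piece2 hG a a P S ha le_rfl]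
    rw [go_of_unit hG]
    · exact h2
    · intro A _ x hx
      rw [ev_X]
      obtain ⟨h3, h4, h5⟩ := (pt_ES x).mp hx
      have ht := tp_of_pt h3
      rw [h4] at ht
      have h6 := ht.zv
      have h7 : bb (nx x) ⬝ᵥ bb (mx x) = bb (nx x) a * bb (mx x) a := by
        simp only [dotProduct]
        refine Finset.sum_eq_single a (fun j _ hj => ?_) (fun hh => absurd (Finset.mem_univ a) hh)
        rcases lt_or_gt_of_ne hj with hj | hj
        · rw [h5 j hj, zero_mul]
        · rw [ht.va j hj, mul_zero]
      rw [h7] at h6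
      exact IsUnit.of_mul_eq_one _ h6

/-- **All strata are in the class if the open ones are.** -/
theorem strata (hG : RG G)
    (hb : ∀ (n : ℕ) (P : Fin n → Fin n → Prop), (∀ i, P i i) → GS G (XE P ∅)) :
    ∀ (c n : ℕ) (P : Fin n → Fin n → Prop), (∀ i, P i i) → ∀ S : Set (Fin n), S.ncard = c →
      GS G (XE P S) := by
  intro c
  induction c with
  | zero =>
    intro n P hP S hS
    rw [(Set.ncard_eq_zero (Set.toFinite S)).mp hS]
    exact hb n P hP
  | succ c ih =>
    intro n P hP S hS
    obtain ⟨a, S', ha, rfl, hS'⟩ := Set.eq_insert_of_ncard_eq_succ hS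
    refine strata_step hG P S' (ih n P hP S' hS') (fun b => ?_) a.val a rfl ha
    refine ih (n + 1) (bP b P) (bP_refl hP) _ ?_
    rw [Set.ncard_image_of_injective _ (Fin.succ_injective n), hS']

end Pool.Agent.KB
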