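import Pool.Agent.KB.Ind
import Pool.Agent.Helper80.KR.Kir

/-!
# From graph hypersurfaces to the open strata
-/

set_option autoImplicit false
set_option linter.unusedSectionVars false

open Matrix MvPolynomial
open Pool.Agent.Helper81.CP Pool.Agent.Helper81.HG
open Pool.Agent.Helper50.KR (kirchhoff coneGraph redLap matrix_tree)
open Pool.Agent.Helper50.KR.ConeAux (phi wt phi_symm phi_surj phi_inj det_phi phi_off_not)

namespace Pool.Agent.KB

variable {G : ∀ (R : Type) [CommRing R], Prop} {n : ℕ}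

/-- the matrix with given entries -/
def sx {A : Type} (x : Fin n × Fin n → A) : Matrix (Fin n) (Fin n) A := Matrix.of fun i j => x (i, j)

/-- the generic matrix -/
noncomputable def GX (n : ℕ) : Matrix (Fin n) (Fin n) (MvPolynomial (Fin n × Fin n) ℤ) := sx X

/-- symmetric matrices with pattern `P` -/
noncomputable def SE (P : Fin n → Fin n → Prop) : Set (MvPolynomial (Fin n × Fin n) ℤ) :=
  {f | (∃ i j, f = GX n i j - GX n j i) ∨ (∃ i j, ¬ P i j ∧ f = GX n i j)}

lemma ev_GX {A : Type} [CommRing A] (x : Fin n × Fin n → A) (i j : Fin n) :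
    ev x (GX n i j) = sx x i j := ev_X x _

lemma pt_SE {A : Type} [CommRing A] {P : Fin n → Fin n → Prop} (x : Fin n × Fin n → A) :
    Pt (SE P) x ↔ (∀ i j, sx x i j = sx x j i) ∧ ∀ i j, ¬ P i j → sx x i j = 0 := by
  constructor
  · intro h
    refine ⟨fun i j => ?_, fun i j hij => ?_⟩
    · have := h _ (Or.inl ⟨i, j, rfl⟩)
      rw [map_sub, ev_GX, ev_GX] at this
      exact sub_eq_zero.mp this
    · have := h _ (Or.inr ⟨i, j, hij, rfl⟩)
      rwa [ev_GX] at this
  · rintro ⟨h1, h2⟩ f (⟨i, j, rfl⟩ | ⟨i, j, hij, rfl⟩)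
    · rw [map_sub, ev_GX, ev_GX, h1 i j, sub_self]
    · rw [ev_GX, h2 i j hij]

lemma ev_det {A : Type} [CommRing A] (x : Fin n × Fin n → A) :
    ev x (GX n).det = (sx x).det := by
  rw [RingHom.map_det]
  congr 1
  ext i j
  exact ev_GX x i j

/-- the open stratum -/
lemma gs_open_stratum (hG : RG G) (P : Fin n → Fin n → Prop) (h : GO G (SE P) (GX n).det) :
    GS G (XE P ∅) := by
  rw [← hG.gl_one]
  refine (hG.gl_iso (E := XE P ∅) (p := 1) (E' := SE P) (p' := (GX n).det)
    (fun A _ x => fun q => mx x q.1 q.2)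
    (fun A _ x => pk (sx x) (Ring.inverse (sx x).det • (sx x).adjugate)) ?_ ?_ ?_ ?_ ?_ ?_).mpr h
  · intro A B _ _ φ x _ j; rfl
  · intro A B _ _ φ y hy i
    have hu : IsUnit (sx y).det := by
      have := hy.2
      rwa [ev_det] at this
    have hm : (sx y).map φ = sx (fun j => φ (y j)) := rfl
    rcases i with ⟨i, j⟩ | ⟨i, j⟩
    · rfl
    · show φ (_ * _) = _ * _
      rw [map_mul, map_inv_of_unit φ hu, RingHom.map_det]
      have := RingHom.map_adjugate φ (sx y)
      exact congrArg (fun z => Ring.inverse ((φ.mapMatrix (sx y)).det) * z)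
        (congrFun (congrFun this i) j)
  · intro A _ x hx
    have h1 := (pt_XE x).mp hx.1
    refine ⟨?_, ?_⟩
    · rw [pt_SE]
      exact ⟨h1.symM, h1.pat⟩
    · rw [ev_det]
      show IsUnit (mx x).det
      have h2 : nx x * mx x = 1 := by
        ext i j
        exact h1.inv i j (Set.notMem_empty _)
      have h3 : (nx x).det * (mx x).det = 1 := by rw [← det_mul, h2, det_one]
      exact IsUnit.of_mul_eq_one_right _ h3
  · intro A _ y hy
    have hu : IsUnit (sx y).det := by
      have := hy.2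
      rwa [ev_det] at this
    obtain ⟨h1, h2⟩ := (pt_SE y).mp hy.1
    have hs : (sx y)ᵀ = sx y := by ext i j; exact h1 j i
    have h3 : (Ring.inverse (sx y).det • (sx y).adjugate) * sx y = 1 := by
      rw [smul_mul_assoc, adjugate_mul, smul_smul, Ring.inverse_mul_cancel _ hu, one_smul]
    refine ⟨?_, by rw [map_one]; exact isUnit_one⟩
    rw [pt_XE, mx_pk, nx_pk]
    refine ⟨h1, fun i j => ?_, h2, fun i j hi => absurd hi (Set.notMem_empty _), fun i j _ => ?_, ?_,
      fun i j hij => ?_⟩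
    · have h4 : (Ring.inverse (sx y).det • (sx y).adjugate)ᵀ =
          Ring.inverse (sx y).det • (sx y).adjugate := by
        rw [transpose_smul, adjugate_transpose, hs]
      exact congrFun (congrFun h4 j) i
    · rw [h3]
    · rw [h3, mul_one]
    · rw [h3, Matrix.one_apply_ne hij.ne]
  · intro A _ x hx
    have h1 := (pt_XE x).mp hx.1
    have h2 : nx x * mx x = 1 := by
      ext i j
      exact h1.inv i j (Set.notMem_empty _)
    have h4 : IsUnit (mx x).det := by
      have h3 : (nx x).det * (mx x).det = 1 := by rw [← det_mul, h2, det_one]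
      exact IsUnit.of_mul_eq_one_right _ h3
    refine Eq.trans ?_ (pk_eta x)
    show pk (mx x) (Ring.inverse (mx x).det • (mx x).adjugate) = pk (mx x) (nx x)
    congr 1
    have h3 : (Ring.inverse (mx x).det • (mx x).adjugate) * mx x = 1 := by
      rw [smul_mul_assoc, adjugate_mul, smul_smul, Ring.inverse_mul_cancel _ h4, one_smul]
    have h5 : mx x * nx x = 1 := mul_eq_one_comm.mp h2
    calc Ring.inverse (mx x).det • (mx x).adjugate
        = (Ring.inverse (mx x).det • (mx x).adjugate) * (mx x * nx x) := by rw [h5, mul_one]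
      _ = nx x := by rw [← mul_assoc, h3, one_mul]
  · intro A _ y _
    rfl

/-- affine spaces -/
lemma gs_affine (hG : RG G) (h0 : GS G (∅ : Set (MvPolynomial Empty ℤ))) (τ : Type) [Finite τ] :
    GS G (∅ : Set (MvPolynomial τ ℤ)) := by
  have h1 := (hG.gs_emb (τ := τ) (fun e : Empty => e.elim) (fun a => a.elim) ∅).mpr h0
  rwa [Set.image_empty] at h1

/-- symmetric matrices with pattern `P` form an affine space -/
lemma gs_SE (hG : RG G) (h0 : GS G (∅ : Set (MvPolynomial Empty ℤ))) (P : Fin n → Fin n → Prop) :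
    GS G (SE P) := by
  classical
  refine (hG.gs_iso (E := SE P)
    (E' := (∅ : Set (MvPolynomial {q : Fin n × Fin n // q.1 ≤ q.2 ∧ P q.1 q.2 ∧ P q.2 q.1} ℤ)))
    (fun A _ x => fun q => x q.1)
    (fun A _ y => fun q => if h : q.1 ≤ q.2 ∧ P q.1 q.2 ∧ P q.2 q.1 then y ⟨q, h⟩ else
      if h : q.2 ≤ q.1 ∧ P q.2 q.1 ∧ P q.1 q.2 then y ⟨(q.2, q.1), h⟩ else 0)
    ?_ ?_ ?_ ?_ ?_ ?_).mpr (gs_affine hG h0 _)
  · intro A B _ _ φ x _ j; rfl
  · intro A B _ _ φ y _ q
    dsimp only
    split_ifs
    · rfl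
    · rfl
    · exact map_zero φ
  · intro A _ x _ f hf; exact absurd hf (Set.notMem_empty _)
  · intro A _ y _
    rw [pt_SE]
    constructor
    · intro i j
      show (if h : i ≤ j ∧ P i j ∧ P j i then y ⟨(i, j), h⟩ else
        if h : j ≤ i ∧ P j i ∧ P i j then y ⟨(j, i), h⟩ else 0) =
        (if h : j ≤ i ∧ P j i ∧ P i j then y ⟨(j, i), h⟩ else
        if h : i ≤ j ∧ P i j ∧ P j i then y ⟨(i, j), h⟩ else 0)
      by_cases h1 : i ≤ j ∧ P i j ∧ P j i
      · by_cases h2 : j ≤ i ∧ P j i ∧ P i j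
        · rw [dif_pos h1, dif_pos h2]
          have : i = j := le_antisymm h1.1 h2.1
          subst this
          rfl
        · rw [dif_pos h1, dif_neg h2, dif_pos h1]
      · by_cases h2 : j ≤ i ∧ P j i ∧ P i j
        · rw [dif_neg h1, dif_pos h2, dif_pos h2]
        · rw [dif_neg h1, dif_neg h2, dif_neg h2, dif_neg h1]
    · intro i j hij
      show (if h : i ≤ j ∧ P i j ∧ P j i then y ⟨(i, j), h⟩ else
        if h : j ≤ i ∧ P j i ∧ P i j then y ⟨(j, i), h⟩ else 0) = 0
      rw [dif_neg (fun h => hij h.2.1), dif_neg (fun h => hij h.2.2)]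
  · intro A _ x hx
    obtain ⟨h1, h2⟩ := (pt_SE x).mp hx
    funext ⟨i, j⟩
    show (if h : i ≤ j ∧ P i j ∧ P j i then x (i, j) else
        if h : j ≤ i ∧ P j i ∧ P i j then x (j, i) else 0) = x (i, j)
    by_cases hi : i ≤ j ∧ P i j ∧ P j i
    · rw [dif_pos hi]
    · by_cases hj : j ≤ i ∧ P j i ∧ P i j
      · rw [dif_neg hi, dif_pos hj]
        exact h1 j i
      · rw [dif_neg hi, dif_neg hj]
        by_cases hp : P i j
        · have hq : ¬ P j i := by
            intro hq
            rcases le_total i j with h | h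
            · exact hi ⟨h, hp, hq⟩
            · exact hj ⟨h, hq, hp⟩
          have := h2 j i hq
          rw [← h1 i j] at this
          exact this.symm
        · exact (h2 i j hp).symm
  · intro A _ y _
    funext q
    exact dif_pos q.2

theorem gs_stratum_of_det (hG : RG G) (h0 : GS G (∅ : Set (MvPolynomial Empty ℤ)))
    (P : Fin n → Fin n → Prop) (h : GS G (insert (GX n).det (SE P))) : GS G (XE P ∅) :=
  gs_open_stratum hG P (hG.gs_opn (gs_SE hG h0 P) h)

/-! ### Graph hypersurfaces -/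

lemma ev_eq_aeval {σ A : Type} [CommRing A] (x : σ → A) (p : MvPolynomial σ ℤ) :
    ev x p = aeval x p := by
  have h : ev x = ((aeval x : MvPolynomial σ ℤ →ₐ[ℤ] A) : MvPolynomial σ ℤ →+* A) :=
    MvPolynomial.ringHom_ext' (RingHom.ext_int _ _) fun i => by simp
  exact congrArg (fun ψ : MvPolynomial σ ℤ →+* A => ψ p) h

/-- the symmetric matrix with the same upper half -/
def sy {A : Type} (M : Matrix (Fin n) (Fin n) A) : Matrix (Fin n) (Fin n) A :=
  Matrix.of fun i j => if i ≤ j then M i j else M j i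

lemma sy_symm {A : Type} (M : Matrix (Fin n) (Fin n) A) : (sy M).IsSymm := by
  refine Matrix.IsSymm.ext fun i j => ?_
  unfold sy
  simp only [Matrix.of_apply]
  split_ifs with h1 h2 h2
  · rw [le_antisymm h1 h2]
  · rfl
  · rfl
  · exact absurd (le_total i j) (not_or.mpr ⟨h2, h1⟩)

lemma sy_eq {A : Type} {M : Matrix (Fin n) (Fin n) A} (hM : ∀ i j, M i j = M j i) : sy M = M := by
  ext i j
  unfold sy
  simp only [Matrix.of_apply]
  split_ifs
  · rfl
  · exact hM j i

lemma redLap_map {V : Type} [Fintype V] (H : SimpleGraph V) (o : V) {A B : Type} [CommRing A]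
    [CommRing B] (φ : A →+* B) (x : H.edgeSet → A) (v w : {v // v ≠ o}) :
    φ (redLap H o x v w) = redLap H o (fun e => φ (x e)) v w := by
  classical
  unfold redLap
  by_cases h : v = w
  · rw [if_pos h, if_pos h, map_sum]
    refine Finset.sum_congr rfl fun e _ => ?_
    split_ifs
    · rfl
    · exact map_zero φ
  · rw [if_neg h, if_neg h]
    split_ifs
    · exact map_neg φ _
    · exact map_zero φ

lemma wt_map {A B : Type} [CommRing A] [CommRing B] (φ : A →+* B) (M : Matrix (Fin n) (Fin n) A)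
    (hM : M.IsSymm) (hM' : (M.map φ).IsSymm) (e : Sym2 (Option (Fin n))) :
    φ (wt M hM e) = wt (M.map φ) hM' e := by
  induction e using Sym2.ind with
  | _ a b =>
    rcases a with _ | i <;> rcases b with _ | j
    · exact map_zero φ
    · show φ (∑ k, M j k) = ∑ k, (M.map φ) j k
      rw [map_sum]
      rfl
    · show φ (∑ k, M i k) = ∑ k, (M.map φ) i k
      rw [map_sum]
      rfl
    · exact map_neg φ _

lemma sy_map {A B : Type} [CommRing A] [CommRing B] (φ : A →+* B)
    (M : Matrix (Fin n) (Fin n) A) : (sy M).map φ = sy (M.map φ) := by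
  ext i j
  unfold sy
  simp only [Matrix.of_apply, Matrix.map_apply]
  split_ifs <;> rfl

/-- the pairs of the zeros of the pattern -/
def ZP (P : Fin n → Fin n → Prop) : Set (Fin n × Fin n) := {q | ¬ (P q.1 q.2 ∧ P q.2 q.1)}

/-- the graph of the pattern -/
def gP (P : Fin n → Fin n → Prop) : SimpleGraph (Fin (n + 1)) :=
  (coneGraph (ZP P)).comap (finSuccEquiv n)

/-- the isomorphism with the cone graph -/
def gPi (P : Fin n → Fin n → Prop) : gP P ≃g coneGraph (ZP P) := ⟨finSuccEquiv n, Iff.rfl⟩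

lemma gP_adj (P : Fin n → Fin n → Prop) (v : Fin (n + 1)) (hv : v ≠ 0) : (gP P).Adj 0 v := by
  obtain ⟨w, rfl⟩ := Fin.exists_succ_eq.mpr hv
  show (coneGraph (ZP P)).Adj (finSuccEquiv n 0) (finSuccEquiv n w.succ)
  rw [finSuccEquiv_zero, finSuccEquiv_succ]
  trivial

theorem gs_det_of_kirchhoff (hG : RG G) {P : Fin n → Fin n → Prop} (hP : ∀ i, P i i)
    (h : GS G ({kirchhoff (gP P)} : Set (MvPolynomial (gP P).edgeSet ℤ))) :
    GS G (insert (GX n).det (SE P)) := by
  classical
  let eE : (gP P).edgeSet ≃ (coneGraph (ZP P)).edgeSet := (gPi P).mapEdgeSet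
  have hdet : ∀ (A : Type) [CommRing A] (x : (gP P).edgeSet → A),
      (phi (ZP P) (fun e => x (eE.symm e))).det = ev x (kirchhoff (gP P)) := by
    intro A _ x
    rw [ev_eq_aeval, ← matrix_tree (gP P) 0 x, det_phi]
    have h1 := Pool.Agent.Helper50.KR.KirAux.det_iso (gPi P) 0 (fun e => x (eE.symm e))
    have h2 : (fun e => x (eE.symm ((gPi P).mapEdgeSet e))) = x := by
      funext e
      exact congrArg x (eE.symm_apply_apply e)
    rw [h2] at h1
    rw [h1]
    have h3 : gPi P 0 = none := finSuccEquiv_zero (n := n)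
    rw [h3]
  refine (hG.gs_iso (E := ({kirchhoff (gP P)} : Set (MvPolynomial (gP P).edgeSet ℤ)))
    (E' := insert (GX n).det (SE P))
    (fun A _ x => fun q => phi (ZP P) (fun e => x (eE.symm e)) q.1 q.2)
    (fun A _ y => fun e => wt (sy (sx y)) (sy_symm _) (eE e).1) ?_ ?_ ?_ ?_ ?_ ?_).mp h
  · intro A B _ _ φ x _ q
    exact redLap_map (coneGraph (ZP P)) none φ (fun e => x (eE.symm e)) _ _
  · intro A B _ _ φ y _ e
    have h1 := wt_map φ (sy (sx y)) (sy_symm _) (by rw [sy_map]; exact sy_symm _) (eE e).1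
    rw [h1]
    congr 1
    exact sy_map φ _
  · intro A _ x hx
    have hk : ev x (kirchhoff (gP P)) = 0 := hx _ rfl
    rw [Pt.insert_iff, ev_det, pt_SE]
    have e1 : sx (fun q : Fin n × Fin n => phi (ZP P) (fun e => x (eE.symm e)) q.1 q.2) =
        phi (ZP P) (fun e => x (eE.symm e)) := rfl
    rw [e1, hdet, hk]
    refine ⟨rfl, fun i j => (phi_symm (ZP P) (fun e => x (eE.symm e))).apply j i,
      fun i j hij => ?_⟩
    refine phi_off_not _ _ i j (fun hh => hij (hh ▸ hP i)) ?_
    intro ha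
    exact ha.2.1 (fun hh => hij hh.1)
  · intro A _ y hy f hf
    rw [Set.mem_singleton_iff.mp hf]
    rw [Pt.insert_iff, ev_det, pt_SE] at hy
    obtain ⟨h1, h2, h3⟩ := hy
    rw [← hdet]
    have e1 : (fun e : (coneGraph (ZP P)).edgeSet => wt (sy (sx y)) (sy_symm _) (eE (eE.symm e)).1) =
        fun e => wt (sy (sx y)) (sy_symm _) e.1 := by
      funext e
      rw [eE.apply_symm_apply]
    rw [e1, phi_surj (ZP P) (sy (sx y)) (sy_symm _), sy_eq h2, h1]
    intro q hq
    rw [sy_eq h2]
    by_cases hp : P q.1 q.2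
    · rw [h2]
      exact h3 _ _ fun hh => hq ⟨hp, hh⟩
    · exact h3 _ _ hp
  · intro A _ x hx
    have hsy : sy (sx (fun q : Fin n × Fin n => phi (ZP P) (fun e => x (eE.symm e)) q.1 q.2)) =
        phi (ZP P) (fun e => x (eE.symm e)) :=
      sy_eq fun i j => (phi_symm (ZP P) (fun e => x (eE.symm e))).apply j i
    have key : (fun e : (coneGraph (ZP P)).edgeSet => wt (sy (sx (fun q : Fin n × Fin n =>
        phi (ZP P) (fun e => x (eE.symm e)) q.1 q.2))) (sy_symm _) e.1) =
        fun e => x (eE.symm e) := by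
      refine phi_inj (ZP P) _ _ ?_
      rw [phi_surj (ZP P) _ (sy_symm _)]
      · exact hsy
      · intro q hq
        rw [hsy]
        by_cases hqq : q.1 = q.2
        · exact absurd ⟨hqq ▸ hP q.1, hqq ▸ hP q.1⟩ hq
        · exact phi_off_not _ _ q.1 q.2 hqq fun ha => ha.2.1 hq
    funext e
    have := congrFun key (eE e)
    rw [eE.symm_apply_apply] at this
    exact this
  · intro A _ y hy
    rw [Pt.insert_iff, ev_det, pt_SE] at hy
    obtain ⟨h1, h2, h3⟩ := hy
    have e1 : (fun e : (coneGraph (ZP P)).edgeSet => wt (sy (sx y)) (sy_symm _) (eE (eE.symm e)).1) =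
        fun e => wt (sy (sx y)) (sy_symm _) e.1 := by
      funext e
      rw [eE.apply_symm_apply]
    funext q
    show phi (ZP P) (fun e => wt (sy (sx y)) (sy_symm _) (eE (eE.symm e)).1) q.1 q.2 = y q
    rw [e1, phi_surj (ZP P) (sy (sx y)) (sy_symm _), sy_eq h2]
    · rfl
    · intro q hq
      rw [sy_eq h2]
      by_cases hp : P q.1 q.2
      · rw [h2]
        exact h3 _ _ fun hh => hq ⟨hp, hh⟩
      · exact h3 _ _ hp

end Pool.Agent.KB
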