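import Mathlib

/-!
# Laplacians

The determinant of a reduced Laplacian when the weight of an edge changes.
-/

set_option autoImplicit false
set_option linter.unusedSectionVars false

open Matrix

namespace Pool.Agent.KB

section

variable {V : Type} [Fintype V] [DecidableEq V] {A : Type} [CommRing A]

/-- the Laplacian of a weight function -/
def Lap (c : V → V → A) : Matrix V V A :=
  Matrix.of fun u w => (if u = w then ∑ z, c u z else 0) - c u w

/-- the Laplacian without the row and the column of the root `o` -/
def rL (o : V) (c : V → V → A) : Matrix {v // v ≠ o} {v // v ≠ o} A :=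
  (Lap c).submatrix Subtype.val Subtype.val

/-- the vertex `none` merged into the vertex `t` -/
def mg (t : V) (c : Option V → Option V → A) : V → V → A := fun u w =>
  c (some u) (some w) + (if u = t then c none (some w) else 0) +
    (if w = t then c (some u) none else 0) + (if u = t then if w = t then c none none else 0 else 0)

/-- an edge between `none` and `some t` with weight `x` -/
def ed (t : V) (x : A) : Option V → Option V → A := fun i j =>
  match i, j with
  | none, some u => if u = t then x else 0
  | some u, none => if u = t then x else 0
  | _, _ => 0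

/-- the vertices other than the root -/
def rE (o : V) : {v : V // v ≠ o} ⊕ Unit ≃ {i : Option V // i ≠ some o} where
  toFun
    | Sum.inl u => ⟨some u.1, fun h => u.2 (Option.some.inj h)⟩
    | Sum.inr _ => ⟨none, fun h => by cases h⟩
  invFun i := match i with
    | ⟨none, _⟩ => Sum.inr ()
    | ⟨some u, h⟩ => Sum.inl ⟨u, fun hu => h (congrArg some hu)⟩
  left_inv := by rintro (u | u) <;> rfl
  right_inv := by rintro ⟨_ | u, h⟩ <;> rfl

lemma sum_ite_ne (f : V → A) (u : V) :
    ∑ z, f z - f u = ∑ z, if z = u then 0 else f z := by
  have h := Finset.sum_ite_eq' Finset.univ u f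
  simp only [Finset.mem_univ, if_true] at h
  rw [← h, ← Finset.sum_sub_distrib]
  refine Finset.sum_congr rfl fun z _ => ?_
  split_ifs <;> ring

/-- the diagonal of the weight function does not matter -/
lemma Lap_congr {c c' : V → V → A} (h : ∀ u w, u ≠ w → c u w = c' u w) : Lap c = Lap c' := by
  ext u w
  by_cases huw : u = w
  · subst huw
    simp only [Lap, Matrix.of_apply, if_true]
    rw [sum_ite_ne, sum_ite_ne]
    refine Finset.sum_congr rfl fun z _ => ?_
    split_ifs with hz
    · rfl
    · exact h _ _ (Ne.symm hz)
  · simp only [Lap, Matrix.of_apply, if_neg huw, h u w huw]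

lemma Lap_add (c c' : V → V → A) : Lap (fun i j => c i j + c' i j) = Lap c + Lap c' := by
  ext u w
  simp only [Lap, Matrix.of_apply, Matrix.add_apply, Finset.sum_add_distrib]
  split_ifs <;> ring

lemma Lap_ed_sn (t u : V) (x : A) : Lap (ed t x) (some u) none = if u = t then -x else 0 := by
  simp only [Lap, Matrix.of_apply, if_neg (Option.some_ne_none u), ed, zero_sub]
  split_ifs <;> simp

lemma Lap_ed_ns (t u : V) (x : A) : Lap (ed t x) none (some u) = if u = t then -x else 0 := by
  simp only [Lap, Matrix.of_apply, if_neg (Option.some_ne_none u).symm, ed, zero_sub]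
  split_ifs <;> simp

lemma Lap_ed_nn (t : V) (x : A) : Lap (ed t x) none none = x := by
  simp [Lap, ed, Fintype.sum_option]

/-- the determinant as a function of the last entry -/
lemma det_corner {m : Type} [Fintype m] [DecidableEq m] (M : Matrix m m A)
    (B : Matrix m Unit A) (C : Matrix Unit m A) (D : Matrix Unit Unit A) (x : A) :
    (fromBlocks M B C (D + x • (1 : Matrix Unit Unit A))).det =
      (fromBlocks M B C D).det + x * M.det := by
  have h1 : fromBlocks M B C (D + x • (1 : Matrix Unit Unit A)) =
      updateRow (fromBlocks M B C D) (Sum.inr ())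
        ((fromBlocks M B C D) (Sum.inr ()) + x • (Pi.single (Sum.inr ()) 1)) := by
    ext i j
    rcases i with i | i
    · rw [updateRow_ne (by simp)]
      rcases j with j | j <;> rfl
    · obtain rfl : i = () := rfl
      rw [updateRow_self]
      rcases j with j | j
      · simp
      · obtain rfl : j = () := rfl
        simp
  have h2 : updateRow (fromBlocks M B C D) (Sum.inr ()) (Pi.single (Sum.inr ()) 1) =
      fromBlocks M B 0 1 := by
    ext i j
    rcases i with i | i
    · rw [updateRow_ne (by simp)]
      rcases j with j | j <;> rfl
    · obtain rfl : i = () := rfl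
      rw [updateRow_self]
      rcases j with j | j
      · simp
      · obtain rfl : j = () := rfl
        simp
  rw [h1, det_updateRow_add, det_updateRow_smul, updateRow_eq_self, h2, det_fromBlocks_zero₂₁,
    det_one, mul_one]

/-- **The weight of one edge.** -/
theorem det_add_edge (c : Option V → Option V → A) (o t : V) (x : A) :
    (rL (some o) (fun i j => c i j + ed t x i j)).det =
      (rL (some o) c).det + x * (rL o (mg t c)).det := by
  let τ : Matrix {v : V // v ≠ o} Unit A := Matrix.of fun u _ => if u.1 = t then 1 else 0
  let P : Matrix ({v : V // v ≠ o} ⊕ Unit) ({v : V // v ≠ o} ⊕ Unit) A := fromBlocks 1 τ 0 1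
  have hP : P.det = 1 := by
    rw [det_fromBlocks_zero₂₁, det_one, det_one, mul_one]
  have hPT : Pᵀ = fromBlocks 1 0 τᵀ 1 := by
    rw [fromBlocks_transpose, transpose_one, transpose_zero, transpose_one]
  have key : ∀ M : Matrix {i : Option V // i ≠ some o} {i : Option V // i ≠ some o} A,
      M.det = (P * M.submatrix (rE o) (rE o) * Pᵀ).det := by
    intro M
    rw [det_mul, det_mul, det_transpose, hP, det_submatrix_equiv_self, one_mul, mul_one]
  let bl : (Option V → Option V → A) → Matrix ({v : V // v ≠ o} ⊕ Unit) ({v : V // v ≠ o} ⊕ Unit) A :=
    fun c => fromBlocks (rL o (mg t c))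
      (Matrix.of fun u _ => Lap c (some u.1) none + τ u () * Lap c none none)
      (Matrix.of fun _ w => Lap c none (some w.1) + Lap c none none * τ w ())
      (Matrix.of fun _ _ => Lap c none none)
  have hbl : ∀ c : Option V → Option V → A,
      P * (rL (some o) c).submatrix (rE o) (rE o) * Pᵀ = bl c := by
    intro c
    have h1 : (rL (some o) c).submatrix (rE o) (rE o) =
        fromBlocks (Matrix.of fun u w => Lap c (some u.1) (some w.1))
          (Matrix.of fun u _ => Lap c (some u.1) none)
          (Matrix.of fun _ w => Lap c none (some w.1))
          (Matrix.of fun _ _ => Lap c none none) := by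
      ext i j
      rcases i with i | i <;> rcases j with j | j <;> rfl
    rw [h1, hPT, fromBlocks_multiply, fromBlocks_multiply]
    simp only [Matrix.one_mul, Matrix.zero_mul, Matrix.mul_one, Matrix.mul_zero, zero_add]
    show fromBlocks _ _ _ _ = fromBlocks _ _ _ _
    congr 1
    · ext u w
      have hm : (fun z => mg t c u.1 z) = fun z =>
          c (some u.1) (some z) + (if u.1 = t then c none (some z) else 0) +
          (if z = t then c (some u.1) none else 0) +
          (if u.1 = t then if z = t then c none none else 0 else 0) := rfl
      have hs : ∑ z, mg t c u.1 z = (∑ i, c (some u.1) i) +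
          (if u.1 = t then ∑ i, c none i else 0) := by
        rw [hm, Finset.sum_add_distrib, Finset.sum_add_distrib, Finset.sum_add_distrib,
          Fintype.sum_option, Finset.sum_ite_eq' Finset.univ t]
        by_cases hu : u.1 = t
        · simp only [if_pos hu, Finset.mem_univ, if_true, Finset.sum_ite_eq', Fintype.sum_option]
          ring
        · simp only [if_neg hu, Finset.mem_univ, if_true, Finset.sum_const_zero]
          ring
      simp only [Matrix.add_apply, Matrix.mul_apply, Matrix.of_apply, Fintype.univ_unit,
        Finset.sum_singleton, transpose_apply, rL, submatrix_apply, Lap, τ]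
      rw [hs]
      have hn : ∀ z : V, ¬ (none = some z) := fun z h => by cases h
      have hn' : ∀ z : V, ¬ (some z = none) := fun z h => by cases h
      unfold mg
      simp only [Option.some_inj, if_neg (hn _), if_neg (hn' _), if_true]
      by_cases hu : u.1 = t
      · by_cases hw : w.1 = t
        · have huw : u.1 = w.1 := hu.trans hw.symm
          simp only [if_pos hu, if_pos hw, if_pos huw]
          ring
        · have huw : ¬ u.1 = w.1 := fun h => hw (h ▸ hu)
          simp only [if_pos hu, if_neg hw, if_neg huw]
          ring
      · by_cases hw : w.1 = t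
        · have huw : ¬ u.1 = w.1 := fun h => hu (h.trans hw)
          simp only [if_neg hu, if_pos hw, if_neg huw]
          ring
        · by_cases huw : u.1 = w.1
          · simp only [if_neg hu, if_neg hw, if_pos huw]
            ring
          · simp only [if_neg hu, if_neg hw, if_neg huw]
            ring
    · ext u w
      simp [Matrix.mul_apply, τ]
    · ext u w
      simp [Matrix.mul_apply, τ]
  rw [key (rL (some o) c), key (rL (some o) (fun i j => c i j + ed t x i j)), hbl, hbl]
  have h2 : bl (fun i j => c i j + ed t x i j) =
      fromBlocks (rL o (mg t c))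
      (Matrix.of fun u _ => Lap c (some u.1) none + τ u () * Lap c none none)
      (Matrix.of fun _ w => Lap c none (some w.1) + Lap c none none * τ w ())
      ((Matrix.of fun _ _ => Lap c none none) + x • (1 : Matrix Unit Unit A)) := by
    show fromBlocks _ _ _ _ = fromBlocks _ _ _ _
    rw [Lap_add]
    congr 1
    · unfold rL
      congr 1
      refine Lap_congr fun u w huw => ?_
      simp only [mg, ed]
      by_cases hu : u = t
      · have hw : ¬ w = t := fun h => huw (hu.trans h.symm)
        simp only [if_pos hu, if_neg hw, add_zero]
      · by_cases hw : w = t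
        · simp only [if_neg hu, if_pos hw, add_zero]
        · simp only [if_neg hu, if_neg hw, add_zero]
    · ext u _
      simp only [Matrix.of_apply, Matrix.add_apply, Lap_ed_sn, Lap_ed_nn, τ]
      split_ifs <;> ring
    · ext _ w
      simp only [Matrix.of_apply, Matrix.add_apply, Lap_ed_ns, Lap_ed_nn, τ]
      split_ifs <;> ring
    · ext _ _
      simp only [Matrix.of_apply, Matrix.add_apply, Lap_ed_nn, Matrix.smul_apply]
      simp
  rw [h2, det_corner]

/-- extension by an isolated vertex -/
def ex (c : V → V → A) : Option V → Option V → A := fun i j =>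
  match i, j with
  | some u, some w => c u w
  | _, _ => 0

lemma mg_ex (t : V) (c : V → V → A) : mg t (ex c) = c := by
  funext u w
  simp [mg, ex]

lemma Lap_ex_none (c : V → V → A) (j : Option V) : Lap (ex c) none j = 0 := by
  have h1 : ∀ z, ex c none z = 0 := fun z => rfl
  show (if none = j then ∑ z, ex c none z else 0) - ex c none j = 0
  rw [h1, Finset.sum_eq_zero fun z _ => h1 z]
  split_ifs <;> ring

/-- a pendant edge -/
lemma det_pendant (c : V → V → A) (o t : V) (x : A) :
    (rL (some o) (fun i j => ex c i j + ed t x i j)).det = x * (rL o c).det := by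
  have h0 := det_add_edge (ex c) o t x
  rw [mg_ex t c] at h0
  have h1 : (rL (some o) (ex c)).det = 0 := by
    refine det_eq_zero_of_row_eq_zero
      (⟨none, (Option.some_ne_none o).symm⟩ : {i : Option V // i ≠ some o}) fun j => ?_
    exact Lap_ex_none c j.1
  rw [h0, h1, zero_add]

/-- **A subdivided edge.** -/
theorem det_double (c : Option V → Option V → A) (o t : V) (x y : A) :
    (rL (some (some o)) (fun i j => ex c i j + ed none x i j + ed (some t) y i j)).det =
      x * y * (rL o (mg t c)).det + (x + y) * (rL (some o) c).det := by
  rw [det_add_edge (fun i j => ex c i j + ed none x i j) (some o) (some t) y, det_pendant]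
  have h1 : mg (some t) (fun i j => ex c i j + ed none x i j) =
      fun i j => c i j + ed t x i j := by
    funext i j
    rcases i with _ | u <;> rcases j with _ | w
    · simp [mg, ex, ed]
    · simp only [mg, ex, ed, Option.some_inj]
      by_cases hw : w = t
      · simp [hw]
      · simp [hw]
    · simp only [mg, ex, ed, Option.some_inj]
      by_cases hu : u = t
      · simp [hu]
      · simp [hu]
    · simp only [mg, ex, ed, Option.some_inj]
      by_cases hu : u = t <;> by_cases hw : w = t <;> simp [hu, hw]
  rw [h1, det_add_edge]
  ring

/-- naturality -/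
lemma map_rL {B : Type} [CommRing B] (φ : A →+* B) (o : V) (c : V → V → A) :
    φ (rL o c).det = (rL o (fun u w => φ (c u w))).det := by
  rw [RingHom.map_det]
  congr 1
  ext u w
  show φ (Lap c u.1 w.1) = Lap (fun u w => φ (c u w)) u.1 w.1
  simp only [Lap, Matrix.of_apply, map_sub]
  congr 1
  split_ifs
  · rw [map_sum]
  · exact map_zero φ

end

end Pool.Agent.KB
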