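import Pool.Agent.KB.Inc
import Pool.Agent.Helper45.RM.Main

/-!
# Both questions: from graph hypersurfaces to all schemes of finite type
-/

set_option autoImplicit false
set_option linter.unusedSectionVars false

open AlgebraicGeometry CategoryTheory MvPolynomial
open Pool.Agent.Helper81.CP Pool.Agent.Helper81.HG
open Pool.Agent.Helper45.RM
open Pool.Agent.Helper50.KR (kirchhoff)

namespace Pool.Agent.KB

universe u

/-- the graph hypersurfaces over `ℤ/N` of the graphs with a vertex adjacent to all others -/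
def KirC (N : ℕ) : Set Scheme.{0} :=
  {Y | ∃ (n : ℕ) (H : SimpleGraph (Fin (n + 1))), (∀ v, v ≠ 0 → H.Adj 0 v) ∧
    Y = Zeros N {kirchhoff H}}

/-- the point from the generic matrix with one entry -/
lemma gs_empty_of_det {G : ∀ (R : Type) [CommRing R], Prop} (hG : RG G)
    (h : GS G (insert (GX 1).det (SE fun _ _ : Fin 1 => True))) :
    GS G (∅ : Set (MvPolynomial Empty ℤ)) := by
  refine (hG.gs_iso (E := insert (GX 1).det (SE fun _ _ : Fin 1 => True))
    (E' := (∅ : Set (MvPolynomial Empty ℤ)))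
    (fun _ _ _ => fun e => e.elim) (fun _ _ _ => fun _ => 0) ?_ ?_ ?_ ?_ ?_ ?_).mp h
  · intro A B _ _ φ x _ j; exact j.elim
  · intro A B _ _ φ y _ q; exact map_zero φ
  · intro A _ x _ f hf; exact absurd hf (Set.notMem_empty _)
  · intro A _ y _
    rw [Pt.insert_iff, ev_det, pt_SE]
    refine ⟨?_, fun i j => rfl, fun i j hij => rfl⟩
    rw [Matrix.det_fin_one]
    rfl
  · intro A _ x hx
    rw [Pt.insert_iff, ev_det, Matrix.det_fin_one] at hx
    funext q
    have hq : q = (0, 0) := Subsingleton.elim _ _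
    rw [hq]
    exact hx.1.symm
  · intro A _ y _
    funext q
    exact q.elim

/-- **Graph hypersurfaces control everything.** -/
theorem cc_kirchhoff {G : Scheme.{0} → Prop} (hG : SG G) (hS : Sem (rg G)) {N : ℕ}
    (h : CC G (KirC N)) : CC G (FiniteType N) := by
  have hR : RG (md (rg G) N) := hG.rg.mod N
  have hk : ∀ (n : ℕ) (P : Fin n → Fin n → Prop), (∀ i, P i i) →
      GS (md (rg G) N) (insert (GX n).det (SE P)) := fun n P hP =>
    gs_det_of_kirchhoff hR hP ((gz hG _).mpr (h _ ⟨n, gP P, gP_adj P, rfl⟩))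
  have h0 : GS (md (rg G) N) (∅ : Set (MvPolynomial Empty ℤ)) :=
    gs_empty_of_det hR (hk 1 (fun _ _ => True) fun _ => trivial)
  have hs : ∀ (n : ℕ) (P : Fin n → Fin n → Prop), (∀ i, P i i) → ∀ S : Set (Fin n),
      GS (md (rg G) N) (XE P S) := fun n P hP S =>
    strata hR (fun n P hP => gs_stratum_of_det hR h0 P (hk n P hP)) _ n P hP S rfl
  exact cc_all_of_ohyp hG hS le_rfl fun A B _ _ E => gs_or hR hs E

theorem main (N : ℕ) : Controls.{u} (KirC N) (FiniteType N) :=
  controls_of_ctl isFT_finiteType (cc_kirchhoff (sg_ctl _) (sem_ctl _) (cc_self _))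

end Pool.Agent.KB
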