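import Pool.Agent.KB.Girth2

/-!
# Both questions: graphs of maximum degree three and large girth
-/

set_option autoImplicit false
set_option linter.unusedSectionVars false

open AlgebraicGeometry CategoryTheory MvPolynomial
open Pool.Agent.Helper81.CP Pool.Agent.Helper81.HG
open Pool.Agent.Helper45.RM
open Pool.Agent.Helper50.KR (kirchhoff)

namespace Pool.Agent.KB

universe u

/-- the graph hypersurfaces over `ℤ/N` of the connected graphs of maximum degree at most `3` and
of girth at least `g` -/
def KirG (N g : ℕ) : Set Scheme.{0} :=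
  {Y | ∃ (V : Type) (_ : Fintype V) (H : SimpleGraph V), H.Connected ∧
    (∀ v, (H.neighborSet v).ncard ≤ 3) ∧ (g : ℕ∞) ≤ H.egirth ∧ Y = Zeros N {kirchhoff H}}

lemma connected_gP {n : ℕ} (P : Fin n → Fin n → Prop) : (gP P).Connected := by
  have h : ∀ v, (gP P).Reachable 0 v := by
    intro v
    by_cases hv : v = 0
    · rw [hv]
    · exact (gP_adj P v hv).reachable
  have : Nonempty (Fin (n + 1)) := ⟨0⟩
  exact ⟨fun x y => (h x).symm.trans (h y)⟩

/-- **Graph hypersurfaces of connected graphs of maximum degree three and large girth control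
everything.** -/
theorem cc_girth {G : Scheme.{0} → Prop} (hG : SG G) (hS : Sem (rg G)) {N g : ℕ}
    (h : CC G (KirG N g)) : CC G (FiniteType N) := by
  have hR : RG (md (rg G) N) := hG.rg.mod N
  have h3 : ∀ (V : Type) [Fintype V] (H : SimpleGraph V), H.Connected → (∀ v, dg H v ≤ 3) →
      (g : ℕ∞) ≤ H.egirth → GS (md (rg G) N) ({kirchhoff H} : Set (MvPolynomial H.edgeSet ℤ)) :=
    fun V _ H hc hd hg => (gz hG _).mpr (h _ ⟨V, inferInstance, H, hc, hd, hg, rfl⟩)
  have hpt : GS (md (rg G) N) (∅ : Set (MvPolynomial Empty ℤ)) := by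
    refine gs_empty_of_det hR (gs_det_of_kirchhoff hR (fun _ => trivial) (h3 _ _
      (connected_gP _) (fun v => ?_) ?_))
    · refine (Set.ncard_le_ncard (Set.subset_univ _) (Set.toFinite _)).trans ?_
      rw [Set.ncard_univ, Nat.card_eq_fintype_card, Fintype.card_fin]
      norm_num
    · refine girth_of_cy (w := fun _ _ => 1) (fun s t hst => ?_) (fun _ _ _ => le_rfl)
      have hne : s ≠ t := hst.ne
      refine ⟨fun x => if x = t then (g : ℤ) else 0, fun x y hxy h1 h2 => ?_, ?_⟩
      · exfalso
        have hne' : x ≠ y := hxy.ne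
        have hx : x = s ∨ x = t := by omega
        have hy : y = s ∨ y = t := by omega
        rcases hx with rfl | rfl <;> rcases hy with rfl | rfl
        · exact hne' rfl
        · exact h1 ⟨rfl, rfl⟩
        · exact h2 ⟨rfl, rfl⟩
        · exact hne' rfl
      · simp [hne]
  refine cc_kirchhoff hG hS (N := N) ?_
  rintro _ ⟨n, H, _, rfl⟩
  exact (gz hG _).mp (gs_all_of_girth hR hpt g h3 _ H)

theorem main_girth (N g : ℕ) : Controls.{u} (KirG N g) (FiniteType N) :=
  controls_of_ctl isFT_finiteType (cc_girth (sg_ctl _) (sem_ctl _) (cc_self _))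

end Pool.Agent.KB
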