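import Pool.Agent.KB.Sys

/-!
# The pieces of a stratum of a bordered matrix
-/

set_option autoImplicit false
set_option linter.unusedSectionVars false

open Matrix MvPolynomial
open Pool.Agent.Helper81.CP Pool.Agent.Helper81.HG

namespace Pool.Agent.KB

variable {G : ∀ (R : Type) [CommRing R], Prop} {n : ℕ}

/-- a unit coordinate among free coordinates -/
lemma go_free_unit (hG : RG G) {σ τ : Type} [Finite σ] [Finite τ] (E : Set (MvPolynomial σ ℤ))
    (b : τ) : GO G (rename (Sum.inl : σ → σ ⊕ τ) '' E) (X (Sum.inr b)) ↔ GS G E := by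
  have h1 := hG.gl_gm (E := rename (Sum.inl : σ → σ ⊕ τ) '' E) (p := 1) (Sum.inr b) (by
    intro A _ x y hxy hx
    refine ⟨?_, by rw [map_one]; exact isUnit_one⟩
    intro f hf
    obtain ⟨g, hg, rfl⟩ := hf
    rw [ev_rename]
    have h2 : (fun i => y (Sum.inl i)) = fun i => x (Sum.inl i) :=
      funext fun i => hxy (Sum.inl i) (by simp)
    rw [h2, ← ev_rename]
    exact hx.1 _ ⟨g, hg, rfl⟩)
  rw [one_mul, hG.gl_one, hG.gs_emb Sum.inl Sum.inl_injective] at h1
  exact h1

lemma pt_ren {σ τ : Type} {E : Set (MvPolynomial σ ℤ)} {A : Type} [CommRing A] (x : σ ⊕ τ → A) :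
    Pt (rename (Sum.inl : σ → σ ⊕ τ) '' E) x ↔ Pt E (fun i => x (Sum.inl i)) := by
  simp only [Pt, Set.forall_mem_image, ev_rename]

section

variable {A : Type} [CommRing A] {a : Fin n} {P : Fin n → Fin n → Prop} {S : Set (Fin n)}

/-- the two bordered matrices of a point -/
lemma tp_of_pt {x : VV (n + 1) → A} (hx : Pt (XE (bP a P) (Fin.succ '' S)) x) :
    TP a P S (tt (mx x)) (bb (mx x)) (mm (mx x)) (tt (nx x)) (bb (nx x)) (mm (nx x)) := by
  rw [pt_XE] at hx
  refine TP.of_xp ?_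
  rw [bk_eta hx.symM, bk_eta hx.symN]
  exact hx

lemma pt_of_tp {t ν : A} {v z : Fin n → A} {M N : Matrix (Fin n) (Fin n) A}
    (h : TP a P S t v M ν z N) :
    Pt (XE (bP a P) (Fin.succ '' S)) (pk (bk t v v M) (bk ν z z N)) := by
  rw [pt_XE, mx_pk, nx_pk]
  exact h.to_xp

end

/-! ### The first piece -/

/-- the index set of the free coordinates of the first piece -/
abbrev Y1 (a : Fin n) (S : Set (Fin n)) : Type := {i : Fin n // i ∉ S ∧ i ≤ a}

open scoped Classical in
/-- the vector with given free coordinates -/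
noncomputable def e1 {A : Type} [CommRing A] (a : Fin n) (S : Set (Fin n)) (y : Y1 a S → A) :
    Fin n → A := fun i => if h : i ∉ S ∧ i ≤ a then y ⟨i, h⟩ else 0

lemma e1_in {A : Type} [CommRing A] {a : Fin n} {S : Set (Fin n)} (y : Y1 a S → A) :
    ∀ i ∈ S, e1 a S y i = 0 := fun _ hi => dif_neg fun h => h.1 hi

lemma e1_above {A : Type} [CommRing A] {a : Fin n} {S : Set (Fin n)} (y : Y1 a S → A) :
    ∀ i, a < i → e1 a S y i = 0 := fun _ hi => dif_neg fun h => absurd h.2 (not_le.mpr hi)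

lemma e1_res {A : Type} [CommRing A] {a : Fin n} {S : Set (Fin n)} {y : Fin n → A}
    (h1 : ∀ i ∈ S, y i = 0) (h2 : ∀ i, a < i → y i = 0) :
    e1 a S (fun i => y i.1) = y := by
  funext i
  unfold e1
  split_ifs with h
  · rfl
  · by_cases hi : i ∈ S
    · exact (h1 i hi).symm
    · exact (h2 i (not_le.mp fun hh => h ⟨hi, hh⟩)).symm

theorem piece1 (hG : RG G) (a : Fin n) (P : Fin n → Fin n → Prop) (S : Set (Fin n))
    (h : GS G (XE P S)) : GO G (XE (bP a P) (Fin.succ '' S)) (X (Sum.inr (0, 0))) := by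
  classical
  refine (hG.gl_iso (E := XE (bP a P) (Fin.succ '' S)) (p := X (Sum.inr (0, 0)))
    (E' := rename (Sum.inl : VV n → VV n ⊕ (Y1 a S ⊕ Unit)) '' XE P S)
    (p' := X (Sum.inr (Sum.inr ())))
    (fun A _ x => Sum.elim (pk (mm (mx x)) (N1 (tt (nx x)) (bb (nx x)) (mm (nx x))))
      (Sum.elim (fun i => bb (mx x) i.1) (fun _ => tt (nx x))))
    (fun A _ y =>
      let M := mx (fun i => y (Sum.inl i))
      let N := nx (fun i => y (Sum.inl i))
      let b := e1 a S (fun i => y (Sum.inr (Sum.inl i)))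
      let ν := y (Sum.inr (Sum.inr ()))
      pk (bk (Ring.inverse ν + b ⬝ᵥ (N *ᵥ b)) (M *ᵥ (N *ᵥ b)) (M *ᵥ (N *ᵥ b)) M)
        (bk ν (- (ν • (N *ᵥ b))) (- (ν • (N *ᵥ b))) (N + ν • vecMulVec (N *ᵥ b) (N *ᵥ b))))
    ?_ ?_ ?_ ?_ ?_ ?_).mpr ((go_free_unit hG _ _).mpr h)
  · intro A B _ _ φ x hx j
    have hν : IsUnit (tt (nx x)) := by
      have := hx.2
      rwa [ev_X] at this
    rcases j with (⟨i, j⟩ | ⟨i, j⟩) | (i | i)
    · rfl
    · exact N1_map φ hν _ _ i j
    · rfl
    · rfl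
  · intro A B _ _ φ y hy i
    have hν : IsUnit (y (Sum.inr (Sum.inr ()))) := by
      have := hy.2
      rwa [ev_X] at this
    have he : ∀ i, φ (e1 a S (fun i => y (Sum.inr (Sum.inl i))) i) =
        e1 a S (fun i => φ (y (Sum.inr (Sum.inl i)))) i := by
      intro i
      unfold e1
      split_ifs
      · rfl
      · exact map_zero φ
    have hM : (mx (fun i => y (Sum.inl i))).map φ = mx (fun i => φ (y (Sum.inl i))) := rfl
    have hN : (nx (fun i => y (Sum.inl i))).map φ = nx (fun i => φ (y (Sum.inl i))) := rfl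
    have hu : ∀ k, φ ((nx (fun i => y (Sum.inl i)) *ᵥ e1 a S (fun i => y (Sum.inr (Sum.inl i)))) k) =
        (nx (fun i => φ (y (Sum.inl i))) *ᵥ e1 a S (fun i => φ (y (Sum.inr (Sum.inl i))))) k := by
      intro k
      rw [map_mulVec, hN]
      congr 2
      exact funext he
    have hv : ∀ k, φ ((mx (fun i => y (Sum.inl i)) *ᵥ
        (nx (fun i => y (Sum.inl i)) *ᵥ e1 a S (fun i => y (Sum.inr (Sum.inl i))))) k) =
        (mx (fun i => φ (y (Sum.inl i))) *ᵥ
          (nx (fun i => φ (y (Sum.inl i))) *ᵥ e1 a S (fun i => φ (y (Sum.inr (Sum.inl i)))))) k := by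
      intro k
      rw [map_mulVec, hM]
      congr 2
      exact funext hu
    rcases i with ⟨i, j⟩ | ⟨i, j⟩
    · refine Fin.cases ?_ (fun i => ?_) i <;> refine Fin.cases ?_ (fun j => ?_) j
      · show φ (_ + _) = _ + _
        rw [map_add, map_inv_of_unit φ hν, map_dot]
        congr 2
        · exact funext he
        · exact funext hu
      · exact hv j
      · exact hv i
      · rfl
    · refine Fin.cases ?_ (fun i => ?_) i <;> refine Fin.cases ?_ (fun j => ?_) j
      · rfl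
      · show φ (-(_ * _)) = -(_ * _)
        rw [map_neg, map_mul, hu j]
      · show φ (-(_ * _)) = -(_ * _)
        rw [map_neg, map_mul, hu i]
      · show φ (_ + _ * (_ * _)) = _ + _ * (_ * _)
        rw [map_add, map_mul, map_mul, hu i, hu j]
        rfl
  · intro A _ x hx
    have hν : IsUnit (tt (nx x)) := by
      have := hx.2
      rwa [ev_X] at this
    have ht := tp_of_pt hx.1
    refine ⟨?_, ?_⟩
    · rw [pt_ren]
      show Pt (XE P S) (pk (mm (mx x)) (N1 (tt (nx x)) (bb (nx x)) (mm (nx x))))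
      rw [pt_XE, mx_pk, nx_pk]
      exact ht.i1 hν
    · rw [ev_X]
      exact hν
  · intro A _ y hy
    have hν : IsUnit (y (Sum.inr (Sum.inr ()))) := by
      have := hy.2
      rwa [ev_X] at this
    have hX := hy.1
    rw [pt_ren, pt_XE] at hX
    refine ⟨?_, ?_⟩
    · exact pt_of_tp (hX.i1 hν (e1_above _))
    · rw [ev_X]
      exact hν
  · intro A _ x hx
    have hν : IsUnit (tt (nx x)) := by
      have := hx.2
      rwa [ev_X] at this
    have ht := tp_of_pt hx.1
    have hX := hx.1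
    rw [pt_XE] at hX
    have hb : N1 (tt (nx x)) (bb (nx x)) (mm (nx x)) *ᵥ e1 a S (fun i => bb (mx x) i.1) =
        N1 (tt (nx x)) (bb (nx x)) (mm (nx x)) *ᵥ y1 S (bb (mx x)) := by
      refine (ht.i1 hν).n_mulVec_congr fun k hk => ?_
      unfold e1 y1
      rw [if_neg hk]
      split_ifs with h
      · rfl
      · exact (ht.va k (not_le.mp fun hh => h ⟨hk, hh⟩)).symm
    have hy1 : e1 a S (fun i => bb (mx x) i.1) = y1 S (bb (mx x)) := by
      funext k
      unfold e1 y1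
      by_cases hk : k ∈ S
      · rw [if_pos hk, dif_neg fun h => h.1 hk]
      · rw [if_neg hk]
        split_ifs with h
        · rfl
        · exact (ht.va k (not_le.mp fun hh => h ⟨hk, hh⟩)).symm
    have e2 : bk (tt (mx x)) (bb (mx x)) (bb (mx x)) (mm (mx x)) = mx x := bk_eta hX.symM
    have e3 : bk (tt (nx x)) (bb (nx x)) (bb (nx x)) (mm (nx x)) = nx x := bk_eta hX.symN
    refine Eq.trans ?_ (pk_eta x)
    show pk _ _ = pk _ _
    simp only [Sum.elim_inl, Sum.elim_inr]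
    show pk (bk (Ring.inverse (tt (nx x)) + e1 a S (fun i => bb (mx x) i.1) ⬝ᵥ
        (N1 (tt (nx x)) (bb (nx x)) (mm (nx x)) *ᵥ e1 a S (fun i => bb (mx x) i.1)))
        (mm (mx x) *ᵥ (N1 (tt (nx x)) (bb (nx x)) (mm (nx x)) *ᵥ e1 a S (fun i => bb (mx x) i.1)))
        (mm (mx x) *ᵥ (N1 (tt (nx x)) (bb (nx x)) (mm (nx x)) *ᵥ e1 a S (fun i => bb (mx x) i.1)))
        (mm (mx x)))
      (bk (tt (nx x))
        (- (tt (nx x) • (N1 (tt (nx x)) (bb (nx x)) (mm (nx x)) *ᵥ e1 a S (fun i => bb (mx x) i.1))))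
        (- (tt (nx x) • (N1 (tt (nx x)) (bb (nx x)) (mm (nx x)) *ᵥ e1 a S (fun i => bb (mx x) i.1))))
        (N1 (tt (nx x)) (bb (nx x)) (mm (nx x)) + tt (nx x) •
          vecMulVec (N1 (tt (nx x)) (bb (nx x)) (mm (nx x)) *ᵥ e1 a S (fun i => bb (mx x) i.1))
            (N1 (tt (nx x)) (bb (nx x)) (mm (nx x)) *ᵥ e1 a S (fun i => bb (mx x) i.1)))) =
      pk (mx x) (nx x)
    rw [hy1, ht.v1 hν, ht.z1 hν, ht.n1 hν, ht.t1 hν, e2, e3]
  · intro A _ y hy
    have hν : IsUnit (y (Sum.inr (Sum.inr ()))) := by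
      have := hy.2
      rwa [ev_X] at this
    have hX := hy.1
    rw [pt_ren, pt_XE] at hX
    have hb := XP.y1_back hX (e1_in (fun i => y (Sum.inr (Sum.inl i))))
    funext i
    rcases i with (⟨i, j⟩ | ⟨i, j⟩) | (i | i)
    · rfl
    · have := XP.n1_back (N₁ := nx (fun i => y (Sum.inl i)))
        (u := nx (fun i => y (Sum.inl i)) *ᵥ e1 a S (fun i => y (Sum.inr (Sum.inl i)))) hν
      exact congrFun (congrFun this i) j
    · show (mx (fun i => y (Sum.inl i)) *ᵥ
        (nx (fun i => y (Sum.inl i)) *ᵥ e1 a S (fun i => y (Sum.inr (Sum.inl i))))) i.1 = _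
      rw [hX.mn_mulVec_out _ i.2.1]
      unfold e1
      rw [dif_pos i.2]
    · rfl

end Pool.Agent.KB
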