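import Pool.Agent.KB.Pieces

/-!
# The pieces of a stratum of a bordered matrix, the second kind
-/

set_option autoImplicit false
set_option linter.unusedSectionVars false

open Matrix MvPolynomial
open Pool.Agent.Helper81.CP Pool.Agent.Helper81.HG

namespace Pool.Agent.KB

variable {G : ∀ (R : Type) [CommRing R], Prop} {n : ℕ}

/-- the closed part where the corner and the first `r` entries of the vector of the inverse are
zero -/
noncomputable def ES (a : Fin n) (P : Fin n → Fin n → Prop) (S : Set (Fin n)) (r : ℕ) :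
    Set (MvPolynomial (VV (n + 1)) ℤ) :=
  XE (bP a P) (Fin.succ '' S) ∪ {X (Sum.inr (0, 0))} ∪
    {f | ∃ i : Fin n, i.val < r ∧ f = X (Sum.inr (i.succ, 0))}

lemma pt_ES {A : Type} [CommRing A] {a : Fin n} {P : Fin n → Fin n → Prop} {S : Set (Fin n)}
    {r : ℕ} (x : VV (n + 1) → A) : Pt (ES a P S r) x ↔
      Pt (XE (bP a P) (Fin.succ '' S)) x ∧ tt (nx x) = 0 ∧ ∀ i : Fin n, i.val < r → bb (nx x) i = 0 := by
  unfold ES
  constructor
  · intro h
    refine ⟨fun f hf => h f (Or.inl (Or.inl hf)), ?_, fun i hi => ?_⟩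
    · have := h _ (Or.inl (Or.inr rfl))
      rwa [ev_X] at this
    · have := h _ (Or.inr ⟨i, hi, rfl⟩)
      rwa [ev_X] at this
  · rintro ⟨h1, h2, h3⟩ f ((hf | hf) | ⟨i, hi, rfl⟩)
    · exact h1 f hf
    · rw [Set.mem_singleton_iff.mp hf, ev_X]
      exact h2
    · rw [ev_X]
      exact h3 i hi

/-- the index set of the free coordinates of the second piece -/
abbrev Y2 (a s : Fin n) (S : Set (Fin n)) : Type := {i : Fin n // i ≤ a ∧ (i ∈ S → i < s)}

open scoped Classical in
/-- the vector with given free coordinates -/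
noncomputable def e2 {A : Type} [CommRing A] (a s : Fin n) (S : Set (Fin n)) (y : Y2 a s S → A) :
    Fin n → A := fun i => if h : i ≤ a ∧ (i ∈ S → i < s) then y ⟨i, h⟩ else 0

lemma e2_in {A : Type} [CommRing A] {a s : Fin n} {S : Set (Fin n)} (y : Y2 a s S → A) :
    ∀ i ∈ S, s < i → e2 a s S y i = 0 :=
  fun _ hi his => dif_neg fun h => absurd (h.2 hi) (not_lt.mpr his.le)

lemma e2_above {A : Type} [CommRing A] {a s : Fin n} {S : Set (Fin n)} (y : Y2 a s S → A) :
    ∀ i, a < i → e2 a s S y i = 0 := fun _ hi => dif_neg fun h => absurd h.1 (not_le.mpr hi)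

lemma e2_of {A : Type} [CommRing A] {a s : Fin n} {S : Set (Fin n)} (y : Y2 a s S → A)
    (i : Y2 a s S) : e2 a s S y i.1 = y i := dif_pos i.2

theorem piece2 (hG : RG G) (a s : Fin n) (P : Fin n → Fin n → Prop) (S : Set (Fin n))
    (hs : s ∉ S) (hsa : s ≤ a) :
    GO G (ES a P S s.val) (X (Sum.inr (s.succ, 0))) ↔ GS G (XE P (insert s S)) := by
  classical
  let s' : Y2 a s S := ⟨s, hsa, fun h => absurd h hs⟩
  have hunit : ∀ (A : Type) [CommRing A] (x : VV (n + 1) → A),
      Lc (ES a P S s.val) (X (Sum.inr (s.succ, 0))) x →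
        TP a P S (tt (mx x)) (bb (mx x)) (mm (mx x)) 0 (bb (nx x)) (mm (nx x)) ∧
        IsUnit (bb (nx x) s) ∧ (∀ i, i < s → bb (nx x) i = 0) ∧
        mx x = bk (tt (mx x)) (bb (mx x)) (bb (mx x)) (mm (mx x)) ∧
        nx x = bk 0 (bb (nx x)) (bb (nx x)) (mm (nx x)) := by
    intro A _ x hx
    obtain ⟨h1, h2⟩ := hx
    obtain ⟨h3, h4, h5⟩ := (pt_ES x).mp h1
    have ht := tp_of_pt h3
    rw [h4] at ht
    rw [pt_XE] at h3
    refine ⟨ht, ?_, fun i hi => h5 i hi, (bk_eta h3.symM).symm, ?_⟩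
    · rwa [ev_X] at h2
    · have := (bk_eta h3.symN).symm
      rwa [h4] at this
  have hunit' : ∀ (A : Type) [CommRing A] (y : VV n ⊕ (Y2 a s S ⊕ Unit) → A),
      Lc (rename (Sum.inl : VV n → VV n ⊕ (Y2 a s S ⊕ Unit)) '' XE P (insert s S))
        (X (Sum.inr (Sum.inl s'))) y →
      XP P (insert s S) (mx (fun i => y (Sum.inl i))) (nx (fun i => y (Sum.inl i))) ∧
      IsUnit (e2 a s S (fun i => y (Sum.inr (Sum.inl i))) s) := by
    intro A _ y hy
    obtain ⟨h1, h2⟩ := hy
    rw [pt_ren, pt_XE] at h1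
    refine ⟨h1, ?_⟩
    rw [ev_X] at h2
    have := e2_of (fun i => y (Sum.inr (Sum.inl i))) s'
    rw [this]
    exact h2
  refine (hG.gl_iso (E := ES a P S s.val) (p := X (Sum.inr (s.succ, 0)))
    (E' := rename (Sum.inl : VV n → VV n ⊕ (Y2 a s S ⊕ Unit)) '' XE P (insert s S))
    (p' := X (Sum.inr (Sum.inl s')))
    (fun A _ x => Sum.elim (pk (mm (mx x)) (N2 s (bb (nx x)) (mm (nx x))))
      (Sum.elim (fun i => y2 s S (bb (mx x)) (bb (nx x)) (mm (mx x)) (mm (nx x)) i.1)
        (fun _ => tt (mx x))))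
    (fun A _ y =>
      let M := mx (fun i => y (Sum.inl i))
      let N := nx (fun i => y (Sum.inl i))
      let b := e2 a s S (fun i => y (Sum.inr (Sum.inl i)))
      let t := y (Sum.inr (Sum.inr ()))
      pk (bk t (v2 s S b M N) (v2 s S b M N) M)
        (bk 0 (z2 s b M N) (z2 s b M N) (M2 s t b M N)))
    ?_ ?_ ?_ ?_ ?_ ?_).trans (go_free_unit hG _ _)
  · intro A B _ _ φ x hx j
    obtain ⟨_, hz, _⟩ := hunit A x hx
    rcases j with (⟨i, j⟩ | ⟨i, j⟩) | (i | i)
    · rfl
    · exact N2_map φ hz _ i j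
    · exact y2_map φ hz _ _ i.1
    · rfl
  · intro A B _ _ φ y hy i
    obtain ⟨_, hu⟩ := hunit' A y hy
    have he : (fun i => φ (e2 a s S (fun i => y (Sum.inr (Sum.inl i))) i)) =
        e2 a s S (fun i => φ (y (Sum.inr (Sum.inl i)))) := by
      funext i
      unfold e2
      split_ifs
      · rfl
      · exact map_zero φ
    have hM : (mx (fun i => y (Sum.inl i))).map φ = mx (fun i => φ (y (Sum.inl i))) := rfl
    have hN : (nx (fun i => y (Sum.inl i))).map φ = nx (fun i => φ (y (Sum.inl i))) := rfl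
    have hv := v2_map φ (s := s) (S := S) (e2 a s S (fun i => y (Sum.inr (Sum.inl i))))
      (mx (fun i => y (Sum.inl i))) (nx (fun i => y (Sum.inl i)))
    have hz := z2_map φ hu (mx (fun i => y (Sum.inl i))) (nx (fun i => y (Sum.inl i)))
    have hm := M2_map φ (y (Sum.inr (Sum.inr ()))) hu (mx (fun i => y (Sum.inl i)))
      (nx (fun i => y (Sum.inl i)))
    rw [he, hM, hN] at hv hz hm
    rcases i with ⟨i, j⟩ | ⟨i, j⟩
    · refine Fin.cases ?_ (fun i => ?_) i <;> refine Fin.cases ?_ (fun j => ?_) j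
      · rfl
      · exact hv j
      · exact hv i
      · rfl
    · refine Fin.cases ?_ (fun i => ?_) i <;> refine Fin.cases ?_ (fun j => ?_) j
      · exact map_zero φ
      · exact hz j
      · exact hz i
      · exact hm i j
  · intro A _ x hx
    obtain ⟨ht, hz, hl, _⟩ := hunit A x hx
    refine ⟨?_, ?_⟩
    · rw [pt_ren]
      show Pt (XE P (insert s S)) (pk (mm (mx x)) (N2 s (bb (nx x)) (mm (nx x))))
      rw [pt_XE, mx_pk, nx_pk]
      exact ht.i2 hz hs hl
    · rw [ev_X]
      show IsUnit (y2 s S (bb (mx x)) (bb (nx x)) (mm (mx x)) (mm (nx x)) s)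
      rw [ht.y2_s hs]
      exact hz.ringInverse
  · intro A _ y hy
    obtain ⟨hX, hu⟩ := hunit' A y hy
    have ht := hX.i2 hu hs (e2_above (fun i => y (Sum.inr (Sum.inl i))))
      (e2_in (fun i => y (Sum.inr (Sum.inl i)))) (y (Sum.inr (Sum.inr ())))
    refine ⟨?_, ?_⟩
    · rw [pt_ES]
      refine ⟨pt_of_tp ht, rfl, fun i hi => ?_⟩
      exact hX.z2_low hi
    · rw [ev_X]
      show IsUnit (z2 s _ _ _ s)
      rw [hX.z2_s]
      exact hu.ringInverse
  · intro A _ x hx
    obtain ⟨ht, hz, hl, e3, e4⟩ := hunit A x hx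
    have hX := ht.i2 hz hs hl
    have hy : e2 a s S (fun i => y2 s S (bb (mx x)) (bb (nx x)) (mm (mx x)) (mm (nx x)) i.1) =
        y2 s S (bb (mx x)) (bb (nx x)) (mm (mx x)) (mm (nx x)) := by
      funext i
      unfold e2
      split_ifs with h
      · rfl
      · rcases lt_or_ge a i with hi | hi
        · exact (ht.y2_above hsa hi).symm
        · have hiS : i ∈ S := by
            by_contra hh
            exact h ⟨hi, fun h' => absurd h' hh⟩
          have hsi : s < i := by
            rcases lt_trichotomy i s with h' | h' | h'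
            · exact absurd ⟨hi, fun _ => h'⟩ h
            · exact absurd (h' ▸ hiS) hs
            · exact h'
          exact (ht.y2_S hiS hsi).symm
    refine Eq.trans ?_ (pk_eta x)
    show pk (bk (tt (mx x))
        (v2 s S (e2 a s S (fun i => y2 s S (bb (mx x)) (bb (nx x)) (mm (mx x)) (mm (nx x)) i.1))
          (mm (mx x)) (N2 s (bb (nx x)) (mm (nx x))))
        (v2 s S (e2 a s S (fun i => y2 s S (bb (mx x)) (bb (nx x)) (mm (mx x)) (mm (nx x)) i.1))
          (mm (mx x)) (N2 s (bb (nx x)) (mm (nx x)))) (mm (mx x)))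
      (bk 0
        (z2 s (e2 a s S (fun i => y2 s S (bb (mx x)) (bb (nx x)) (mm (mx x)) (mm (nx x)) i.1))
          (mm (mx x)) (N2 s (bb (nx x)) (mm (nx x))))
        (z2 s (e2 a s S (fun i => y2 s S (bb (mx x)) (bb (nx x)) (mm (mx x)) (mm (nx x)) i.1))
          (mm (mx x)) (N2 s (bb (nx x)) (mm (nx x))))
        (M2 s (tt (mx x))
          (e2 a s S (fun i => y2 s S (bb (mx x)) (bb (nx x)) (mm (mx x)) (mm (nx x)) i.1))
          (mm (mx x)) (N2 s (bb (nx x)) (mm (nx x))))) = pk (mx x) (nx x)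
    rw [hy, ht.v2_back hz hs hl, ht.z2_back hz hs]
    have hu : IsUnit (y2 s S (bb (mx x)) (bb (nx x)) (mm (mx x)) (mm (nx x)) s) := by
      rw [ht.y2_s hs]; exact hz.ringInverse
    have h1 := hX.i2 (a := a) hu hs (fun i hi => ht.y2_above hsa hi) (fun i hi his => ht.y2_S hi his)
      (tt (mx x))
    rw [ht.v2_back hz hs hl, ht.z2_back hz hs] at h1
    have h2 := h1.to_xp.unique ht.to_xp
    rw [h2, ← e3, ← e4]
  · intro A _ y hy
    obtain ⟨hX, hu⟩ := hunit' A y hy
    have ht := hX.i2 hu hs (e2_above (fun i => y (Sum.inr (Sum.inl i))))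
      (e2_in (fun i => y (Sum.inr (Sum.inl i)))) (y (Sum.inr (Sum.inr ())))
    have hzu : IsUnit (z2 s (e2 a s S (fun i => y (Sum.inr (Sum.inl i))))
        (mx (fun i => y (Sum.inl i))) (nx (fun i => y (Sum.inl i))) s) := by
      rw [hX.z2_s]; exact hu.ringInverse
    have h1 := ht.i2 hzu hs (fun i hi => hX.z2_low hi)
    have h2 := h1.unique hX
    have h3 := hX.y2_back hu (y (Sum.inr (Sum.inr ())))
    funext i
    rcases i with (⟨i, j⟩ | ⟨i, j⟩) | (i | i)
    · rfl
    · exact congrFun (congrFun h2 i) j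
    · refine (congrFun h3 i.1).trans ?_
      exact e2_of (fun i => y (Sum.inr (Sum.inl i))) i
    · rfl

end Pool.Agent.KB
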