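import Pool.Agent.KB.Lap

/-!
# Splitting a vertex

`spl H v a b ε`: the neighbours `a` and `b` of the vertex `v` are attached to a new vertex `none`
instead of `v`; the new vertex is adjacent to `v` if `ε`.
-/

set_option autoImplicit false
set_option linter.unusedSectionVars false

namespace Pool.Agent.KB

variable {V : Type} {A : Type} [CommRing A]

/-- symmetric functions supported on the edges -/
def Sy (G : SimpleGraph V) (c : V → V → A) : Prop :=
  (∀ u w, c u w = c w u) ∧ ∀ u w, ¬ G.Adj u w → c u w = 0

/-- the vertex `v` split -/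
def spl (H : SimpleGraph V) (v a b : V) (ε : Prop) : SimpleGraph (Option V) where
  Adj i j := match i, j with
    | none, none => False
    | none, some u => u = a ∨ u = b ∨ (ε ∧ u = v)
    | some u, none => u = a ∨ u = b ∨ (ε ∧ u = v)
    | some u, some w => H.Adj u w ∧ ¬ (u = v ∧ (w = a ∨ w = b)) ∧ ¬ (w = v ∧ (u = a ∨ u = b))
  symm := ⟨by
    rintro (_ | u) (_ | w) h
    · exact h
    · exact h
    · exact h
    · exact ⟨h.1.symm, h.2.2, h.2.1⟩⟩
  loopless := ⟨by
    rintro (_ | u) h
    · exact h
    · exact h.1.ne rfl⟩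

/-- a new vertex adjacent to `p` and `q` -/
def addv (G : SimpleGraph V) (p q : V) : SimpleGraph (Option V) where
  Adj i j := match i, j with
    | none, none => False
    | none, some u => u = p ∨ u = q
    | some u, none => u = p ∨ u = q
    | some u, some w => G.Adj u w
  symm := ⟨by
    rintro (_ | u) (_ | w) h
    · exact h
    · exact h
    · exact h
    · exact SimpleGraph.Adj.symm (G := G) h⟩
  loopless := ⟨by
    rintro (_ | u) h
    · exact h
    · exact SimpleGraph.Adj.ne (G := G) h rfl⟩

variable [DecidableEq V]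

/-- the weights after the splitting -/
def c0 (v a b : V) (c : V → V → A) : Option V → Option V → A := fun i j =>
  match i, j with
  | none, none => 0
  | none, some u => if u = a ∨ u = b then c v u else 0
  | some u, none => if u = a ∨ u = b then c u v else 0
  | some u, some w => if (u = v ∧ (w = a ∨ w = b)) ∨ (w = v ∧ (u = a ∨ u = b)) then 0 else c u w

/-- the weights before the splitting -/
def un (v a b : V) (c : Option V → Option V → A) : V → V → A := fun u w =>
  if u = v ∧ (w = a ∨ w = b) then c none (some w) else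
    if w = v ∧ (u = a ∨ u = b) then c (some u) none else c (some u) (some w)

section

variable {v a b : V} (hva : v ≠ a) (hvb : v ≠ b)

include hva hvb

lemma mg_c0 (c : V → V → A) : mg v (c0 v a b c) = c := by
  funext u w
  have hva' := hva.symm
  have hvb' := hvb.symm
  simp only [mg, c0]
  by_cases hu : u = v
  · by_cases hw : w = v
    · subst hu; subst hw
      simp [hva, hvb]
    · subst hu
      by_cases hw' : w = a ∨ w = b
      · simp [hw, hw']
      · simp [hw, hw']
  · by_cases hw : w = v
    · subst hw
      by_cases hu' : u = a ∨ u = b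
      · simp [hu, hu']
      · simp [hu, hu']
    · simp [hu, hw]

lemma un_c0 (c : V → V → A) (x : A) :
    un v a b (fun i j => c0 v a b c i j + ed v x i j) = c := by
  funext u w
  simp only [un, c0, ed]
  by_cases h1 : u = v ∧ (w = a ∨ w = b)
  · have hw : w ≠ v := by
      rcases h1.2 with h | h
      · rw [h]; exact hva.symm
      · rw [h]; exact hvb.symm
    simp [h1.1, h1.2, hw]
  · by_cases h2 : w = v ∧ (u = a ∨ u = b)
    · have hu : u ≠ v := by
        rcases h2.2 with h | h
        · rw [h]; exact hva.symm
        · rw [h]; exact hvb.symm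
      simp [h2.1, h2.2, hu]
    · rw [if_neg h1, if_neg h2, if_neg (not_or.mpr ⟨h1, h2⟩), add_zero]

lemma sy_c0 {H : SimpleGraph V} {c : V → V → A} (hc : Sy H c) (x : A) :
    Sy (spl H v a b True) (fun i j => c0 v a b c i j + ed v x i j) := by
  refine ⟨?_, ?_⟩
  · rintro (_ | u) (_ | w)
    · rfl
    · simp only [c0, ed, hc.1 v w]
    · simp only [c0, ed, hc.1 v u]
    · simp only [c0, ed, hc.1 u w]
      congr 1
      exact if_congr or_comm rfl rfl
  · rintro (_ | u) (_ | w) h
    · simp [c0, ed]
    · have h' : ¬ (w = a ∨ w = b ∨ (True ∧ w = v)) := h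
      simp only [true_and, not_or] at h'
      simp [c0, ed, h'.1, h'.2.1, h'.2.2]
    · have h' : ¬ (u = a ∨ u = b ∨ (True ∧ u = v)) := h
      simp only [true_and, not_or] at h'
      simp [c0, ed, h'.1, h'.2.1, h'.2.2]
    · have h' : ¬ (H.Adj u w ∧ ¬ (u = v ∧ (w = a ∨ w = b)) ∧ ¬ (w = v ∧ (u = a ∨ u = b))) := h
      simp only [c0, ed, add_zero]
      by_cases h1 : (u = v ∧ (w = a ∨ w = b)) ∨ (w = v ∧ (u = a ∨ u = b))
      · rw [if_pos h1]
      · rw [if_neg h1]
        rw [not_or] at h1
        exact hc.2 _ _ fun hh => h' ⟨hh, h1.1, h1.2⟩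

lemma sy_c0' {H : SimpleGraph V} {c : V → V → A} (hc : Sy H c) :
    Sy (spl H v a b False) (c0 v a b c) := by
  refine ⟨?_, ?_⟩
  · rintro (_ | u) (_ | w)
    · rfl
    · simp only [c0, hc.1 v w]
    · simp only [c0, hc.1 v u]
    · simp only [c0, hc.1 u w]
      exact if_congr or_comm rfl rfl
  · rintro (_ | u) (_ | w) h
    · simp [c0]
    · have h' : ¬ (w = a ∨ w = b ∨ (False ∧ w = v)) := h
      simp only [false_and, or_false] at h'
      simp [c0, h']
    · have h' : ¬ (u = a ∨ u = b ∨ (False ∧ u = v)) := h
      simp only [false_and, or_false] at h'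
      simp [c0, h']
    · have h' : ¬ (H.Adj u w ∧ ¬ (u = v ∧ (w = a ∨ w = b)) ∧ ¬ (w = v ∧ (u = a ∨ u = b))) := h
      simp only [c0]
      by_cases h1 : (u = v ∧ (w = a ∨ w = b)) ∨ (w = v ∧ (u = a ∨ u = b))
      · rw [if_pos h1]
      · rw [if_neg h1]
        rw [not_or] at h1
        exact hc.2 _ _ fun hh => h' ⟨hh, h1.1, h1.2⟩

lemma sy_un {H : SimpleGraph V} (ha : H.Adj v a) (hb : H.Adj v b)
    {c : Option V → Option V → A} (hc : Sy (spl H v a b True) c) : Sy H (un v a b c) := by
  refine ⟨fun u w => ?_, fun u w h => ?_⟩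
  · simp only [un]
    by_cases h1 : u = v ∧ (w = a ∨ w = b)
    · have hw : w ≠ v := by
        rcases h1.2 with h | h
        · rw [h]; exact hva.symm
        · rw [h]; exact hvb.symm
      rw [if_pos h1, if_neg (fun h => hw h.1), if_pos h1]
      exact hc.1 _ _
    · by_cases h2 : w = v ∧ (u = a ∨ u = b)
      · rw [if_neg h1, if_pos h2, if_pos h2]
        exact hc.1 _ _
      · rw [if_neg h1, if_neg h2, if_neg h2, if_neg h1]
        exact hc.1 _ _
  · simp only [un]
    have h1 : ¬ (u = v ∧ (w = a ∨ w = b)) := by
      rintro ⟨rfl, rfl | rfl⟩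
      · exact h ha
      · exact h hb
    have h2 : ¬ (w = v ∧ (u = a ∨ u = b)) := by
      rintro ⟨rfl, rfl | rfl⟩
      · exact h ha.symm
      · exact h hb.symm
    rw [if_neg h1, if_neg h2]
    exact hc.2 _ _ fun hh => h hh.1

lemma eq_c0 {H : SimpleGraph V} {c : Option V → Option V → A}
    (hc : Sy (spl H v a b True) c) :
    (fun i j => c0 v a b (un v a b c) i j + ed v (c none (some v)) i j) = c := by
  funext i j
  rcases i with _ | u <;> rcases j with _ | w
  · simp only [c0, ed, add_zero]
    exact (hc.2 none none (show ¬ (spl H v a b True).Adj none none from fun h => h)).symm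
  · simp only [c0, ed]
    by_cases hw : w = a ∨ w = b
    · have hwv : w ≠ v := by
        rcases hw with h | h
        · rw [h]; exact hva.symm
        · rw [h]; exact hvb.symm
      simp [un, hw, hwv]
    · by_cases hwv : w = v
      · simp [hwv, hva, hvb]
      · rw [if_neg hw, if_neg hwv, add_zero]
        refine (hc.2 _ _ fun h => ?_).symm
        have h' : w = a ∨ w = b ∨ (True ∧ w = v) := h
        rw [← or_assoc] at h'
        rcases h' with h' | h'
        · exact hw h'
        · exact hwv h'.2
  · simp only [c0, ed]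
    by_cases hu : u = a ∨ u = b
    · have huv : u ≠ v := by
        rcases hu with h | h
        · rw [h]; exact hva.symm
        · rw [h]; exact hvb.symm
      simp [un, hu, huv]
    · by_cases huv : u = v
      · rw [if_neg hu, if_pos huv, huv, zero_add]
        exact hc.1 _ _
      · rw [if_neg hu, if_neg huv, add_zero]
        refine (hc.2 _ _ fun h => ?_).symm
        have h' : u = a ∨ u = b ∨ (True ∧ u = v) := h
        rw [← or_assoc] at h'
        rcases h' with h' | h'
        · exact hu h'
        · exact huv h'.2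
  · simp only [c0, ed, add_zero]
    by_cases h1 : (u = v ∧ (w = a ∨ w = b)) ∨ (w = v ∧ (u = a ∨ u = b))
    · rw [if_pos h1]
      refine (hc.2 _ _ fun h => ?_).symm
      have h' : H.Adj u w ∧ ¬ (u = v ∧ (w = a ∨ w = b)) ∧ ¬ (w = v ∧ (u = a ∨ u = b)) := h
      rcases h1 with h1 | h1
      · exact h'.2.1 h1
      · exact h'.2.2 h1
    · rw [if_neg h1]
      rw [not_or] at h1
      simp only [un]
      rw [if_neg h1.1, if_neg h1.2]

omit [DecidableEq V] hva hvb in
lemma sy_mono {H : SimpleGraph V} {c : Option V → Option V → A}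
    (hc : Sy (spl H v a b False) c) : Sy (spl H v a b True) c := by
  refine ⟨hc.1, fun i j h => hc.2 i j fun hh => h ?_⟩
  rcases i with _ | u <;> rcases j with _ | w
  · exact hh
  · have h' : w = a ∨ w = b ∨ (False ∧ w = v) := hh
    show w = a ∨ w = b ∨ (True ∧ w = v)
    tauto
  · have h' : u = a ∨ u = b ∨ (False ∧ u = v) := hh
    show u = a ∨ u = b ∨ (True ∧ u = v)
    tauto
  · exact hh

lemma eq_c0' {H : SimpleGraph V} {c : Option V → Option V → A}
    (hc : Sy (spl H v a b False) c) : c0 v a b (un v a b c) = c := by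
  have h1 : c none (some v) = 0 := hc.2 _ _ (by
    show ¬ (v = a ∨ v = b ∨ (False ∧ v = v))
    simp [hva, hvb])
  have h2 := eq_c0 hva hvb (sy_mono hc)
  rw [h1] at h2
  refine Eq.trans ?_ h2
  funext i j
  rcases i with _ | u <;> rcases j with _ | w <;> simp [ed]

lemma un_c0' (c : V → V → A) : un v a b (c0 v a b c) = c := by
  refine Eq.trans ?_ (un_c0 hva hvb c 0)
  congr 1
  funext i j
  rcases i with _ | u <;> rcases j with _ | w <;> simp [ed]

end

/-! ### A new vertex with two neighbours -/

section

variable {p q : V} (hpq : p ≠ q)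

include hpq

lemma sy_addv {G : SimpleGraph V} {c : V → V → A} (hc : Sy G c) (x y : A) :
    Sy (addv G p q) (fun i j => ex c i j + ed p x i j + ed q y i j) := by
  refine ⟨?_, ?_⟩
  · rintro (_ | u) (_ | w)
    · rfl
    · simp only [ex, ed]
    · simp only [ex, ed]
    · simp only [ex, ed, hc.1 u w]
  · rintro (_ | u) (_ | w) h
    · simp [ex, ed]
    · have h' : ¬ (w = p ∨ w = q) := h
      rw [not_or] at h'
      simp [ex, ed, h'.1, h'.2]
    · have h' : ¬ (u = p ∨ u = q) := h
      rw [not_or] at h'
      simp [ex, ed, h'.1, h'.2]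
    · simp only [ex, ed, add_zero]
      exact hc.2 _ _ h

omit [DecidableEq V] hpq in
lemma sy_addv_some {G : SimpleGraph V} {c : Option V → Option V → A}
    (hc : Sy (addv G p q) c) : Sy G (fun u w => c (some u) (some w)) :=
  ⟨fun _ _ => hc.1 _ _, fun _ _ h => hc.2 _ _ h⟩

lemma eq_addv {G : SimpleGraph V} {c : Option V → Option V → A} (hc : Sy (addv G p q) c) :
    (fun i j => ex (fun u w => c (some u) (some w)) i j + ed p (c none (some p)) i j +
      ed q (c none (some q)) i j) = c := by
  funext i j
  rcases i with _ | u <;> rcases j with _ | w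
  · simp only [ex, ed, add_zero]
    exact (hc.2 none none (show ¬ (addv G p q).Adj none none from fun h => h)).symm
  · simp only [ex, ed]
    by_cases h1 : w = p
    · have h2 : w ≠ q := fun h => hpq (h1.symm.trans h)
      rw [if_pos h1, if_neg h2, h1]
      ring
    · by_cases h2 : w = q
      · rw [if_neg h1, if_pos h2, h2]
        ring
      · rw [if_neg h1, if_neg h2, hc.2 none (some w) (fun h => by
          rcases (show w = p ∨ w = q from h) with h | h
          · exact h1 h
          · exact h2 h)]
        ring
  · simp only [ex, ed]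
    by_cases h1 : u = p
    · have h2 : u ≠ q := fun h => hpq (h1.symm.trans h)
      rw [if_pos h1, if_neg h2, h1, hc.1 (some p) none]
      ring
    · by_cases h2 : u = q
      · rw [if_neg h1, if_pos h2, h2, hc.1 (some q) none]
        ring
      · rw [if_neg h1, if_neg h2, hc.2 (some u) none (fun h => by
          rcases (show u = p ∨ u = q from h) with h | h
          · exact h1 h
          · exact h2 h)]
        ring
  · simp only [ex, ed, add_zero]

end

end Pool.Agent.KB
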