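import Pool.Agent.KB.Contract
import Pool.Agent.KB.Spl

/-!
# Splitting a vertex of a graph: the graph hypersurfaces
-/

set_option autoImplicit false
set_option linter.unusedSectionVars false

open Matrix MvPolynomial
open Pool.Agent.Helper81.CP Pool.Agent.Helper81.HG
open Pool.Agent.Helper50.KR (kirchhoff redLap matrix_tree)

namespace Pool.Agent.KB

variable {G : ∀ (R : Type) [CommRing R], Prop}

section

variable {V : Type}

open Classical in
/-- the weight function of a weighting of the edges -/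
noncomputable def cf {A : Type} [CommRing A] (H : SimpleGraph V) (x : H.edgeSet → A) : V → V → A :=
  fun u w => if h : H.Adj u w then x ⟨s(u, w), h⟩ else 0

lemma cf_map {A B : Type} [CommRing A] [CommRing B] (φ : A →+* B) (H : SimpleGraph V)
    (x : H.edgeSet → A) (u w : V) : φ (cf H x u w) = cf H (fun e => φ (x e)) u w := by
  unfold cf
  split_ifs
  · rfl
  · exact map_zero φ

lemma sy_cf {A : Type} [CommRing A] (H : SimpleGraph V) (x : H.edgeSet → A) : Sy H (cf H x) := by
  refine ⟨fun u w => ?_, fun u w h => dif_neg h⟩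
  unfold cf
  by_cases h : H.Adj u w
  · rw [dif_pos h, dif_pos h.symm]
    congr 1
    exact Subtype.ext Sym2.eq_swap
  · rw [dif_neg h, dif_neg fun hh => h hh.symm]

/-- symmetric weight functions supported on the edges -/
noncomputable def PS (H : SimpleGraph V) : Set (MvPolynomial (V × V) ℤ) :=
  {f | (∃ u w, f = X (u, w) - X (w, u)) ∨ ∃ u w, ¬ H.Adj u w ∧ f = X (u, w)}

lemma pt_PS {A : Type} [CommRing A] {H : SimpleGraph V} {x : V × V → A} :
    Pt (PS H) x ↔ Sy H (fun u w => x (u, w)) := by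
  constructor
  · intro h
    refine ⟨fun u w => ?_, fun u w hn => ?_⟩
    · have := h _ (Or.inl ⟨u, w, rfl⟩)
      rw [map_sub, ev_X, ev_X] at this
      exact sub_eq_zero.mp this
    · have := h _ (Or.inr ⟨u, w, hn, rfl⟩)
      rwa [ev_X] at this
  · rintro ⟨h1, h2⟩ f (⟨u, w, rfl⟩ | ⟨u, w, hn, rfl⟩)
    · rw [map_sub, ev_X, ev_X]
      exact sub_eq_zero.mpr (h1 u w)
    · rw [ev_X]
      exact h2 u w hn

/-- from edges to pairs of vertices -/
lemma gs_edges [Finite V] (hG : RG G) (H : SimpleGraph V) (D : Set (MvPolynomial H.edgeSet ℤ))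
    (D' : Set (MvPolynomial (V × V) ℤ))
    (h : ∀ (A : Type) [CommRing A] (x : H.edgeSet → A),
      Pt D x ↔ Pt D' (fun q => cf H x q.1 q.2)) :
    GS G D ↔ GS G (D' ∪ PS H) := by
  have hun : ∀ (A : Type) [CommRing A] (y : V × V → A), Pt (D' ∪ PS H) y ↔
      Pt D' y ∧ Pt (PS H) y := by
    intro A _ y
    exact ⟨fun hh => ⟨fun p hp => hh p (Or.inl hp), fun p hp => hh p (Or.inr hp)⟩,
      fun hh p hp => hp.elim (hh.1 p) (hh.2 p)⟩
  have hout : ∀ (A : Type) [CommRing A] (y : V × V → A), Sy H (fun u w => y (u, w)) →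
      (fun q : V × V => cf H (fun e : H.edgeSet => y (Quot.out e.1)) q.1 q.2) = y := by
    intro A _ y hy
    funext ⟨u, w⟩
    unfold cf
    by_cases hh : H.Adj u w
    · rw [dif_pos hh]
      show y (Quot.out s(u, w)) = y (u, w)
      have h1 : s((Quot.out s(u, w)).1, (Quot.out s(u, w)).2) = s(u, w) := Quot.out_eq _
      rcases Sym2.eq_iff.mp h1 with ⟨h2, h3⟩ | ⟨h2, h3⟩
      · exact congrArg y (Prod.ext h2 h3)
      · exact (congrArg y (Prod.ext h2 h3 : Quot.out s(u, w) = (w, u))).trans (hy.1 w u)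
    · rw [dif_neg hh]
      exact (hy.2 u w hh).symm
  refine hG.gs_iso (E := D) (E' := D' ∪ PS H) (fun A _ x => fun q => cf H x q.1 q.2)
    (fun A _ y => fun e => y (Quot.out e.1)) ?_ ?_ ?_ ?_ ?_ ?_
  · intro A B _ _ φ x _ q
    exact cf_map φ H x _ _
  · intro A B _ _ φ y _ e
    rfl
  · intro A _ x hx
    rw [hun]
    exact ⟨(h A x).mp hx, pt_PS.mpr (sy_cf H x)⟩
  · intro A _ y hy
    rw [hun, pt_PS] at hy
    rw [h, hout A y hy.2]
    exact hy.1
  · intro A _ x _
    funext e
    have h1 : s((Quot.out e.1).1, (Quot.out e.1).2) = e.1 := Quot.out_eq _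
    show cf H x (Quot.out e.1).1 (Quot.out e.1).2 = x e
    have h2 : H.Adj (Quot.out e.1).1 (Quot.out e.1).2 := by
      rw [← SimpleGraph.mem_edgeSet]
      rw [h1]
      exact e.2
    unfold cf
    rw [dif_pos h2]
    congr 1
    exact Subtype.ext h1
  · intro A _ y hy
    rw [hun, pt_PS] at hy
    exact hout A y hy.2

/-- symmetric weight functions supported on the edges form an affine space -/
lemma gs_PS [Finite V] (hG : RG G) (h0 : GS G (∅ : Set (MvPolynomial Empty ℤ)))
    (H : SimpleGraph V) : GS G (PS H) := by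
  have h1 := (gs_edges hG H ∅ ∅ (fun A _ x => ⟨fun _ p hp => absurd hp (Set.notMem_empty _),
    fun _ p hp => absurd hp (Set.notMem_empty _)⟩)).mp (gs_affine hG h0 _)
  rwa [Set.empty_union] at h1

end

section

variable {V : Type} [Fintype V] [DecidableEq V]

open Classical in
lemma sum_inc {A : Type} [CommRing A] (H : SimpleGraph V) (v : V) (x : H.edgeSet → A) :
    (∑ e : H.edgeSet, if v ∈ e.1 then x e else 0) = ∑ z, cf H x v z := by
  have h1 : ∑ z, cf H x v z = ∑ z : {z // H.Adj v z}, x ⟨s(v, z.1), z.2⟩ := by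
    have h2 : ∑ z, cf H x v z = ∑ z ∈ Finset.univ.filter (fun z => H.Adj v z), cf H x v z := by
      rw [Finset.sum_filter]
      refine Finset.sum_congr rfl fun z _ => ?_
      unfold cf
      split_ifs <;> rfl
    rw [h2, Finset.sum_subtype (Finset.univ.filter (fun z => H.Adj v z))
      (p := fun z => H.Adj v z) (by simp)]
    refine Finset.sum_congr rfl fun z _ => ?_
    unfold cf
    rw [dif_pos z.2]
  have h3 : (∑ e : H.edgeSet, if v ∈ e.1 then x e else 0) =
      ∑ e : {e : H.edgeSet // v ∈ e.1}, x e.1 := by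
    rw [← Finset.sum_filter, Finset.sum_subtype (Finset.univ.filter (fun e : H.edgeSet => v ∈ e.1))
      (p := fun e : H.edgeSet => v ∈ e.1) (by simp)]
  rw [h1, h3]
  symm
  refine Fintype.sum_equiv (Equiv.ofBijective
    (fun z : {z // H.Adj v z} => (⟨⟨s(v, z.1), z.2⟩, Sym2.mem_mk_left _ _⟩ :
      {e : H.edgeSet // v ∈ e.1})) ⟨?_, ?_⟩) _ _ fun z => rfl
  · intro z z' h
    have h4 : s(v, z.1) = s(v, z'.1) := congrArg (fun e => e.1.1) h
    exact Subtype.ext (Sym2.congr_right.mp h4)
  · rintro ⟨⟨e, he⟩, hv⟩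
    obtain ⟨z, rfl⟩ := Sym2.mem_iff_exists.mp hv
    exact ⟨⟨z, he⟩, rfl⟩

lemma redLap_cf {A : Type} [CommRing A] (H : SimpleGraph V) (o : V) (x : H.edgeSet → A) :
    redLap H o x = rL o (cf H x) := by
  classical
  ext v w
  have h0 : rL o (cf H x) v w =
    (if v.1 = w.1 then ∑ z, cf H x v.1 z else 0) - cf H x v.1 w.1 := rfl
  rw [h0]
  unfold redLap
  by_cases hvw : v = w
  · subst hvw
    rw [if_pos rfl, if_pos rfl]
    have h1 : cf H x v.1 v.1 = 0 := dif_neg (fun h => h.ne rfl)
    rw [h1, sub_zero]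
    have h2 := sum_inc H v.1 x
    convert h2
  · rw [if_neg hvw, if_neg (fun h => hvw (Subtype.ext h)), zero_sub]
    unfold cf
    split_ifs
    · rfl
    · rw [neg_zero]

/-- the determinant of the reduced Laplacian -/
noncomputable def dL (o : V) : MvPolynomial (V × V) ℤ := (rL o (fun u w => X (u, w))).det

lemma ev_dL {A : Type} [CommRing A] (o : V) (x : V × V → A) :
    ev x (dL o) = (rL o (fun u w => x (u, w))).det := by
  unfold dL
  rw [map_rL]
  simp only [ev_X]

/-- **Graph hypersurfaces by weight functions.** -/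
theorem gs_kir (hG : RG G) (H : SimpleGraph V) (o : V) :
    GS G ({kirchhoff H} : Set (MvPolynomial H.edgeSet ℤ)) ↔ GS G (insert (dL o) (PS H)) := by
  rw [← Set.singleton_union]
  refine gs_edges hG H _ _ fun A _ x => ?_
  have h1 : ev x (kirchhoff H) = ev (fun q : V × V => cf H x q.1 q.2) (dL o) := by
    rw [ev_eq_aeval, ← matrix_tree H o x, redLap_cf, ev_dL]
  constructor
  · intro h p hp
    rw [Set.mem_singleton_iff.mp hp, ← h1]
    exact h _ rfl
  · intro h p hp
    rw [Set.mem_singleton_iff.mp hp, h1]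
    exact h _ rfl

end

end Pool.Agent.KB
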