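import Pool.Agent.KB.SplG

/-!
# Splitting a vertex of a graph: the step
-/

set_option autoImplicit false
set_option linter.unusedSectionVars false

open Matrix MvPolynomial
open Pool.Agent.Helper81.CP Pool.Agent.Helper81.HG
open Pool.Agent.Helper50.KR (kirchhoff)

namespace Pool.Agent.KB

variable {G : ∀ (R : Type) [CommRing R], Prop} {V : Type} [DecidableEq V]

section maps

variable {A B : Type} [CommRing A] [CommRing B] (φ : A →+* B)

lemma c0_map (v a b : V) (c : V → V → A) (i j : Option V) :
    φ (c0 v a b c i j) = c0 v a b (fun u w => φ (c u w)) i j := by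
  rcases i with _ | u <;> rcases j with _ | w <;> simp only [c0]
  · exact map_zero φ
  · split_ifs <;> simp
  · split_ifs <;> simp
  · split_ifs <;> simp

lemma un_map (v a b : V) (c : Option V → Option V → A) (u w : V) :
    φ (un v a b c u w) = un v a b (fun i j => φ (c i j)) u w := by
  simp only [un]
  split_ifs <;> rfl

lemma ed_map (t : V) (x : A) (i j : Option V) : φ (ed t x i j) = ed t (φ x) i j := by
  rcases i with _ | u <;> rcases j with _ | w <;> simp only [ed]
  · exact map_zero φ
  · split_ifs <;> simp
  · split_ifs <;> simp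
  · exact map_zero φ

omit [DecidableEq V] in
lemma ex_map (c : V → V → A) (i j : Option V) :
    φ (ex c i j) = ex (fun u w => φ (c u w)) i j := by
  rcases i with _ | u <;> rcases j with _ | w <;> simp only [ex]
  · exact map_zero φ
  · exact map_zero φ
  · exact map_zero φ

end maps

section

variable [Fintype V]

/-- the determinant after the splitting -/
noncomputable def bL (v a b o : V) : MvPolynomial (V × V) ℤ :=
  (rL (some o) (c0 v a b (fun u w => X (u, w)))).det

lemma ev_bL {A : Type} [CommRing A] (v a b o : V) (x : V × V → A) :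
    ev x (bL v a b o) = (rL (some o) (c0 v a b (fun u w => x (u, w)))).det := by
  unfold bL
  rw [map_rL]
  simp only [c0_map, ev_X]

variable {v a b : V}

lemma gs_J0 (hG : RG G) {H : SimpleGraph V} (ha : H.Adj v a) (hb : H.Adj v b) (o : V)
    (h : GS G ({kirchhoff (spl H v a b False)} :
      Set (MvPolynomial (spl H v a b False).edgeSet ℤ))) :
    GS G (insert (bL v a b o) (PS H)) := by
  have hva : v ≠ a := ha.ne
  have hvb : v ≠ b := hb.ne
  refine (hG.gs_iso (E := insert (dL (some o)) (PS (spl H v a b False)))
    (E' := insert (bL v a b o) (PS H))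
    (fun A _ x => fun q => un v a b (fun i j => x (i, j)) q.1 q.2)
    (fun A _ y => fun q => c0 v a b (fun u w => y (u, w)) q.1 q.2) ?_ ?_ ?_ ?_ ?_ ?_).mp
      ((gs_kir hG _ (some o)).mp h)
  · intro A B _ _ φ x _ q
    exact un_map φ v a b _ _ _
  · intro A B _ _ φ y _ q
    exact c0_map φ v a b _ _ _
  · intro A _ x hx
    rw [Pt.insert_iff, ev_dL, pt_PS] at hx
    rw [Pt.insert_iff, ev_bL, pt_PS]
    refine ⟨?_, sy_un hva hvb ha hb (sy_mono hx.2)⟩
    have h1 := eq_c0' hva hvb hx.2
    show (rL (some o) (c0 v a b (un v a b fun i j => x (i, j)))).det = 0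
    rw [h1]
    exact hx.1
  · intro A _ y hy
    rw [Pt.insert_iff, ev_bL, pt_PS] at hy
    rw [Pt.insert_iff, ev_dL, pt_PS]
    exact ⟨hy.1, sy_c0' hva hvb hy.2⟩
  · intro A _ x hx
    rw [Pt.insert_iff, pt_PS] at hx
    have h1 := eq_c0' hva hvb hx.2
    funext q
    exact congrFun (congrFun h1 q.1) q.2
  · intro A _ y _
    funext q
    exact congrFun (congrFun (un_c0' hva hvb (fun u w => y (u, w))) q.1) q.2

lemma gs_J1 (hG : RG G) {H : SimpleGraph V} (ha : H.Adj v a) (hb : H.Adj v b) (o : V)
    (h : GS G ({kirchhoff (spl H v a b True)} :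
      Set (MvPolynomial (spl H v a b True).edgeSet ℤ))) :
    GS G (insert (fS (dL o) (bL v a b o)) (lft (PS H))) := by
  have hva : v ≠ a := ha.ne
  have hvb : v ≠ b := hb.ne
  have hdet : ∀ (A : Type) [CommRing A] (x : A) (c : V → V → A),
      (rL (some o) (fun i j => c0 v a b c i j + ed v x i j)).det =
      x * (rL o c).det + (rL (some o) (c0 v a b c)).det := by
    intro A _ x c
    rw [det_add_edge, mg_c0 hva hvb, add_comm]
  refine (hG.gs_iso (E := insert (dL (some o)) (PS (spl H v a b True)))
    (E' := insert (fS (dL o) (bL v a b o)) (lft (PS H)))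
    (fun A _ x => fun r => r.elim (x (none, some v))
      (fun q => un v a b (fun i j => x (i, j)) q.1 q.2))
    (fun A _ y => fun q => c0 v a b (fun u w => y (some (u, w))) q.1 q.2 +
      ed v (y none) q.1 q.2) ?_ ?_ ?_ ?_ ?_ ?_).mp
      ((gs_kir hG _ (some o)).mp h)
  · intro A B _ _ φ x _ r
    rcases r with _ | q
    · rfl
    · exact un_map φ v a b (fun i j => x (i, j)) q.1 q.2
  · intro A B _ _ φ y _ q
    show φ (_ + _) = _ + _
    rw [map_add, c0_map, ed_map]
  · intro A _ x hx
    rw [Pt.insert_iff, ev_dL, pt_PS] at hx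
    rw [Pt.insert_iff, ev_fS, ev_dL, ev_bL, Pt.lft_iff, pt_PS]
    refine ⟨?_, sy_un hva hvb ha hb hx.2⟩
    have h1 := eq_c0 hva hvb hx.2
    have h2 := hdet A (x (none, some v)) (un v a b fun i j => x (i, j))
    rw [h1, hx.1] at h2
    exact h2.symm
  · intro A _ y hy
    rw [Pt.insert_iff, ev_fS, ev_dL, ev_bL, Pt.lft_iff, pt_PS] at hy
    rw [Pt.insert_iff, ev_dL, pt_PS]
    refine ⟨?_, sy_c0 hva hvb hy.2 _⟩
    show (rL (some o) (fun i j => c0 v a b (fun u w => y (some (u, w))) i j +
      ed v (y none) i j)).det = 0
    rw [hdet]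
    exact hy.1
  · intro A _ x hx
    rw [Pt.insert_iff, pt_PS] at hx
    have h1 := eq_c0 hva hvb hx.2
    funext q
    exact congrFun (congrFun h1 q.1) q.2
  · intro A _ y _
    funext r
    rcases r with _ | q
    · show c0 v a b (fun u w => y (some (u, w))) none (some v) +
        ed v (y none) none (some v) = y none
      simp [c0, ed, hva, hvb]
    · exact congrFun (congrFun (un_c0 hva hvb (fun u w => y (some (u, w))) (y none)) q.1) q.2

lemma gs_J2 (hG : RG G) {H : SimpleGraph V} (ha : H.Adj v a) (hb : H.Adj v b) (o : V)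
    (h : GS G ({kirchhoff (addv (spl H v a b False) none (some v))} :
      Set (MvPolynomial (addv (spl H v a b False) none (some v)).edgeSet ℤ))) :
    GS G (insert (fD (dL o) (bL v a b o)) (lft (lft (PS H)))) := by
  have hva : v ≠ a := ha.ne
  have hvb : v ≠ b := hb.ne
  have hnv : (none : Option V) ≠ some v := (Option.some_ne_none v).symm
  have hdet : ∀ (A : Type) [CommRing A] (x y : A) (c : V → V → A),
      (rL (some (some o)) (fun i j => ex (c0 v a b c) i j + ed none x i j +
        ed (some v) y i j)).det =
      x * y * (rL o c).det + (x + y) * (rL (some o) (c0 v a b c)).det := by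
    intro A _ x y c
    rw [det_double, mg_c0 hva hvb]
  refine (hG.gs_iso (E := insert (dL (some (some o)))
      (PS (addv (spl H v a b False) none (some v))))
    (E' := insert (fD (dL o) (bL v a b o)) (lft (lft (PS H))))
    (fun A _ x => fun r => r.elim (x (none, some none)) (fun r' => r'.elim
      (x (none, some (some v)))
      (fun q => un v a b (fun i j => x (some i, some j)) q.1 q.2)))
    (fun A _ y => fun q => ex (c0 v a b (fun u w => y (some (some (u, w))))) q.1 q.2 +
      ed none (y none) q.1 q.2 + ed (some v) (y (some none)) q.1 q.2) ?_ ?_ ?_ ?_ ?_ ?_).mp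
      ((gs_kir hG _ (some (some o))).mp h)
  · intro A B _ _ φ x _ r
    rcases r with _ | _ | q
    · rfl
    · rfl
    · exact un_map φ v a b (fun i j => x (some i, some j)) q.1 q.2
  · intro A B _ _ φ y _ q
    show φ (_ + _ + _) = _ + _ + _
    rw [map_add, map_add, ex_map, ed_map, ed_map]
    simp only [c0_map]
  · intro A _ x hx
    rw [Pt.insert_iff, ev_dL, pt_PS] at hx
    rw [Pt.insert_iff, ev_fD, ev_dL, ev_bL, pt_ll, pt_PS]
    have hs := sy_addv_some hx.2
    refine ⟨?_, sy_un hva hvb ha hb (sy_mono hs)⟩
    have h1 := eq_c0' hva hvb hs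
    have h3 := eq_addv hnv hx.2
    have h2 := hdet A (x (none, some none)) (x (none, some (some v)))
      (un v a b fun i j => x (some i, some j))
    have h5 : (fun i j => ex (c0 v a b (un v a b fun i j => x (some i, some j))) i j +
        ed none (x (none, some none)) i j + ed (some v) (x (none, some (some v))) i j) =
        fun i j => x (i, j) := by
      rw [h1]
      exact h3
    refine h2.symm.trans ?_
    rw [h5]
    exact hx.1
  · intro A _ y hy
    rw [Pt.insert_iff, ev_fD, ev_dL, ev_bL, pt_ll, pt_PS] at hy
    rw [Pt.insert_iff, ev_dL, pt_PS]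
    refine ⟨?_, sy_addv hnv (sy_c0' hva hvb hy.2) _ _⟩
    show (rL (some (some o)) (fun i j => ex (c0 v a b (fun u w => y (some (some (u, w))))) i j +
      ed none (y none) i j + ed (some v) (y (some none)) i j)).det = 0
    rw [hdet]
    exact hy.1
  · intro A _ x hx
    rw [Pt.insert_iff, pt_PS] at hx
    have hs := sy_addv_some hx.2
    have h1 := eq_c0' hva hvb hs
    have h3 := eq_addv hnv hx.2
    funext q
    show ex (c0 v a b (un v a b fun i j => x (some i, some j))) q.1 q.2 +
      ed none (x (none, some none)) q.1 q.2 + ed (some v) (x (none, some (some v))) q.1 q.2 = x q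
    rw [h1]
    exact congrFun (congrFun h3 q.1) q.2
  · intro A _ y _
    funext r
    rcases r with _ | _ | q
    · show ex (c0 v a b (fun u w => y (some (some (u, w))))) none (some none) +
        ed none (y none) none (some none) + ed (some v) (y (some none)) none (some none) = y none
      simp [ex, ed]
    · show ex (c0 v a b (fun u w => y (some (some (u, w))))) none (some (some v)) +
        ed none (y none) none (some (some v)) +
        ed (some v) (y (some none)) none (some (some v)) = y (some none)
      simp [ex, ed]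
    · show un v a b (fun i j => ex (c0 v a b (fun u w => y (some (some (u, w))))) (some i) (some j) +
        ed none (y none) (some i) (some j) + ed (some v) (y (some none)) (some i) (some j)) q.1 q.2 =
        y (some (some q))
      have h1 : (fun i j => ex (c0 v a b (fun u w => y (some (some (u, w))))) (some i) (some j) +
        ed none (y none) (some i) (some j) + ed (some v) (y (some none)) (some i) (some j)) =
        c0 v a b (fun u w => y (some (some (u, w)))) := by
        funext i j
        simp [ex, ed]
      rw [h1]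
      exact congrFun (congrFun (un_c0' hva hvb (fun u w => y (some (some (u, w))))) q.1) q.2

/-- **Splitting a vertex.** -/
theorem kir_step (hG : RG G) (hpt : GS G (∅ : Set (MvPolynomial Empty ℤ)))
    {H : SimpleGraph V} (ha : H.Adj v a) (hb : H.Adj v b)
    (h0 : GS G ({kirchhoff (spl H v a b False)} :
      Set (MvPolynomial (spl H v a b False).edgeSet ℤ)))
    (h1 : GS G ({kirchhoff (spl H v a b True)} :
      Set (MvPolynomial (spl H v a b True).edgeSet ℤ)))
    (h2 : GS G ({kirchhoff (addv (spl H v a b False) none (some v))} :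
      Set (MvPolynomial (addv (spl H v a b False) none (some v)).edgeSet ℤ))) :
    GS G ({kirchhoff H} : Set (MvPolynomial H.edgeSet ℤ)) :=
  (gs_kir hG H v).mpr (contract hG (gs_PS hG hpt H) (gs_J0 hG ha hb v h0) (gs_J1 hG ha hb v h1)
    (gs_J2 hG ha hb v h2))

end

end Pool.Agent.KB
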