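import Pool.Agent.KB.Alg3
import Pool.Agent.Helper81.HG.Base

/-!
# The strata as systems of equations
-/

set_option autoImplicit false
set_option linter.unusedSectionVars false

open Matrix MvPolynomial
open Pool.Agent.Helper81.CP Pool.Agent.Helper81.HG

namespace Pool.Agent.KB

/-- the variables: the entries of two matrices -/
abbrev VV (n : ℕ) : Type := (Fin n × Fin n) ⊕ (Fin n × Fin n)

section mats

variable {A : Type} {n : ℕ}

/-- the first matrix -/
def mx (x : VV n → A) : Matrix (Fin n) (Fin n) A := Matrix.of fun i j => x (Sum.inl (i, j))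

/-- the second matrix -/
def nx (x : VV n → A) : Matrix (Fin n) (Fin n) A := Matrix.of fun i j => x (Sum.inr (i, j))

/-- the point given by two matrices -/
def pk (M N : Matrix (Fin n) (Fin n) A) : VV n → A :=
  Sum.elim (fun p => M p.1 p.2) (fun p => N p.1 p.2)

@[simp] lemma mx_pk (M N : Matrix (Fin n) (Fin n) A) : mx (pk M N) = M := rfl
@[simp] lemma nx_pk (M N : Matrix (Fin n) (Fin n) A) : nx (pk M N) = N := rfl

lemma pk_eta (x : VV n → A) : pk (mx x) (nx x) = x := by
  funext i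
  rcases i with i | i <;> rfl

/-- the corner -/
def tt (B : Matrix (Fin (n + 1)) (Fin (n + 1)) A) : A := B 0 0

/-- the border -/
def bb (B : Matrix (Fin (n + 1)) (Fin (n + 1)) A) : Fin n → A := fun i => B i.succ 0

/-- the block -/
def mm (B : Matrix (Fin (n + 1)) (Fin (n + 1)) A) : Matrix (Fin n) (Fin n) A :=
  Matrix.of fun i j => B i.succ j.succ

lemma bk_eta {B : Matrix (Fin (n + 1)) (Fin (n + 1)) A} (hB : ∀ i j, B i j = B j i) :
    bk (tt B) (bb B) (bb B) (mm B) = B := by
  ext i j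
  refine Fin.cases ?_ (fun i => ?_) i <;> refine Fin.cases ?_ (fun j => ?_) j
  · rfl
  · exact hB j.succ 0
  · rfl
  · rfl

@[simp] lemma tt_bk (α : A) (β : Fin n → A) (D : Matrix (Fin n) (Fin n) A) :
    tt (bk α β β D) = α := rfl
@[simp] lemma bb_bk (α : A) (β : Fin n → A) (D : Matrix (Fin n) (Fin n) A) :
    bb (bk α β β D) = β := rfl
@[simp] lemma mm_bk (α : A) (β : Fin n → A) (D : Matrix (Fin n) (Fin n) A) :
    mm (bk α β β D) = D := rfl

end mats

/-- the first generic matrix -/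
noncomputable def GM (n : ℕ) : Matrix (Fin n) (Fin n) (MvPolynomial (VV n) ℤ) := mx X

/-- the second generic matrix -/
noncomputable def GN (n : ℕ) : Matrix (Fin n) (Fin n) (MvPolynomial (VV n) ℤ) := nx X

/-- the system of the stratum `S` for the pattern `P` -/
noncomputable def XE {n : ℕ} (P : Fin n → Fin n → Prop) (S : Set (Fin n)) :
    Set (MvPolynomial (VV n) ℤ) :=
  {f | (∃ i j, f = GM n i j - GM n j i) ∨ (∃ i j, f = GN n i j - GN n j i) ∨
    (∃ i j, ¬ P i j ∧ f = GM n i j) ∨ (∃ i j, i ∈ S ∧ f = GN n i j) ∨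
    (∃ i j, j ∉ S ∧ f = (GN n * GM n) i j - (1 : Matrix (Fin n) (Fin n) (MvPolynomial (VV n) ℤ)) i j) ∨
    (∃ i j, f = (GM n * (GN n * GM n)) i j - GM n i j) ∨
    (∃ i j, i < j ∧ f = (GN n * GM n) i j)}

section pts

variable {A : Type} [CommRing A] {n : ℕ}

lemma ev_mul (x : VV n → A) (B C : Matrix (Fin n) (Fin n) (MvPolynomial (VV n) ℤ)) (i j : Fin n) :
    ev x ((B * C) i j) = (B.map (ev x) * C.map (ev x)) i j := by
  simp only [mul_apply, map_sum, map_mul, map_apply]

lemma map_mx (x : VV n → A) : (GM n).map (ev x) =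
    mx x := by
  ext i j; exact ev_X x _

lemma map_nx (x : VV n → A) : (GN n).map (ev x) =
    nx x := by
  ext i j; exact ev_X x _

lemma ev_nm (x : VV n → A) (i j : Fin n) :
    ev x ((GN n * GM n) i j) =
      (nx x * mx x) i j := by
  rw [ev_mul, map_mx, map_nx]

lemma ev_mnm (x : VV n → A) (i j : Fin n) :
    ev x ((GM n * (GN n * GM n)) i j) =
      (mx x * (nx x * mx x)) i j := by
  have h : (GN n * GM n).map (ev x) =
      nx x * mx x := by
    ext i j; exact ev_nm x i j
  rw [ev_mul, map_mx, h]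

lemma pt_XE {P : Fin n → Fin n → Prop} {S : Set (Fin n)} (x : VV n → A) :
    Pt (XE P S) x ↔ XP P S (mx x) (nx x) := by
  have e1 : ∀ i j, ev x ((1 : Matrix (Fin n) (Fin n) (MvPolynomial (VV n) ℤ)) i j) =
      (1 : Matrix (Fin n) (Fin n) A) i j := by
    intro i j
    rw [Matrix.one_apply, Matrix.one_apply]
    split_ifs
    · exact map_one _
    · exact map_zero _
  have eM : ∀ i j, ev x ((GM n) i j) = mx x i j :=
    fun i j => ev_X x _
  have eN : ∀ i j, ev x ((GN n) i j) = nx x i j :=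
    fun i j => ev_X x _
  constructor
  · intro h
    refine ⟨fun i j => ?_, fun i j => ?_, fun i j hij => ?_, fun i j hi => ?_, fun i j hj => ?_,
      ?_, fun i j hij => ?_⟩
    · have := h _ (Or.inl ⟨i, j, rfl⟩)
      rw [map_sub, eM, eM] at this
      exact sub_eq_zero.mp this
    · have := h _ (Or.inr (Or.inl ⟨i, j, rfl⟩))
      rw [map_sub, eN, eN] at this
      exact sub_eq_zero.mp this
    · have := h _ (Or.inr (Or.inr (Or.inl ⟨i, j, hij, rfl⟩)))
      rwa [eM] at this
    · have := h _ (Or.inr (Or.inr (Or.inr (Or.inl ⟨i, j, hi, rfl⟩))))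
      rwa [eN] at this
    · have := h _ (Or.inr (Or.inr (Or.inr (Or.inr (Or.inl ⟨i, j, hj, rfl⟩)))))
      rw [map_sub, ev_nm, e1] at this
      exact sub_eq_zero.mp this
    · ext i j
      have := h _ (Or.inr (Or.inr (Or.inr (Or.inr (Or.inr (Or.inl ⟨i, j, rfl⟩))))))
      rw [map_sub, ev_mnm, eM] at this
      exact sub_eq_zero.mp this
    · have := h _ (Or.inr (Or.inr (Or.inr (Or.inr (Or.inr (Or.inr ⟨i, j, hij, rfl⟩))))))
      rwa [ev_nm] at this
  · rintro h f (⟨i, j, rfl⟩ | ⟨i, j, rfl⟩ | ⟨i, j, hij, rfl⟩ | ⟨i, j, hi, rfl⟩ | ⟨i, j, hj, rfl⟩ |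
      ⟨i, j, rfl⟩ | ⟨i, j, hij, rfl⟩)
    · rw [map_sub, eM, eM, h.symM i j, sub_self]
    · rw [map_sub, eN, eN, h.symN i j, sub_self]
    · rw [eM, h.pat i j hij]
    · rw [eN, h.sup i j hi]
    · rw [map_sub, ev_nm, e1, h.inv i j hj, sub_self]
    · rw [map_sub, ev_mnm, eM, h.ker, sub_self]
    · rw [ev_nm, h.low i j hij]

end pts

/-! ### Naturality -/

section nat

variable {A B : Type} [CommRing A] [CommRing B] (φ : A →+* B) {n : ℕ}

lemma map_mulVec (M : Matrix (Fin n) (Fin n) A) (b : Fin n → A) (i : Fin n) :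
    φ ((M *ᵥ b) i) = ((M.map φ) *ᵥ (fun j => φ (b j))) i := by
  simp only [mulVec, dotProduct, map_sum, map_mul, map_apply]

lemma map_dot (b c : Fin n → A) : φ (b ⬝ᵥ c) = (fun j => φ (b j)) ⬝ᵥ (fun j => φ (c j)) := by
  simp only [dotProduct, map_sum, map_mul]

lemma map_mulM (M N : Matrix (Fin n) (Fin n) A) (i j : Fin n) :
    φ ((M * N) i j) = (M.map φ * N.map φ) i j := by
  simp only [mul_apply, map_sum, map_mul, map_apply]

lemma N1_map {ν : A} (hν : IsUnit ν) (z : Fin n → A) (N : Matrix (Fin n) (Fin n) A) (i j : Fin n) :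
    φ (N1 ν z N i j) = N1 (φ ν) (fun j => φ (z j)) (N.map φ) i j := by
  unfold N1
  simp only [Matrix.sub_apply, Matrix.smul_apply, vecMulVec_apply, smul_eq_mul, map_sub, map_mul,
    map_inv_of_unit φ hν, map_apply]

lemma N2_map {s : Fin n} {z : Fin n → A} (hz : IsUnit (z s)) (N : Matrix (Fin n) (Fin n) A)
    (i j : Fin n) : φ (N2 s z N i j) = N2 s (fun j => φ (z j)) (N.map φ) i j := by
  unfold N2
  simp only [Matrix.sub_apply, Matrix.add_apply, Matrix.smul_apply, vecMulVec_apply, smul_eq_mul,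
    map_sub, map_add, map_mul, map_inv_of_unit φ hz, map_apply]

lemma RR_map (v z : Fin n → A) (M N : Matrix (Fin n) (Fin n) A) (i j : Fin n) :
    φ (RR v z M N i j) = RR (fun j => φ (v j)) (fun j => φ (z j)) (M.map φ) (N.map φ) i j := by
  unfold RR
  simp only [Matrix.add_apply, vecMulVec_apply, map_add, map_mul, map_mulM]

lemma y2_map {s : Fin n} {S : Set (Fin n)} {v z : Fin n → A} (hz : IsUnit (z s))
    (M N : Matrix (Fin n) (Fin n) A) (i : Fin n) :
    φ (y2 s S v z M N i) = y2 s S (fun j => φ (v j)) (fun j => φ (z j)) (M.map φ) (N.map φ) i := by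
  unfold y2
  split_ifs
  · rw [map_mul, map_inv_of_unit φ hz, RR_map]
  · rfl

lemma v2_map {s : Fin n} {S : Set (Fin n)} (y : Fin n → A) (M N : Matrix (Fin n) (Fin n) A)
    (i : Fin n) :
    φ (v2 s S y M N i) = v2 s S (fun j => φ (y j)) (M.map φ) (N.map φ) i := by
  unfold v2
  rw [Pi.add_apply, Pi.add_apply, map_add, map_mulVec]
  congr 2
  · split_ifs
    · rfl
    · exact map_zero φ
  · funext j
    exact map_mulVec φ N y j

lemma z2_map {s : Fin n} {y : Fin n → A} (hy : IsUnit (y s)) (M N : Matrix (Fin n) (Fin n) A)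
    (i : Fin n) :
    φ (z2 s y M N i) = z2 s (fun j => φ (y j)) (M.map φ) (N.map φ) i := by
  unfold z2
  rw [map_mul, map_inv_of_unit φ hy, map_sub, map_mulM]
  congr 2
  rw [Matrix.one_apply, Matrix.one_apply]
  split_ifs
  · exact map_one φ
  · exact map_zero φ

lemma M2_map {s : Fin n} (t : A) {y : Fin n → A} (hy : IsUnit (y s))
    (M N : Matrix (Fin n) (Fin n) A) (i j : Fin n) :
    φ (M2 s t y M N i j) = M2 s (φ t) (fun j => φ (y j)) (M.map φ) (N.map φ) i j := by
  have h1 : ∀ k, φ ((N *ᵥ y) k) = ((N.map φ) *ᵥ fun j => φ (y j)) k := map_mulVec φ N y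
  unfold M2
  simp only [Matrix.sub_apply, Matrix.add_apply, Matrix.smul_apply, vecMulVec_apply, smul_eq_mul,
    map_sub, map_add, map_mul, map_apply, z2_map φ hy, h1, map_dot]

end nat

end Pool.Agent.KB
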